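import Pool.Agent.X316.ZU.Desc

/-!
Base change of unirational varieties from an algebraically closed subfield of `ℂ`.
-/

set_option autoImplicit false

open MvPolynomial
open scoped TensorProduct

namespace Pool.Agent.X316.ZU

open Pool.Agent.W602.GT (IsForm coords)
open Pool.Agent.TH143.GT (FunField)

/-- The ideal of the complex variety `X_ℂ`, for the projective variety `X` over the subfield `k` of
`ℂ` with generic point `x`: it is generated by the forms over `k` which vanish on `X`. -/
noncomputable def idealC (k : Type) [Field k] [Algebra k ℂ] {K : Type} [Field K] [Algebra k K]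
    {N : ℕ} (x : Fin (N + 1) → K) : Ideal (MvPolynomial (Fin (N + 1)) ℂ) :=
  Ideal.span {H | ∃ G : MvPolynomial (Fin (N + 1)) k, IsForm G ∧ W602.GT.val x G = 0 ∧
    MvPolynomial.map (algebraMap k ℂ) G = H}

variable {k : Type} [Field k] [Algebra k ℂ] {K : Type} [Field K] [Algebra k K] {N : ℕ}
  {x : Fin (N + 1) → K}

/-- the ideal of `X_ℂ` contains no new forms over `k` -/
theorem val_of_mem_idealC {G : MvPolynomial (Fin (N + 1)) k}
    (h : MvPolynomial.map (algebraMap k ℂ) G ∈ idealC k x) : W602.GT.val x G = 0 := by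
  let ev : MvPolynomial (Fin (N + 1)) ℂ →ₐ[ℂ] ℂ ⊗[k] K := aeval fun i => (1 : ℂ) ⊗ₜ x i
  have hev : ∀ G : MvPolynomial (Fin (N + 1)) k, ev (MvPolynomial.map (algebraMap k ℂ) G) =
      Algebra.TensorProduct.includeRight (W602.GT.val x G) := by
    intro G
    change aeval _ _ = _
    rw [aeval_map_algebraMap]
    have h2 := MvPolynomial.comp_aeval_apply (f := x)
      (Algebra.TensorProduct.includeRight : K →ₐ[k] ℂ ⊗[k] K) G
    exact h2.symm
  have h1 : idealC k x ≤ RingHom.ker ev := by
    rw [idealC, Ideal.span_le]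
    rintro _ ⟨G, -, hG, rfl⟩
    change ev _ = 0
    rw [hev, hG, map_zero]
  have h2 : ev (MvPolynomial.map (algebraMap k ℂ) G) = 0 := h1 h
  rw [hev] at h2
  have h3 : Function.Injective (Algebra.TensorProduct.includeRight : K →ₐ[k] ℂ ⊗[k] K) :=
    Algebra.TensorProduct.includeRight_injective (algebraMap k ℂ).injective
  exact (map_eq_zero_iff _ h3).1 h2

/-- the generic points of `X` and `X_ℂ` -/
theorem val_iff {w : ℕ} {L : Type} [Field L] [Algebra ℂ L] {y : Fin (N + 1) → L}
    (hy : FunField (idealC k x) 1 L w y) (G : MvPolynomial (Fin (N + 1)) k) (hG : IsForm G) :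
    W602.GT.val x G = 0 ↔ W602.GT.val y (MvPolynomial.map (algebraMap k ℂ) G) = 0 := by
  constructor
  · intro h
    exact hy.sub.mem _ (Ideal.subset_span ⟨G, hG, h, rfl⟩)
  · intro h
    apply val_of_mem_idealC
    exact hy.mem _ (by
      obtain ⟨d, hd⟩ := hG
      exact ⟨d, hd.map _⟩) h

/-- decomposition of a complex polynomial along a basis of `ℂ` over `k` -/
theorem exists_decomp {I σ : Type} (B : Module.Basis I k ℂ) (H : MvPolynomial σ ℂ) :
    ∃ (S : Finset I) (Hb : I → MvPolynomial σ k),
      H = ∑ b ∈ S, C (B b) * MvPolynomial.map (algebraMap k ℂ) (Hb b) ∧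
      ∀ e, H.IsHomogeneous e → ∀ b, (Hb b).IsHomogeneous e := by
  classical
  let Hb : I → MvPolynomial σ k := fun b =>
    ∑ e ∈ H.support, monomial e (B.repr (H.coeff e) b)
  have hco : ∀ b e, (Hb b).coeff e = B.repr (H.coeff e) b := by
    intro b e
    simp only [Hb, coeff_sum, coeff_monomial]
    rw [Finset.sum_ite_eq']
    split_ifs with h
    · rfl
    · rw [notMem_support_iff.1 h, map_zero, Finsupp.zero_apply]
  refine ⟨H.support.biUnion fun e => (B.repr (H.coeff e)).support, Hb, ?_, ?_⟩
  · ext e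
    simp only [coeff_sum, coeff_C_mul, coeff_map, hco]
    by_cases he : e ∈ H.support
    · have h1 := B.linearCombination_repr (H.coeff e)
      rw [Finsupp.linearCombination_apply, Finsupp.sum] at h1
      conv_lhs => rw [← h1]
      have h2 : ∑ b ∈ (B.repr (H.coeff e)).support, B b * algebraMap k ℂ (B.repr (H.coeff e) b) =
          ∑ b ∈ H.support.biUnion (fun e => (B.repr (H.coeff e)).support),
            B b * algebraMap k ℂ (B.repr (H.coeff e) b) := by
        apply Finset.sum_subset
        · intro b hb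
          exact Finset.mem_biUnion.2 ⟨e, he, hb⟩
        · intro b _ hb
          rw [Finsupp.notMem_support_iff.1 hb, map_zero, mul_zero]
      rw [← h2]
      refine Finset.sum_congr rfl fun b _ => ?_
      rw [Algebra.smul_def, mul_comm]
    · rw [notMem_support_iff.1 he, map_zero]
      symm
      refine Finset.sum_eq_zero fun b _ => ?_
      rw [Finsupp.zero_apply, map_zero, mul_zero]
  · intro d hd b e he
    rw [hco] at he
    apply hd
    intro h0
    apply he
    rw [h0, map_zero, Finsupp.zero_apply]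

/-- the parametrization of a unirational variety by polynomials -/
theorem exists_param' {k : Type} [Field k] {N m : ℕ} {K : Type} [Field K] [Algebra k K] {y : Fin (N + 1) → K}
    (hy : y ≠ 0) (φ : K →ₐ[k] FractionRing (MvPolynomial (Fin m) k)) :
    ∃ W : Fin (N + 1) → MvPolynomial (Fin m) k, ∀ G : MvPolynomial (Fin (N + 1)) k, IsForm G →
      (W602.GT.val y G = 0 ↔ aeval W G = 0) := by
  classical
  obtain ⟨i0, h0⟩ : ∃ i, y i ≠ 0 := Function.ne_iff.1 hy
  let FR := FractionRing (MvPolynomial (Fin m) k)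
  obtain ⟨b, hb⟩ := IsLocalization.exist_integer_multiples_of_finset
    (nonZeroDivisors (MvPolynomial (Fin m) k)) (Finset.univ.image fun j => φ (y j / y i0))
  have hb' : ∀ j, ∃ W : MvPolynomial (Fin m) k, algebraMap _ FR W =
      algebraMap _ FR (b : MvPolynomial (Fin m) k) * φ (y j / y i0) := by
    intro j
    obtain ⟨W, hW⟩ := hb _ (Finset.mem_image_of_mem _ (Finset.mem_univ j))
    refine ⟨W, ?_⟩
    rw [hW, Algebra.smul_def]
  choose W hW using hb'
  have hinj : Function.Injective (algebraMap (MvPolynomial (Fin m) k) FR) :=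
    IsFractionRing.injective _ _
  have hb0 : algebraMap _ FR (b : MvPolynomial (Fin m) k) ≠ 0 := by
    rw [Ne, map_eq_zero_iff _ hinj]
    exact nonZeroDivisors.ne_zero b.2
  refine ⟨W, fun G hG => ?_⟩
  obtain ⟨e, he⟩ := hG
  have h1 : algebraMap _ FR (aeval W G) = algebraMap _ FR (b : MvPolynomial (Fin m) k) ^ e *
      φ (aeval (fun j => y j / y i0) G) := by
    have h2 := MvPolynomial.comp_aeval_apply (f := W)
      (IsScalarTower.toAlgHom k (MvPolynomial (Fin m) k) FR) G
    have h3 := MvPolynomial.comp_aeval_apply (f := fun j => y j / y i0) φ G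
    refine h2.trans ?_
    rw [h3]
    have h4 : (fun j => (IsScalarTower.toAlgHom k (MvPolynomial (Fin m) k) FR) (W j)) =
        fun j => algebraMap _ FR (b : MvPolynomial (Fin m) k) * φ (y j / y i0) :=
      funext fun j => hW j
    rw [h4]
    rw [aeval_def, aeval_def, eval₂_eq', eval₂_eq', Finset.mul_sum]
    refine Finset.sum_congr rfl fun α hα => ?_
    have h5 : ∑ i, α i = e := by
      have := he (MvPolynomial.mem_support_iff.1 hα)
      rw [Finsupp.weight_apply, Finsupp.sum_fintype _ _ (fun _ => by simp)] at this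
      simpa using this
    rw [← h5, ← Finset.prod_pow_eq_pow_sum]
    simp only [mul_pow, Finset.prod_mul_distrib]
    ring
  rw [Pool.Agent.TH143.GT.val_scale h0 he]
  constructor
  · intro h2
    apply hinj
    rw [map_zero, h1]
    have h3 : aeval (fun j => y j / y i0) G = 0 :=
      (mul_eq_zero.1 h2).resolve_left (pow_ne_zero _ h0)
    rw [h3, map_zero, mul_zero]
  · intro h2
    rw [h2, map_zero] at h1
    have h3 := (mul_eq_zero.1 h1.symm).resolve_left (pow_ne_zero _ hb0)
    rw [map_eq_zero] at h3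
    rw [h3, mul_zero]

/-- **Base change.** -/
theorem unirational_base {w : ℕ} {L : Type} [Field L] [Algebra ℂ L] {y : Fin (N + 1) → L}
    (hx : x ≠ 0) (hy : FunField (idealC k x) 1 L w y)
    (h : ∃ m : ℕ, Nonempty (K →ₐ[k] FractionRing (MvPolynomial (Fin m) k))) :
    ∃ m : ℕ, Nonempty (L →ₐ[ℂ] FractionRing (MvPolynomial (Fin m) ℂ)) := by
  classical
  obtain ⟨m, ⟨φ⟩⟩ := h
  obtain ⟨W, hW⟩ := exists_param' hx φ
  refine ⟨m, ?_⟩
  let FR := FractionRing (MvPolynomial (Fin m) ℂ)
  have hinj : Function.Injective (algebraMap (MvPolynomial (Fin m) ℂ) FR) :=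
    IsFractionRing.injective _ _
  let Wc : Fin (N + 1) → MvPolynomial (Fin m) ℂ := fun i =>
    MvPolynomial.map (algebraMap k ℂ) (W i)
  have hWc : ∀ G : MvPolynomial (Fin (N + 1)) k,
      aeval Wc (MvPolynomial.map (algebraMap k ℂ) G) =
        MvPolynomial.map (algebraMap k ℂ) (aeval W G) := by
    intro G
    rw [aeval_map_algebraMap]
    exact (MvPolynomial.comp_aeval_apply (f := W) (mapAlgHom (Algebra.ofId k ℂ)) G).symm
  let Z : Fin (N + 1) → FR := fun i => algebraMap _ FR (Wc i)
  have hZval : ∀ H : MvPolynomial (Fin (N + 1)) ℂ, W602.GT.val Z H =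
      algebraMap _ FR (aeval Wc H) := by
    intro H
    unfold W602.GT.val
    have h2 := MvPolynomial.comp_aeval_apply (f := Wc)
      (IsScalarTower.toAlgHom ℂ (MvPolynomial (Fin m) ℂ) FR) H
    exact h2.symm
  have hrel : ∀ H : MvPolynomial (Fin (N + 1)) ℂ, IsForm H →
      (W602.GT.val y H = 0 ↔ W602.GT.val Z H = 0) := by
    intro H hH
    rw [hZval, map_eq_zero_iff _ hinj]
    constructor
    · intro h1
      have h2 := hy.mem H hH h1
      have h3 : idealC k x ≤ RingHom.ker (aeval Wc : MvPolynomial (Fin (N + 1)) ℂ →ₐ[ℂ] _) := by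
        rw [idealC, Ideal.span_le]
        rintro _ ⟨G, hG, hG0, rfl⟩
        change aeval Wc _ = 0
        rw [hWc, (hW G hG).1 hG0, map_zero]
      exact h3 h2
    · intro h1
      let B := Module.Basis.ofVectorSpace k ℂ
      obtain ⟨S, Hb, hS, hhom⟩ := exists_decomp B H
      apply hy.sub.mem
      rw [hS] at h1 ⊢
      refine Ideal.sum_mem _ fun b hb => Ideal.mul_mem_left _ _ (Ideal.subset_span ?_)
      obtain ⟨e, he⟩ := hH
      refine ⟨Hb b, ⟨e, hhom e he b⟩, ?_, rfl⟩
      rw [hW _ ⟨e, hhom e he b⟩]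
      rw [map_sum] at h1
      simp only [map_mul, hWc, aeval_C, algebraMap_eq] at h1
      ext d
      have h2 := congrArg (coeff d) h1
      simp only [coeff_sum, coeff_C_mul, coeff_map, coeff_zero] at h2
      have h3 := linearIndependent_iff'.1 B.linearIndependent S
        (fun b => coeff d (aeval W (Hb b))) (by
          rw [← h2]
          refine Finset.sum_congr rfl fun b _ => ?_
          rw [Algebra.smul_def, mul_comm]) b hb
      rw [h3, coeff_zero]
  obtain ⟨i0, h0⟩ : ∃ i, y i ≠ 0 := Function.ne_iff.1 hy.sub.ne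
  have hZ0 : Z i0 ≠ 0 := by
    intro h1
    apply h0
    have h2 := (hrel (X i0) ⟨1, isHomogeneous_X _ _⟩).2 (by
      unfold W602.GT.val
      rw [aeval_X, h1])
    unfold W602.GT.val at h2
    rwa [aeval_X] at h2
  obtain ⟨χ, -⟩ := W602.GT.exists_embedding h0 hZ0 hy.sub.gen hrel
  exact ⟨χ⟩

end Pool.Agent.X316.ZU
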