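import Pool.Agent.X316.ZU.Cur
import Pool.Agent.X316.ZU.BC
import Pool.Agent.TH8.TEN.Asm
import Pool.Agent.TH8.TEN.Special

/-!
Unirational varieties and Zariski-dense entire curves given by the zeta function.
-/

set_option autoImplicit false

open MvPolynomial Set

namespace Pool.Agent.X316.ZU

open Pool.Agent.W602.GT (IsForm coords)
open Pool.Agent.TH143 Pool.Agent.TH143.GT Pool.Agent.TH8.TEN
open Pool.Agent.TH8.UNI (Unirational InVar dirCurve GraphDense DenseOver uni_tfae genPt_of)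
open Pool.Agent.X316.ZG (JointlyUniversal)
open Pool.Agent.TH466.QT (PotentiallyDense dense_of_unirational)

variable {N : ℕ}

/-- unirational varieties are special and have no tensor differentials -/
theorem special_of_unirational {p : Ideal (MvPolynomial (Fin (N + 1)) ℂ)} {K : Type} [Field K]
    [Algebra ℂ K] {w : ℕ} {y : Fin (N + 1) → K} (hy : FunField p 1 K w y) (h : Unirational K) :
    (∀ q : ℕ, 0 < q → ∀ θ : MultilinearMap K (fun _ : Fin q => Derivation ℂ K K) K,
      HolTensor w θ → θ = 0) ∧ Special K w := by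
  obtain ⟨f, hf, hlin, hX, hd⟩ := ((uni_tfae hy).out 0 3).1 h
  have hz := (hd.denseOver).zdense univ_nonempty
  have hpt := genPt_of hy hX hz
  have h1 : ∀ q : ℕ, 0 < q → ∀ θ : MultilinearMap K (fun _ : Fin q => Derivation ℂ K K) K,
      HolTensor w θ → θ = 0 := fun q hq θ hθ => tensor_vanish hpt hf hlin hq hθ
  exact ⟨h1, special_of_tensor h1⟩

/-- **Unirationality in terms of curves given by the zeta function.** -/
theorem zeta_tfae {p : Ideal (MvPolynomial (Fin (N + 1)) ℂ)} {K : Type} [Field K]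
    [Algebra ℂ K] {w : ℕ} {y : Fin (N + 1) → K} (hy : FunField p 1 K w y) :
    List.TFAE [Unirational K,
      HasDPolCurve (fun _ : Unit => riemannZeta) p,
      ∃ (ι : Type) (u : ι → ℂ → ℂ), JointlyUniversal u ∧ HasDPolCurve u p,
      ∀ (ι : Type) (u : ι → ℂ → ℂ), Nonempty ι → JointlyUniversal u → HasDPolCurve u p,
      ∃ (M : ℕ) (a : Fin (N + 1) → ℕ → ℂ), InVar p univ (dirCurve M a) ∧
        GraphDense p univ (dirCurve M a),
      ∃ f : ℂ → Fin (N + 1) → ℂ, (∀ j, Differentiable ℂ (fun z => f z j)) ∧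
        (∀ j, PolODE (fun z => f z j)) ∧ InVar p univ f ∧ GraphDense p univ f,
      ∃ (Ω : Set ℂ) (B : Subalgebra ℂ (ℂ → ℂ)) (f : ℂ → Fin (N + 1) → ℂ), IsOpen Ω ∧
        IsPreconnected Ω ∧ Ω.Nonempty ∧ DiffRing Ω B ∧ (∀ j, AnalyticOnNhd ℂ (fun z => f z j) Ω) ∧
        (∀ j, LinOver Ω B (fun z => f z j)) ∧ InVar p Ω f ∧
        DenseOver Ω B (fun G => G ∈ p) f] := by
  have h0 := uni_tfae hy
  tfae_have 1 → 4 := by
    rintro h ι u ⟨j0⟩ hu
    exact curve_of_unirational hu j0 hy h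
  tfae_have 4 → 2 := fun h => h Unit _ ⟨()⟩ Pool.Agent.X316.ZG.zeta_universal
  tfae_have 2 → 3 := fun h => ⟨Unit, _, Pool.Agent.X316.ZG.zeta_universal, h⟩
  tfae_have 3 → 1 := by
    rintro ⟨ι, u, hu, h⟩
    exact unirational_of_curve hu hy h
  tfae_have 1 ↔ 5 := h0.out 0 2
  tfae_have 1 ↔ 6 := h0.out 0 3
  tfae_have 1 ↔ 7 := h0.out 0 5
  tfae_finish

/-- **Varieties over algebraically closed subfields of `ℂ`.** -/
theorem descent_tfae {k : Type} [Field k] [IsAlgClosed k] [CharZero k] [Algebra k ℂ] {K : Type}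
    [Field K] [Algebra k K] {w : ℕ} {x : Fin (N + 1) → K} (hx : x ≠ 0) (hgen : coords k x = ⊤)
    (hw : Algebra.trdeg k K = w) {L : Type} [Field L] [Algebra ℂ L] {y : Fin (N + 1) → L}
    (hy : FunField (idealC k x) 1 L w y) :
    List.TFAE [∃ m : ℕ, Nonempty (K →ₐ[k] FractionRing (MvPolynomial (Fin m) k)),
      Nonempty (K →ₐ[k] FractionRing (MvPolynomial (Fin w) k)),
      Unirational L] := by
  tfae_have 1 → 3 := unirational_base hx hy
  tfae_have 3 → 2 := fun h => unirational_descent hx hgen hw hy.sub.ne hy.sub.gen hy.sub.dim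
    (val_iff hy) (((uni_tfae hy).out 0 1).1 h)
  tfae_have 2 → 1 := fun h => ⟨w, h⟩
  tfae_finish

theorem dense_of_curve {k : Type} [Field k] [IsAlgClosed k] [CharZero k] [Algebra k ℂ] {K : Type}
    [Field K] [Algebra k K] {w : ℕ} {x : Fin (N + 1) → K} (hx : x ≠ 0)
    (h : Nonempty (K →ₐ[k] FractionRing (MvPolynomial (Fin w) k))) : PotentiallyDense k x :=
  dense_of_unirational (w := w) h hx

end Pool.Agent.X316.ZU
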