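import Pool.Agent.X316.ZU.Fields
import Pool.Agent.X316.ZU.Main
import Pool.Agent.Y125.IL.T
import Pool.Agent.Y377.IL.Log
import Pool.Agent.Y377.IL.AlgB

/-!
Zariski-dense entire curves which are algebraic over a jointly universal family, and unirational
varieties.
-/

set_option autoImplicit false

open Filter Topology Set MvPolynomial

namespace Pool.Agent.X316.ZU

open scoped LinearAlgebra.Projectivization
open Pool.Agent.X316.ZG
open Pool.Agent.TH143.EL (HolMap Rep InV rep_rep rep_smul)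
open Pool.Agent.TH143.GT (FunField)
open Pool.Agent.W602.GT (IsForm coords exists_embedding)
open Pool.Agent.Y377.IL (Dense AlgebraicOver AlgRatio rel_of_dense algI mem_algI)

variable {ι : Type} {N : ℕ}
variable {p : Ideal (MvPolynomial (Fin (N + 1)) ℂ)} {K : Type} [Field K] [Algebra ℂ K]
  {w : ℕ} {y : Fin (N + 1) → K} {f : ℂ → ℙ ℂ (Fin (N + 1) → ℂ)}

/-- **Algebraic curves over universal functions.** -/
theorem unirational_of_alg {u : ι → ℂ → ℂ} (hu : JointlyUniversal u) (hy : FunField p 1 K w y)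
    (hf : HolMap f) (hX : ∀ z, InV p (f z)) (hd : Dense p f) (ha : AlgebraicOver (dring u) f) :
    ∃ m : ℕ, Nonempty (K →ₐ[ℂ] FractionRing (MvPolynomial (Fin m) ℂ)) := by
  classical
  obtain ⟨l, hl0⟩ := Function.ne_iff.1 (f 0).rep_nonzero
  obtain ⟨hm, hne⟩ := Pool.Agent.Y125.IL.t_RT N f hf l ⟨0, hl0⟩
  let h : Fin (N + 1) → ℂ → ℂ := fun j z => (f z).rep j / (f z).rep l
  have hm' : ∀ j, Meromorphic (h j) := hm
  have hh : ∀ z, (fun j => h j z) = fun j => ((f z).rep l)⁻¹ * (f z).rep j := by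
    intro z
    funext j
    change (f z).rep j / (f z).rep l = _
    rw [div_eq_mul_inv, mul_comm]
  have hr : ∀ᶠ z in codiscrete ℂ, Rep (f z) fun j => h j z := by
    filter_upwards [hne] with z hz
    rw [hh z]
    exact (rep_smul (inv_ne_zero hz)).2 (rep_rep (f z))
  have hrat : ∀ i j, AlgRatio (dring u) (h i) (h j) := by
    intro i j
    refine Pool.Agent.Y377.IL.algRatio_scale ?_ (ha i j)
    filter_upwards [hne] with z hz
    exact ⟨((f z).rep l)⁻¹, congrFun (hh z) i, congrFun (hh z) j⟩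
  have hrel := rel_of_dense hy hf hr hX hd
  let Y : Fin (N + 1) → Mf := fun j => cl (h j) (hm' j)
  have hYl : Y l ≠ 0 := by
    intro h4
    have h5 : ∀ᶠ z in codiscrete ℂ, h l z = 0 := cl_zero.1 h4
    obtain ⟨z, h6, h7⟩ := (h5.and hne).exists
    have h8 : h l z = 1 := div_self h7
    rw [h6] at h8
    exact zero_ne_one h8
  have hrel' : ∀ G : MvPolynomial (Fin (N + 1)) ℂ, IsForm G →
      (W602.GT.val y G = 0 ↔ W602.GT.val Y G = 0) := by
    intro G hG
    rw [hrel G hG]
    exact (aeval_cl_zero h hm' G).symm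
  have hyl : y l ≠ 0 := by
    intro h4
    apply hYl
    have h5 : W602.GT.val y (X l : MvPolynomial (Fin (N + 1)) ℂ) = 0 := by
      unfold W602.GT.val
      rw [aeval_X, h4]
    rw [hrel' _ ⟨1, isHomogeneous_X _ _⟩] at h5
    unfold W602.GT.val at h5
    rwa [aeval_X] at h5
  obtain ⟨ψ, hψ⟩ := exists_embedding (k := ℂ) (y := y) (y' := Y) (i0 := l) hyl hYl
    hy.sub.gen hrel'
  have halg : ∀ j, ∃ T : Finset (ι × ℕ),
      IsAlgebraic (Algebra.adjoin ℂ (xc hu.mero '' (T : Set (ι × ℕ))) : Subalgebra ℂ Mf)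
        (ψ (y j / y l)) := by
    intro j
    rw [hψ]
    exact alg_of_ratio hu.mero (hm' j) (hm' l) hYl (hrat j l)
  choose Te hTe using halg
  let T : Finset (ι × ℕ) := Finset.univ.biUnion Te
  have hall : ∀ e : K,
      IsAlgebraic (Algebra.adjoin ℂ (xc hu.mero '' (T : Set (ι × ℕ))) : Subalgebra ℂ Mf)
        (ψ e) := by
    intro e
    have h3 : ∀ j, y j / y l ∈ (algI (Algebra.adjoin ℂ (xc hu.mero ''
        (T : Set (ι × ℕ))) : Subalgebra ℂ Mf)).comap ψ := by
      intro j
      change ψ (y j / y l) ∈ algI _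
      rw [mem_algI]
      have h5 : (Algebra.adjoin ℂ (xc hu.mero '' (Te j : Set (ι × ℕ))) : Subalgebra ℂ Mf) ≤
          Algebra.adjoin ℂ (xc hu.mero '' (T : Set (ι × ℕ))) := by
        apply Algebra.adjoin_mono
        apply Set.image_mono
        intro v hv
        exact Finset.mem_coe.2 (Finset.mem_biUnion.2 ⟨j, Finset.mem_univ j, hv⟩)
      exact Pool.Agent.Y377.EL.alg_mono h5 (hTe j)
    have h4 : (⊤ : IntermediateField ℂ K) ≤ (algI (Algebra.adjoin ℂ (xc hu.mero ''
        (T : Set (ι × ℕ))) : Subalgebra ℂ Mf)).comap ψ := by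
      rw [← hy.sub.gen]
      unfold coords
      rw [IntermediateField.adjoin_le_iff]
      rintro _ ⟨i, j, hj, rfl⟩
      have h5 : y i / y j = (y i / y l) / (y j / y l) := by
        field_simp
      change y i / y j ∈ (algI _).comap ψ
      rw [h5]
      exact div_mem (h3 i) (h3 j)
    exact h4 (IntermediateField.mem_top (x := e))
  have hfg : (⊤ : IntermediateField ℂ K).FG := Pool.Agent.Y377.IL.fg_of_coords hy.sub.gen
  exact fields2 hu T.card T rfl K ψ hfg hall

/-- **The Zariski closure of an algebraic curve.** -/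
theorem closure_param {u : ι → ℂ → ℂ} (hu : JointlyUniversal u) (hf : HolMap f)
    (ha : AlgebraicOver (dring u) f) :
    ∃ (m : ℕ) (W : Fin (N + 1) → MvPolynomial (Fin m) ℂ),
      ∀ G : MvPolynomial (Fin (N + 1)) ℂ, IsForm G →
        ((∀ z, eval (f z).rep G = 0) ↔ aeval W G = 0) := by
  classical
  obtain ⟨l, hl0⟩ := Function.ne_iff.1 (f 0).rep_nonzero
  obtain ⟨hm, hne⟩ := Pool.Agent.Y125.IL.t_RT N f hf l ⟨0, hl0⟩
  let h : Fin (N + 1) → ℂ → ℂ := fun j z => (f z).rep j / (f z).rep l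
  have hm' : ∀ j, Meromorphic (h j) := hm
  have hh : ∀ z, (fun j => h j z) = fun j => ((f z).rep l)⁻¹ * (f z).rep j := by
    intro z
    funext j
    change (f z).rep j / (f z).rep l = _
    rw [div_eq_mul_inv, mul_comm]
  have hr : ∀ᶠ z in codiscrete ℂ, Rep (f z) fun j => h j z := by
    filter_upwards [hne] with z hz
    rw [hh z]
    exact (rep_smul (inv_ne_zero hz)).2 (rep_rep (f z))
  have hrat : ∀ i j, AlgRatio (dring u) (h i) (h j) := by
    intro i j
    refine Pool.Agent.Y377.IL.algRatio_scale ?_ (ha i j)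
    filter_upwards [hne] with z hz
    exact ⟨((f z).rep l)⁻¹, congrFun (hh z) i, congrFun (hh z) j⟩
  let Y : Fin (N + 1) → Mf := fun j => cl (h j) (hm' j)
  have hYl : Y l = 1 := by
    have h1 : Y l = cl (fun _ => (1 : ℂ)) (Meromorphic.const 1) := by
      apply cl_eq
      filter_upwards [hne] with z hz
      exact div_self hz
    rw [h1]
    rfl
  have hYl0 : Y l ≠ 0 := by
    rw [hYl]
    exact one_ne_zero
  let E : IntermediateField ℂ Mf := IntermediateField.adjoin ℂ (Set.range Y)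
  let y : Fin (N + 1) → E := fun j => ⟨Y j, IntermediateField.subset_adjoin _ _ ⟨j, rfl⟩⟩
  have htop : IntermediateField.adjoin ℂ (Set.range y) = (⊤ : IntermediateField ℂ E) := by
    have h2 : (IntermediateField.adjoin ℂ (Set.range y)).map E.val =
        (⊤ : IntermediateField ℂ E).map E.val := by
      rw [IntermediateField.adjoin_map, ← AlgHom.fieldRange_eq_map,
        IntermediateField.fieldRange_val, ← Set.range_comp]
      rfl
    exact IntermediateField.map_injective E.val h2
  have halg : ∀ j, ∃ T : Finset (ι × ℕ),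
      IsAlgebraic (Algebra.adjoin ℂ (xc hu.mero '' (T : Set (ι × ℕ))) : Subalgebra ℂ Mf)
        (E.val (y j)) := by
    intro j
    obtain ⟨T, hT⟩ := alg_of_ratio hu.mero (hm' j) (hm' l) hYl0 (hrat j l)
    refine ⟨T, ?_⟩
    have h1 : cl (h j) (hm' j) / cl (h l) (hm' l) = Y j := by
      change Y j / Y l = Y j
      rw [hYl, div_one]
    rw [h1] at hT
    exact hT
  choose Te hTe using halg
  let T : Finset (ι × ℕ) := Finset.univ.biUnion Te
  have hall : ∀ e : E,
      IsAlgebraic (Algebra.adjoin ℂ (xc hu.mero '' (T : Set (ι × ℕ))) : Subalgebra ℂ Mf)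
        (E.val e) := by
    intro e
    have h4 : (⊤ : IntermediateField ℂ E) ≤ (algI (Algebra.adjoin ℂ (xc hu.mero ''
        (T : Set (ι × ℕ))) : Subalgebra ℂ Mf)).comap E.val := by
      rw [← htop, IntermediateField.adjoin_le_iff]
      rintro _ ⟨j, rfl⟩
      change E.val (y j) ∈ algI _
      rw [mem_algI]
      have h5 : (Algebra.adjoin ℂ (xc hu.mero '' (Te j : Set (ι × ℕ))) : Subalgebra ℂ Mf) ≤
          Algebra.adjoin ℂ (xc hu.mero '' (T : Set (ι × ℕ))) := by
        apply Algebra.adjoin_mono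
        apply Set.image_mono
        intro v hv
        exact Finset.mem_coe.2 (Finset.mem_biUnion.2 ⟨j, Finset.mem_univ j, hv⟩)
      exact Pool.Agent.Y377.EL.alg_mono h5 (hTe j)
    exact h4 (IntermediateField.mem_top (x := e))
  have hfg : (⊤ : IntermediateField ℂ E).FG := by
    rw [← htop]
    exact IntermediateField.fg_adjoin_of_finite (Set.finite_range y)
  obtain ⟨m, ⟨φ⟩⟩ := fields2 hu T.card T rfl E E.val hfg hall
  have hy0 : y ≠ 0 := by
    intro h0
    apply hYl0
    have h1 := congrArg Subtype.val (congrFun h0 l)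
    exact h1
  obtain ⟨W, hW⟩ := Pool.Agent.TH8.UNI.exists_param hy0 φ
  refine ⟨m, W, fun G hG => ?_⟩
  rw [← hW G hG]
  have e5 : ((W602.GT.val y G : E) : Mf) = aeval Y G :=
    MvPolynomial.comp_aeval_apply (f := y) E.val G
  have e6 : W602.GT.val y G = 0 ↔ aeval Y G = 0 := by
    rw [← e5]
    exact Subtype.ext_iff
  rw [e6]
  have e7 : aeval Y G = 0 ↔ ∀ᶠ z in codiscrete ℂ, eval (fun j => h j z) G = 0 :=
    aeval_cl_zero h hm' G
  rw [e7]
  exact (Pool.Agent.Y377.IL.form_rep hf hr hG).symm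

theorem algebraic_of_dpol {u : ι → ℂ → ℂ} (hc : DPolCurve u f) : AlgebraicOver (dring u) f := by
  classical
  obtain ⟨h, hh, hr⟩ := hc
  intro i j
  refine Pool.Agent.Y377.IL.algRatio_rep hr ?_
  by_cases h0 : (∀ᶠ z in codiscrete ℂ, h i z = 0) ∧ ∀ᶠ z in codiscrete ℂ, h j z = 0
  · refine ⟨1, fun _ => 1, fun _ => (dring u).one_mem, ⟨0, by omega, fun h1 => ?_⟩, ?_⟩
    · obtain ⟨z, hz⟩ := h1.exists
      exact one_ne_zero hz
    · filter_upwards [h0.1, h0.2] with z h1 h2
      rw [Finset.sum_range_succ, Finset.sum_range_one, h1, h2]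
      simp
  · refine ⟨1, fun k => if k = 0 then -h i else h j, fun k => ?_, ?_, ?_⟩
    · dsimp only
      split_ifs
      · exact (dring u).neg_mem (hh i)
      · exact hh j
    · rw [not_and_or] at h0
      rcases h0 with h1 | h1
      · refine ⟨0, by omega, fun h2 => h1 ?_⟩
        filter_upwards [h2] with z hz
        rw [if_pos rfl] at hz
        simpa using hz
      · refine ⟨1, le_rfl, fun h2 => h1 ?_⟩
        filter_upwards [h2] with z hz
        rw [if_neg (by norm_num)] at hz
        exact hz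
    · refine Eventually.of_forall fun z => ?_
      rw [Finset.sum_range_succ, Finset.sum_range_one]
      dsimp only
      rw [if_pos rfl, if_neg one_ne_zero]
      simp only [Pi.neg_apply]
      ring

/-- There is a Zariski-dense entire curve in the projective variety with the ideal `p` which is
algebraic over the ring. -/
def HasAlgCurve (u : ι → ℂ → ℂ) (p : Ideal (MvPolynomial (Fin (N + 1)) ℂ)) : Prop :=
  ∃ f : ℂ → ℙ ℂ (Fin (N + 1) → ℂ), HolMap f ∧ AlgebraicOver (dring u) f ∧ (∀ z, InV p (f z)) ∧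
    ∀ G : MvPolynomial (Fin (N + 1)) ℂ, IsForm G → (∀ z, eval (f z).rep G = 0) → G ∈ p

/-- **Unirationality in terms of curves algebraic over the zeta function.** -/
theorem alg_tfae (hy : FunField p 1 K w y) :
    List.TFAE [Pool.Agent.TH8.UNI.Unirational K,
      HasAlgCurve (fun _ : Unit => riemannZeta) p,
      ∃ (ι : Type) (u : ι → ℂ → ℂ), JointlyUniversal u ∧ HasAlgCurve u p,
      ∀ (ι : Type) (u : ι → ℂ → ℂ), Nonempty ι → JointlyUniversal u → HasAlgCurve u p] := by
  tfae_have 1 → 4 := by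
    rintro h ι u ⟨j0⟩ hu
    obtain ⟨f, h1, h2, h3⟩ := curve_of_unirational hu j0 hy h
    exact ⟨f, h1, algebraic_of_dpol h2, h3⟩
  tfae_have 4 → 2 := fun h => h Unit _ ⟨()⟩ Pool.Agent.X316.ZG.zeta_universal
  tfae_have 2 → 3 := fun h => ⟨Unit, _, Pool.Agent.X316.ZG.zeta_universal, h⟩
  tfae_have 3 → 1 := by
    rintro ⟨ι, u, hu, f, h1, h2, h3, h4⟩
    exact unirational_of_alg hu hy h1 h3 h4 h2
  tfae_finish

end Pool.Agent.X316.ZU
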