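import Pool.Agent.X316.ZU.CurE

/-!
The Zariski closure of an entire curve which is algebraic over elliptic functions and a jointly
universal family is dominated by the product of an elliptic curve and an affine space.
-/

set_option autoImplicit false

open Filter Topology Set MvPolynomial

namespace Pool.Agent.X316.ZU

open scoped LinearAlgebra.Projectivization
open Pool.Agent.X316.ZG Pool.Agent.X316.ZE
open Pool.Agent.TH143.EL (HolMap Rep InV rep_rep rep_smul Ell NC)
open Pool.Agent.W602.GT (IsForm)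
open Pool.Agent.Y377.IL (AlgebraicOver)

variable {ι : Type} {N : ℕ}
variable {f : ℂ → ℙ ℂ (Fin (N + 1) → ℂ)}

/-- the value at a point of the functions of a ring -/
def atPt (S : Subalgebra ℂ (ℂ → ℂ)) (z : ℂ) : S →ₐ[ℂ] ℂ :=
  (Pi.evalAlgHom ℂ (fun _ : ℂ => ℂ) z).comp S.val

/-- the class of an elliptic function -/
noncomputable def ellMf (a b : ℂ) : Ell a b →ₐ[ℂ] Mf :=
  (Ideal.Quotient.mkₐ ℂ nullI).comp
    { toFun := fun g => (⟨(g : ℂ → ℂ), g.2.1⟩ : merS)
      map_one' := rfl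
      map_mul' := fun _ _ => rfl
      map_zero' := rfl
      map_add' := fun _ _ => rfl
      commutes' := fun _ => rfl }

theorem ellMf_eq {a b : ℂ} (g : Ell a b) : ellMf a b g = cl (g : ℂ → ℂ) g.2.1 := rfl

theorem ellMf_zero {a b : ℂ} (g : Ell a b) :
    ellMf a b g = 0 ↔ ∀ᶠ z in codiscrete ℂ, atPt (Ell a b) z g = 0 := by
  rw [ellMf_eq]
  exact cl_zero

/-- polynomials with elliptic coefficients -/
theorem map_zero_iff {a b : ℂ} {m : ℕ} (P : MvPolynomial (Fin m) (Ell a b)) :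
    MvPolynomial.map (ellMf a b).toRingHom P = 0 ↔
      ∀ᶠ z in codiscrete ℂ, MvPolynomial.map (atPt (Ell a b) z).toRingHom P = 0 := by
  constructor
  · intro h
    have h1 : ∀ d ∈ P.support, ∀ᶠ z in codiscrete ℂ, atPt (Ell a b) z (coeff d P) = 0 := by
      intro d _
      rw [← ellMf_zero]
      have h2 := congrArg (coeff d) h
      rw [coeff_map, coeff_zero] at h2
      exact h2
    have h2 := (Filter.eventually_all_finset P.support).2 h1
    filter_upwards [h2] with z hz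
    ext d
    rw [coeff_map, coeff_zero]
    by_cases hd : d ∈ P.support
    · exact hz d hd
    · rw [notMem_support_iff.1 hd, map_zero]
  · intro h
    ext d
    rw [coeff_map, coeff_zero]
    change ellMf a b (coeff d P) = 0
    rw [ellMf_zero]
    filter_upwards [h] with z hz
    have h2 := congrArg (coeff d) hz
    rw [coeff_map, coeff_zero] at h2
    exact h2

theorem exists_lift_poly {a b : ℂ} {m : ℕ} (P : MvPolynomial (Fin m) Mf)
    (h : ∀ d, tr a (coeff d P) = coeff d P ∧ tr b (coeff d P) = coeff d P) :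
    ∃ P' : MvPolynomial (Fin m) (Ell a b), MvPolynomial.map (ellMf a b).toRingHom P' = P := by
  classical
  have h1 : ∀ d, ∃ g : Ell a b, ellMf a b g = coeff d P := by
    intro d
    obtain ⟨g, hg, hgx⟩ := exists_ell (h d).1 (h d).2
    exact ⟨⟨g, hg⟩, hgx.symm⟩
  choose g hg using h1
  refine ⟨∑ d ∈ P.support, monomial d (g d), ?_⟩
  rw [map_sum]
  conv_rhs => rw [P.as_sum]
  refine Finset.sum_congr rfl fun d _ => ?_
  rw [map_monomial]
  congr 1
  exact hg d

/-- **The Zariski closure.** -/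
theorem closure_ell {ω₁ ω₂ : ℂ} (hind : LinearIndependent ℝ ![ω₁, ω₂]) {u : ι → ℂ → ℂ}
    (hu : JointlyUniversal u) (hf : HolMap f) (ha : AlgebraicOver (dringB (Ell ω₁ ω₂) u) f) :
    ∃ (n m : ℕ) (W : Fin (N + 1) → MvPolynomial (Fin m) (Ell (n * ω₁) (n * ω₂))), 0 < n ∧
      ∀ G : MvPolynomial (Fin (N + 1)) ℂ, IsForm G →
        ((∀ z, eval (f z).rep G = 0) ↔ ∀ᶠ z in codiscrete ℂ,
          aeval (fun j => MvPolynomial.map (atPt (Ell (n * ω₁) (n * ω₂)) z).toRingHom (W j))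
            G = 0) := by
  classical
  have hB := base_ell hind
  obtain ⟨q, hqB, hnc, hco⟩ := hB.ex
  have hq : Meromorphic q := hB.tr.mero q hqB
  obtain ⟨k, _, _, ψ₀, m, W, hk, hW⟩ := closure_base hB hqB hnc hco hq hu hf ha
  let A : Subalgebra ℂ Mf := Algebra.adjoin ℂ {cl q hq}
  have hper : ∀ ω : ℂ, (∀ z, q (z + ω) = q z) → ∀ b ∈ A, tr ω b = b := by
    intro ω hω b hb
    have h1 : A ≤ AlgHom.equalizer (tr ω) (AlgHom.id ℂ Mf) := by
      rw [Algebra.adjoin_le_iff]
      rintro _ rfl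
      change tr ω (cl q hq) = cl q hq
      rw [tr_cl]
      exact cl_eq (Eventually.of_forall hω)
    exact h1 hb
  have h1 : ∀ x : k, ∃ n : ℕ, 0 < n ∧ tr (n * ω₁) (ψ₀ x) = ψ₀ x ∧ tr (n * ω₂) (ψ₀ x) = ψ₀ x := by
    intro x
    obtain ⟨a, ha0, ha1⟩ := per_of_alg (hper ω₁ hqB.2.1) (hk x)
    obtain ⟨b, hb0, hb1⟩ := per_of_alg (hper ω₂ hqB.2.2) (hk x)
    refine ⟨b * a, Nat.mul_pos hb0 ha0, ?_, ?_⟩
    · have h2 := tr_nat ha1 b
      rwa [← mul_assoc, ← Nat.cast_mul] at h2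
    · have h2 := tr_nat hb1 a
      rwa [← mul_assoc, ← Nat.cast_mul, mul_comm a b] at h2
  choose p hp0 hp1 hp2 using h1
  let S : Finset k := Finset.univ.biUnion fun j => (W j).support.image fun d => coeff d (W j)
  let n : ℕ := ∏ x ∈ S, p x
  have hn : 0 < n := Finset.prod_pos fun x _ => hp0 x
  have hSn : ∀ x ∈ S, tr (n * ω₁) (ψ₀ x) = ψ₀ x ∧ tr (n * ω₂) (ψ₀ x) = ψ₀ x := by
    intro x hx
    obtain ⟨c, hc⟩ : p x ∣ n := Finset.dvd_prod_of_mem p hx
    have h2 : (n : ℂ) = c * p x := by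
      rw [hc, Nat.cast_mul, mul_comm]
    constructor
    · rw [h2, mul_assoc]
      exact tr_nat (hp1 x) c
    · rw [h2, mul_assoc]
      exact tr_nat (hp2 x) c
  have h3 : ∀ j, ∃ W' : MvPolynomial (Fin m) (Ell (n * ω₁) (n * ω₂)),
      MvPolynomial.map (ellMf (n * ω₁) (n * ω₂)).toRingHom W' =
        MvPolynomial.map ψ₀.toRingHom (W j) := by
    intro j
    apply exists_lift_poly
    intro d
    rw [coeff_map]
    change tr (n * ω₁) (ψ₀ (coeff d (W j))) = ψ₀ (coeff d (W j)) ∧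
      tr (n * ω₂) (ψ₀ (coeff d (W j))) = ψ₀ (coeff d (W j))
    by_cases hd : d ∈ (W j).support
    · exact hSn _ (Finset.mem_biUnion.2 ⟨j, Finset.mem_univ j, Finset.mem_image_of_mem _ hd⟩)
    · rw [notMem_support_iff.1 hd]
      simp only [map_zero, and_self]
  choose W' hW' using h3
  refine ⟨n, m, W', hn, fun G hG => ?_⟩
  rw [hW G hG]
  have h4 : aeval W G = 0 ↔ MvPolynomial.map (ellMf (n * ω₁) (n * ω₂)).toRingHom
      (aeval W' G) = 0 := by
    have e1 : MvPolynomial.map (ellMf (n * ω₁) (n * ω₂)).toRingHom (aeval W' G) =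
        MvPolynomial.map ψ₀.toRingHom (aeval W G) := by
      have e2 := MvPolynomial.comp_aeval_apply (f := W')
        (MvPolynomial.mapAlgHom (ellMf (n * ω₁) (n * ω₂)) :
          MvPolynomial (Fin m) (Ell (n * ω₁) (n * ω₂)) →ₐ[ℂ] MvPolynomial (Fin m) Mf) G
      have e3 := MvPolynomial.comp_aeval_apply (f := W)
        (MvPolynomial.mapAlgHom ψ₀ : MvPolynomial (Fin m) k →ₐ[ℂ] MvPolynomial (Fin m) Mf) G
      have e4 : (fun j => (MvPolynomial.mapAlgHom (ellMf (n * ω₁) (n * ω₂)) :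
          MvPolynomial (Fin m) (Ell (n * ω₁) (n * ω₂)) →ₐ[ℂ] MvPolynomial (Fin m) Mf) (W' j)) =
          fun j => (MvPolynomial.mapAlgHom ψ₀ :
            MvPolynomial (Fin m) k →ₐ[ℂ] MvPolynomial (Fin m) Mf) (W j) := funext fun j => hW' j
      rw [e4] at e2
      exact e2.trans e3.symm
    rw [e1, map_eq_zero_iff _ (MvPolynomial.map_injective _ ψ₀.toRingHom.injective)]
  rw [h4, map_zero_iff]
  refine eventually_congr (Eventually.of_forall fun z => ?_)
  have e2 := MvPolynomial.comp_aeval_apply (f := W')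
    (MvPolynomial.mapAlgHom (atPt (Ell (n * ω₁) (n * ω₂)) z) :
      MvPolynomial (Fin m) (Ell (n * ω₁) (n * ω₂)) →ₐ[ℂ] MvPolynomial (Fin m) ℂ) G
  have e3 : MvPolynomial.map (atPt (Ell (n * ω₁) (n * ω₂)) z).toRingHom (aeval W' G) =
      aeval (fun j => MvPolynomial.map (atPt (Ell (n * ω₁) (n * ω₂)) z).toRingHom (W' j)) G := e2
  rw [e3]

end Pool.Agent.X316.ZU
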