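import Pool.Agent.X316.ZU.Int
import Pool.Agent.X316.ZU.Acv

/-!
Tuples of meromorphic functions which are integral over the ring generated by the derivatives of a
jointly universal family: their closures are dominated by affine spaces.
-/

set_option autoImplicit false

open Filter Topology Set MvPolynomial

namespace Pool.Agent.X316.ZU

open Pool.Agent.X316.ZG
open Pool.Agent.TH143.EL (mero_id mero_ne codis_ev freq_of_ev)
open Pool.Agent.X316.ZU.OK (RK)
open Pool.Agent.Y377.IL (algI mem_algI)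

variable {ι : Type}

theorem dring_le (u : ι → ℂ → ℂ) : dring u ≤ merS := fun _ hb => hb.1

/-- the classes of the functions in the ring -/
noncomputable def dm (u : ι → ℂ → ℂ) : dring u →ₐ[ℂ] Mf :=
  (Ideal.Quotient.mkₐ ℂ nullI).comp (Subalgebra.inclusion (dring_le u))

theorem dm_mem {u : ι → ℂ → ℂ} (hu : ∀ j, Meromorphic (u j)) (b : dring u) :
    ∃ T : Finset (ι × ℕ), dm u b ∈
      (Algebra.adjoin ℂ (xc hu '' (T : Set (ι × ℕ))) : Subalgebra ℂ Mf) := by
  classical
  obtain ⟨hbm, P, hP⟩ := b.2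
  refine ⟨P.vars, ?_⟩
  have h0 : dm u b = cl (b : ℂ → ℂ) hbm := rfl
  have h1 : cl (b : ℂ → ℂ) hbm = aeval (xc hu) P := by
    have h1 : aeval (xc hu) P = Ideal.Quotient.mk nullI _ := aeval_cl _ _ P
    rw [h1]
    refine cl_eq ?_
    filter_upwards [hP] with z hz
    rw [hz]
    exact (val_aeval _ _ P z).symm
  rw [h0, h1]
  exact aeval_mem _ _ _ fun v hv => hv

theorem adjoin_mono_xc {u : ι → ℂ → ℂ} (hu : ∀ j, Meromorphic (u j)) {T T' : Finset (ι × ℕ)}
    (h : T ⊆ T') : (Algebra.adjoin ℂ (xc hu '' (T : Set (ι × ℕ))) : Subalgebra ℂ Mf) ≤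
      Algebra.adjoin ℂ (xc hu '' (T' : Set (ι × ℕ))) := by
  apply Algebra.adjoin_mono
  apply Set.image_mono
  exact Finset.coe_subset.2 h

theorem int_cl {u : ι → ℂ → ℂ} (hu : ∀ j, Meromorphic (u j)) {a : ℂ → ℂ} (ha : Meromorphic a)
    (hi : IsIntegral (dring u) a) : ∃ T : Finset (ι × ℕ),
      IsIntegral (Algebra.adjoin ℂ (xc hu '' (T : Set (ι × ℕ))) : Subalgebra ℂ Mf) (cl a ha) := by
  classical
  obtain ⟨Q, hQm, hQ⟩ := hi
  choose T hT using dm_mem hu
  let T' : Finset (ι × ℕ) := (Finset.range (Q.natDegree + 1)).biUnion fun k => T (Q.coeff k)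
  refine ⟨T', ?_⟩
  have h0 : (Q.eval₂ (Subalgebra.inclusion (dring_le u)).toRingHom (⟨a, ha⟩ : merS)) = 0 := by
    apply Subtype.ext
    have h1 : ((Q.eval₂ (Subalgebra.inclusion (dring_le u)).toRingHom (⟨a, ha⟩ : merS) : merS) :
        ℂ → ℂ) = Q.eval₂ (merS.val.toRingHom.comp
          (Subalgebra.inclusion (dring_le u)).toRingHom) a :=
      Polynomial.hom_eval₂ Q (Subalgebra.inclusion (dring_le u)).toRingHom merS.val.toRingHom
        (⟨a, ha⟩ : merS)
    rw [h1]
    exact hQ
  have h1 : (Q.map (dm u).toRingHom).eval (cl a ha) = 0 := by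
    rw [Polynomial.eval_map]
    have h2 := congrArg (Ideal.Quotient.mk nullI) h0
    rw [map_zero, Polynomial.hom_eval₂] at h2
    exact h2
  have h2 : Q.map (dm u).toRingHom ∈ Polynomial.lifts
      (algebraMap (Algebra.adjoin ℂ (xc hu '' (T' : Set (ι × ℕ))) : Subalgebra ℂ Mf) Mf) := by
    rw [Polynomial.lifts_iff_coeff_lifts]
    intro n
    rw [Polynomial.coeff_map]
    by_cases hn : n ≤ Q.natDegree
    · have h3 := hT (Q.coeff n)
      have h4 : T (Q.coeff n) ⊆ T' := Finset.subset_biUnion_of_mem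
        (fun k => T (Q.coeff k)) (Finset.mem_range.2 (by omega))
      exact ⟨⟨_, adjoin_mono_xc hu h4 h3⟩, rfl⟩
    · rw [Polynomial.coeff_eq_zero_of_natDegree_lt (by omega)]
      exact ⟨0, by rw [map_zero]; exact (map_zero _).symm⟩
  obtain ⟨Q', hQ', -, hQm'⟩ := Polynomial.lifts_and_natDegree_eq_and_monic h2 (hQm.map _)
  refine ⟨Q', hQm', ?_⟩
  rw [← Polynomial.eval_map, hQ']
  exact h1

theorem int_mono {S S' : Subalgebra ℂ Mf} (h : S ≤ S') {y : Mf} (hy : IsIntegral S y) :
    IsIntegral S' y := by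
  obtain ⟨Q, hQm, hQ⟩ := hy
  refine ⟨Q.map (Subalgebra.inclusion h).toRingHom, hQm.map _, ?_⟩
  rw [Polynomial.eval₂_map]
  exact hQ

/-- **The closure of an integral tuple** is dominated by an affine space. -/
theorem closure_int {u : ι → ℂ → ℂ} (hu : JointlyUniversal u) {τ : Type} [Finite τ]
    (f : τ → ℂ → ℂ) (hf : ∀ j, Meromorphic (f j)) (hi : ∀ j, IsIntegral (dring u) (f j)) :
    ∃ (m : ℕ) (W : τ → MvPolynomial (Fin m) ℂ), ∀ P : MvPolynomial τ ℂ,
      (∀ᶠ z in codiscrete ℂ, eval (fun j => f j z) P = 0) ↔ aeval W P = 0 := by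
  classical
  have := Fintype.ofFinite τ
  let Y : τ → Mf := fun j => cl (f j) (hf j)
  let E : IntermediateField ℂ Mf := IntermediateField.adjoin ℂ (Set.range Y)
  let y : τ → E := fun j => ⟨Y j, IntermediateField.subset_adjoin _ _ ⟨j, rfl⟩⟩
  have htop : IntermediateField.adjoin ℂ (Set.range y) = (⊤ : IntermediateField ℂ E) := by
    have h2 : (IntermediateField.adjoin ℂ (Set.range y)).map E.val =
        (⊤ : IntermediateField ℂ E).map E.val := by
      rw [IntermediateField.adjoin_map, ← AlgHom.fieldRange_eq_map,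
        IntermediateField.fieldRange_val, ← Set.range_comp]
      rfl
    exact IntermediateField.map_injective E.val h2
  choose Te hTe using fun j => int_cl hu.mero (hf j) (hi j)
  let T : Finset (ι × ℕ) := Finset.univ.biUnion Te
  have hTi : ∀ j, IsIntegral (Algebra.adjoin ℂ (xc hu.mero '' (T : Set (ι × ℕ))) :
      Subalgebra ℂ Mf) (Y j) := fun j => int_mono (adjoin_mono_xc hu.mero
        (Finset.subset_biUnion_of_mem Te (Finset.mem_univ j))) (hTe j)
  have hall : ∀ e : E,
      IsAlgebraic (Algebra.adjoin ℂ (xc hu.mero '' (T : Set (ι × ℕ))) : Subalgebra ℂ Mf)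
        (E.val e) := by
    intro e
    have h4 : (⊤ : IntermediateField ℂ E) ≤ (algI (Algebra.adjoin ℂ (xc hu.mero ''
        (T : Set (ι × ℕ))) : Subalgebra ℂ Mf)).comap E.val := by
      rw [← htop, IntermediateField.adjoin_le_iff]
      rintro _ ⟨j, rfl⟩
      change E.val (y j) ∈ algI _
      rw [mem_algI]
      exact (hTi j).isAlgebraic
    exact h4 (IntermediateField.mem_top (x := e))
  have hfg : (⊤ : IntermediateField ℂ E).FG := by
    rw [← htop]
    exact IntermediateField.fg_adjoin_of_finite (Set.finite_range y)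
  obtain ⟨m, φ, hφ⟩ := fields_int hu T.card T rfl E E.val hfg hall (Finset.univ.image y) (by
    intro g hg
    obtain ⟨j, -, rfl⟩ := Finset.mem_image.1 hg
    exact hTi j)
  choose W hW using fun j => hφ (y j) (Finset.mem_image_of_mem y (Finset.mem_univ j))
  refine ⟨m, W, fun P => ?_⟩
  rw [← aeval_cl_zero f hf P]
  have e5 : ((aeval y P : E) : Mf) = aeval Y P := MvPolynomial.comp_aeval_apply (f := y) E.val P
  have e6 : φ (aeval y P) = algebraMap (MvPolynomial (Fin m) ℂ) (RK ℂ m) (aeval W P) := by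
    have h1 := MvPolynomial.comp_aeval_apply (f := y) φ P
    have h2 := MvPolynomial.comp_aeval_apply (f := W)
      (IsScalarTower.toAlgHom ℂ (MvPolynomial (Fin m) ℂ) (RK ℂ m)) P
    have h3 : (fun j => φ (y j)) = fun j =>
        (IsScalarTower.toAlgHom ℂ (MvPolynomial (Fin m) ℂ) (RK ℂ m)) (W j) :=
      funext fun j => hW j
    rw [h1, h3]
    exact h2.symm
  have hinj : Function.Injective (algebraMap (MvPolynomial (Fin m) ℂ) (RK ℂ m)) :=
    IsFractionRing.injective _ _
  change aeval Y P = 0 ↔ _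
  rw [← e5]
  constructor
  · intro h
    have h1 : aeval y P = 0 := Subtype.ext h
    rw [h1, map_zero] at e6
    exact (map_eq_zero_iff _ hinj).1 e6.symm
  · intro h
    rw [h, map_zero, map_eq_zero] at e6
    rw [e6]
    rfl

end Pool.Agent.X316.ZU
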