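import Mathlib

/-!
Embeddings of countable extensions in the complex numbers.
-/

set_option autoImplicit false

open Cardinal

namespace Pool.Agent.X316.ZU

theorem countable_adjoin {k M : Type} [Field k] [Field M] [Algebra k M] [Countable k]
    (h : ∃ S : Set M, S.Finite ∧ IntermediateField.adjoin k S = ⊤) : Countable M := by
  obtain ⟨S, hS, hSt⟩ := h
  have h1 := IntermediateField.cardinalMk_adjoin_le k S
  have h2 : #(IntermediateField.adjoin k S) ≤ ℵ₀ := by
    refine h1.trans ?_
    refine max_le (max_le (Cardinal.mk_le_aleph0) ?_) le_rfl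
    exact (Cardinal.lt_aleph0_iff_set_finite.2 hS).le
  rw [hSt] at h2
  have h3 : Countable (⊤ : IntermediateField k M) := Cardinal.mk_le_aleph0_iff.1 h2
  exact Function.Injective.countable
    (f := fun x : M => (⟨x, IntermediateField.mem_top⟩ : (⊤ : IntermediateField k M)))
    fun a b h => congrArg Subtype.val h

theorem countable_ratFunc {M : Type} [Field M] [Countable M] : Countable (RatFunc M) := by
  have h1 : Countable (Polynomial M) := by
    rw [← Cardinal.mk_le_aleph0_iff]
    refine (Polynomial.cardinalMk_le_max).trans (max_le Cardinal.mk_le_aleph0 le_rfl)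
  refine Function.Injective.countable (f := fun x : RatFunc M => (x.num, x.denom)) ?_
  intro a b h
  rw [← RatFunc.num_div_denom a, ← RatFunc.num_div_denom b]
  have h2 := congrArg Prod.fst h
  have h3 := congrArg Prod.snd h
  dsimp only at h2 h3
  rw [h2, h3]

/-- **Embeddings of countable extensions.** -/
theorem ext_embed {F L : Type} [Field F] [Field L] [Algebra F L] [Countable L] [Algebra F ℂ] :
    Nonempty (L →ₐ[F] ℂ) := by
  classical
  obtain ⟨s, hs⟩ := exists_isTranscendenceBasis F L
  obtain ⟨t, ht⟩ := exists_isTranscendenceBasis F ℂ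
  have hF : #F ≤ ℵ₀ := by
    rw [Cardinal.mk_le_aleph0_iff]
    exact (algebraMap F L).injective.countable
  have hC : ℵ₀ < #ℂ := by
    rw [Cardinal.mk_complex]
    exact Cardinal.aleph0_lt_continuum
  have h1 : #ℂ = #t :=
    IsAlgClosed.cardinal_eq_cardinal_transcendence_basis_of_aleph0_lt' _ ht hF hC
  have h2 : #s ≤ #t := by
    rw [← h1]
    exact Cardinal.mk_le_aleph0.trans hC.le
  obtain ⟨e⟩ := Cardinal.le_def _ _ |>.1 h2
  have hx' : AlgebraicIndependent F (fun a : s => ((e a : t) : ℂ)) := ht.1.comp e e.injective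
  let E := IntermediateField.adjoin F (Set.range (Subtype.val : s → L))
  let φ : E →ₐ[F] ℂ := (IntermediateField.val _).comp
    ((hs.1.aevalEquivField.symm.trans hx'.aevalEquivField : E ≃ₐ[F] _).toAlgHom)
  let _ : Algebra E ℂ := φ.toRingHom.toAlgebra
  have hst : IsScalarTower F E ℂ := IsScalarTower.of_algebraMap_eq fun x => (φ.commutes x).symm
  have halg : Algebra.IsAlgebraic E L := hs.isAlgebraic_field
  exact ⟨(IsAlgClosed.lift : L →ₐ[E] ℂ).restrictScalars F⟩

end Pool.Agent.X316.ZU
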