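import Pool.Agent.X316.ZU.Lin1
import Pool.Agent.X316.ZU.Emb2
import Pool.Agent.X316.ZU.CurI

/-!
Affine varieties covered by affine lines, and curves which are integral over the derivatives of a
universal function.
-/

set_option autoImplicit false

open Filter Topology Set MvPolynomial

namespace Pool.Agent.X316.ZU

open Pool.Agent.X316.ZG
open Pool.Agent.TH143.EL (mero_an codis_ev)
open Pool.Agent.W602.GT (IsForm coords exists_embedding)
open Pool.Agent.Y216.SV (AffineFamily)

variable {ι : Type}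

/-- The meromorphic functions on the plane which are integral over the ring of the polynomials in the
functions `u j` and their derivatives. -/
def intS (u : ι → ℂ → ℂ) : Set (ℂ → ℂ) := {a | Meromorphic a ∧ IsIntegral (dring u) a}

variable {k : Type} [Field k] [Algebra k ℂ] {N : ℕ} {K : Type} [Field K] [Algebra k K]

/-- `x` is a complex point of the affine variety with the generic point `y` over `k`, in affine
coordinates (`x 0 = 1`), which is in no proper closed subvariety defined over `k`. -/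
def GenericPoint (k : Type) [Field k] [Algebra k ℂ] [Algebra k K] (y : Fin (N + 1) → K)
    (x : Fin (N + 1) → ℂ) : Prop :=
  x 0 = 1 ∧ ∀ G : MvPolynomial (Fin (N + 1)) k, IsForm G → (W602.GT.val y G = 0 ↔ aeval x G = 0)

/-- A meromorphic curve in the affine variety with the generic point `y` over `k`, which is not
constant, with coordinates in `S`. -/
structure CurveIn (k : Type) [Field k] [Algebra k ℂ] [Algebra k K] (S : Set (ℂ → ℂ))
    (y : Fin (N + 1) → K) (f : Fin (N + 1) → ℂ → ℂ) : Prop where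
  one : ∀ z, f 0 z = 1
  mem : ∀ j, f j ∈ S
  rel : ∀ G : MvPolynomial (Fin (N + 1)) k, IsForm G → W602.GT.val y G = 0 →
    ∀ᶠ z in codiscrete ℂ, aeval (fun j => f j z) G = 0
  nonconst : ∃ j, ∀ c : ℂ, ¬ ∀ᶠ z in codiscrete ℂ, f j z = c

/-- The curve is in no proper closed subvariety defined over `k`. -/
def DenseOverk (k : Type) [Field k] [Algebra k ℂ] [Algebra k K]
    (y : Fin (N + 1) → K) (f : Fin (N + 1) → ℂ → ℂ) : Prop :=
  ∀ G : MvPolynomial (Fin (N + 1)) k, IsForm G →
    (∀ᶠ z in codiscrete ℂ, aeval (fun j => f j z) G = 0) → W602.GT.val y G = 0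

/-- The curve goes through the point `x`. -/
def Through (f : Fin (N + 1) → ℂ → ℂ) (x : Fin (N + 1) → ℂ) : Prop :=
  ∃ z, (∀ j, AnalyticAt ℂ (f j) z) ∧ ∀ j, f j z = x j

theorem aeval_base {σ : Type} (G : MvPolynomial σ k) (a : σ → ℂ) :
    eval a (map (algebraMap k ℂ) G) = aeval a G := by
  rw [← aeval_eq_eval, aeval_map_algebraMap]

theorem dring_mem {u : ι → ℂ → ℂ} {a : ℂ → ℂ} (ha : a ∈ dring u) : a ∈ intS u :=
  ⟨ha.1, isIntegral_algebraMap (R := dring u) (x := (⟨a, ha⟩ : dring u))⟩

/-- curves which are dense over the base field -/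
theorem affine_of_curve {u : ι → ℂ → ℂ} (hu : JointlyUniversal u) {y : Fin (N + 1) → K}
    {f : Fin (N + 1) → ℂ → ℂ} (hf : CurveIn k (intS u) y f) (hd : DenseOverk k y f) :
    ∃ d : ℕ, AffineFamily {0} (k := k) y d := by
  obtain ⟨m, W, hW⟩ := closure_int hu f (fun j => (hf.mem j).1) (fun j => (hf.mem j).2)
  refine affine_of_param (m := m) (W := W) ?_ ?_ ?_
  · have h1 := (hW (X 0 - 1)).1 (Eventually.of_forall fun z => by
      rw [map_sub, eval_X, map_one, hf.one, sub_self])
    rw [map_sub, aeval_X, map_one] at h1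
    exact sub_eq_zero.1 h1
  · obtain ⟨j, hj⟩ := hf.nonconst
    refine ⟨j, fun c hc => hj c ?_⟩
    have h1 := (hW (X j - C c)).2 (by
      rw [map_sub, aeval_X, aeval_C, hc]
      exact sub_self _)
    filter_upwards [h1] with z hz
    rw [map_sub, eval_X, eval_C] at hz
    exact sub_eq_zero.1 hz
  · intro G hG
    have h1 := hW (map (algebraMap k ℂ) G)
    rw [aeval_map_algebraMap] at h1
    simp only [aeval_base] at h1
    rw [← h1]
    exact ⟨fun h => hf.rel G hG h, fun h => hd G hG h⟩

/-- a curve through a generic point is dense over the base field -/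
theorem dense_of_through {y : Fin (N + 1) → K} {f : Fin (N + 1) → ℂ → ℂ} {x : Fin (N + 1) → ℂ}
    (hx : GenericPoint k y x) (h : Through f x) : DenseOverk k y f := by
  intro G hG h0
  obtain ⟨z, hz, hzx⟩ := h
  rw [hx.2 G hG]
  have h1 : Tendsto (fun s => aeval (fun j => f j s) G) (𝓝 z) (𝓝 (aeval (fun j => f j z) G)) := by
    have h2 : ContinuousAt (fun s => eval (fun j => f j s) (map (algebraMap k ℂ) G)) z := by
      have h3 : ContinuousAt (fun s => (fun j => f j s : Fin (N + 1) → ℂ)) z :=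
        continuousAt_pi.2 fun j => (hz j).continuousAt
      exact (MvPolynomial.continuous_eval (map (algebraMap k ℂ) G)).continuousAt.comp h3
    have h4 : (fun s => eval (fun j => f j s) (map (algebraMap k ℂ) G)) =
        fun s => aeval (fun j => f j s) G := funext fun s => aeval_base G _
    rw [h4] at h2
    exact h2
  have h2 : Tendsto (fun s => aeval (fun j => f j s) G) (𝓝[≠] z) (𝓝 0) := by
    refine (tendsto_const_nhds (x := (0 : ℂ))).congr' ?_
    filter_upwards [codis_ev h0 z] with s hs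
    exact hs.symm
  have h3 := tendsto_nhds_unique (h1.mono_left nhdsWithin_le_nhds) h2
  have h4 : (fun j => f j z) = x := funext hzx
  rw [h4] at h3
  exact h3

/-- generic points exist -/
theorem exists_generic_point [Countable k] {y : Fin (N + 1) → K} (h0 : y 0 ≠ 0)
    (hgen : coords k y = ⊤) : ∃ x, GenericPoint k y x := by
  have hK : Countable K := by
    refine countable_adjoin ⟨_, ?_, hgen⟩
    refine (Set.finite_range fun p : Fin (N + 1) × Fin (N + 1) => y p.1 / y p.2).subset ?_
    rintro _ ⟨i, j, -, rfl⟩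
    exact ⟨(i, j), rfl⟩
  obtain ⟨ψ⟩ := ext_embed (F := k) (L := K)
  refine ⟨fun j => ψ (y j / y 0), ?_, ?_⟩
  · change ψ (y 0 / y 0) = 1
    rw [div_self h0, map_one]
  · rintro G ⟨e, he⟩
    rw [Pool.Agent.TH143.GT.val_scale h0 he, mul_eq_zero, or_iff_right (pow_ne_zero _ h0)]
    have h1 := MvPolynomial.comp_aeval_apply (f := fun j => y j / y 0) ψ G
    constructor
    · intro h
      rw [← h1, h, map_zero]
    · intro h
      have h2 : ψ (aeval (fun j => y j / y 0) G) = 0 := h1.trans h
      rwa [map_eq_zero] at h2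

/-- **Curves from affine lines.** -/
theorem curve_of_affine [Countable k] {u : ι → ℂ → ℂ} (hu : JointlyUniversal u) (j0 : ι)
    {y : Fin (N + 1) → K} (h0 : y 0 ≠ 0) (hgen : coords k y = ⊤) {d : ℕ}
    (hA : AffineFamily {0} (k := k) y d) {x : Fin (N + 1) → ℂ} (hx : GenericPoint k y x) :
    ∃ f, CurveIn k (dring u : Set (ℂ → ℂ)) y f ∧ Through f x := by
  classical
  obtain ⟨M, _, _, g, hM, -, -, ⟨j1, hj1⟩, hgU, hrel⟩ := hA
  obtain ⟨c, hc0, hgc⟩ := hgU 0 (Set.mem_singleton 0)
  have hMc : Countable M := countable_adjoin hM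
  have hRc : Countable (RatFunc M) := countable_ratFunc
  let Y : Fin (N + 1) → RatFunc M := fun j => algebraMap (Polynomial M) (RatFunc M) (g j)
  have hinj := RatFunc.algebraMap_injective M
  have hY0 : Y 0 = RatFunc.C c := by
    change algebraMap (Polynomial M) (RatFunc M) (g 0) = _
    rw [hgc, RatFunc.algebraMap_C]
  have hCc : (RatFunc.C c : RatFunc M) ≠ 0 := by
    rw [Ne, map_eq_zero]
    exact hc0
  have hY0' : Y 0 ≠ 0 := by
    rw [hY0]
    exact hCc
  have hYrel : ∀ G : MvPolynomial (Fin (N + 1)) k, IsForm G →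
      (W602.GT.val y G = 0 ↔ W602.GT.val Y G = 0) := by
    intro G hG
    rw [hrel G hG]
    have h1 := MvPolynomial.comp_aeval_apply (f := g)
      (IsScalarTower.toAlgHom k (Polynomial M) (RatFunc M)) G
    have h2 : W602.GT.val Y G = algebraMap (Polynomial M) (RatFunc M) (aeval g G) := h1.symm
    rw [h2, map_eq_zero_iff _ hinj]
  have hx0 : x 0 ≠ 0 := by
    rw [hx.1]
    exact one_ne_zero
  obtain ⟨φ1, hφ1⟩ := exists_embedding (k := k) (y := y) (y' := Y) (i0 := 0) h0 hY0' hgen hYrel
  obtain ⟨φ2, hφ2⟩ := exists_embedding (k := k) (y := y) (y' := x) (i0 := 0) h0 hx0 hgen hx.2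
  obtain ⟨τ, hτ⟩ : ∃ τ : RatFunc M →+* ℂ, ∀ a, τ (φ1 a) = φ2 a := by
    obtain ⟨τ⟩ := @ext_embed K (RatFunc M) _ _ φ1.toRingHom.toAlgebra hRc φ2.toRingHom.toAlgebra
    exact ⟨@AlgHom.toRingHom K (RatFunc M) ℂ _ _ _ φ1.toRingHom.toAlgebra
      φ2.toRingHom.toAlgebra τ, fun a => @AlgHom.commutes K (RatFunc M) ℂ _ _ _
        φ1.toRingHom.toAlgebra φ2.toRingHom.toAlgebra τ a⟩
  let b : M →+* ℂ := τ.comp (RatFunc.C : M →+* RatFunc M)
  let t0 : ℂ := τ RatFunc.X
  have hb : ∀ P : Polynomial M, τ (algebraMap (Polynomial M) (RatFunc M) P) = P.eval₂ b t0 := by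
    intro P
    have h1 : (τ.comp (algebraMap (Polynomial M) (RatFunc M))) = Polynomial.eval₂RingHom b t0 := by
      refine Polynomial.ringHom_ext (fun a => ?_) ?_
      · rw [RingHom.comp_apply, RatFunc.algebraMap_C, Polynomial.coe_eval₂RingHom,
          Polynomial.eval₂_C]
        rfl
      · rw [RingHom.comp_apply, RatFunc.algebraMap_X, Polynomial.coe_eval₂RingHom,
          Polynomial.eval₂_X]
    exact RingHom.congr_fun h1 P
  have hbc : b c ≠ 0 := by
    rw [Ne, map_eq_zero]
    exact hc0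
  have hbk : ∀ r : k, b (algebraMap k M r) = algebraMap k ℂ r := by
    intro r
    have h1 := hτ (algebraMap k K r)
    rw [φ1.commutes, φ2.commutes] at h1
    rw [← h1]
    change τ (RatFunc.C (algebraMap k M r)) = τ (algebraMap k (RatFunc M) r)
    rw [IsScalarTower.algebraMap_apply k M (RatFunc M)]
    rfl
  let G' : Fin (N + 1) → Polynomial ℂ := fun j => Polynomial.C (b c)⁻¹ * (g j).map b
  have hG' : ∀ j s, (G' j).eval s = (b c)⁻¹ * (g j).eval₂ b s := by
    intro j s
    change (Polynomial.C (b c)⁻¹ * (g j).map b).eval s = _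
    rw [Polynomial.eval_mul, Polynomial.eval_C, Polynomial.eval_map]
  have hGx : ∀ j, (G' j).eval t0 = x j := by
    intro j
    have h1 := hτ (y j / y 0)
    rw [hφ1, hφ2, hx.1, div_one, map_div₀, hY0] at h1
    rw [hG', ← hb, ← h1]
    change _ = τ (Y j) / b c
    rw [div_eq_mul_inv, mul_comm]
  obtain ⟨z0, hz0⟩ := (mero_an (hu.mero j0)).exists
  let v : ℂ → ℂ := fun z => t0 + (u j0 z - u j0 z0)
  let f : Fin (N + 1) → ℂ → ℂ := fun j z => (G' j).eval (v z)
  have humem : u j0 ∈ dring u := by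
    refine ⟨hu.mero j0, X (j0, 0), Eventually.of_forall fun z => ?_⟩
    rw [eval_X, iteratedDeriv_zero]
  have hvmem : v ∈ dring u := by
    have h1 : v = u j0 + algebraMap ℂ (ℂ → ℂ) (t0 - u j0 z0) := by
      funext z
      change t0 + (u j0 z - u j0 z0) = u j0 z + (t0 - u j0 z0)
      ring
    rw [h1]
    exact add_mem humem ((dring u).algebraMap_mem _)
  have hpol : ∀ P : Polynomial ℂ, (fun z => P.eval (v z)) = Polynomial.aeval v P := by
    intro P
    funext z
    have h1 := Polynomial.aeval_algHom_apply (Pi.evalAlgHom ℂ (fun _ : ℂ => ℂ) z) v P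
    have h2 : (Pi.evalAlgHom ℂ (fun _ : ℂ => ℂ) z) v = v z := rfl
    rw [h2] at h1
    change _ = (Pi.evalAlgHom ℂ (fun _ : ℂ => ℂ) z) (Polynomial.aeval v P)
    rw [← h1, Polynomial.coe_aeval_eq_eval]
  have hfmem : ∀ j, f j ∈ dring u := by
    intro j
    change (fun z => (G' j).eval (v z)) ∈ dring u
    rw [hpol]
    have h1 := Polynomial.aeval_algHom_apply (dring u).val ⟨v, hvmem⟩ (G' j)
    have h2 : (dring u).val ⟨v, hvmem⟩ = v := rfl
    rw [h2] at h1
    rw [h1]
    exact Subtype.property _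
  refine ⟨f, ⟨?_, hfmem, ?_, j1, ?_⟩, z0, ?_, ?_⟩
  · intro z
    change (G' 0).eval (v z) = 1
    rw [hG', hgc, Polynomial.eval₂_C, inv_mul_cancel₀ hbc]
  · rintro G ⟨e, he⟩ hG
    refine Eventually.of_forall fun z => ?_
    have h1 : aeval g G = 0 := (hrel G ⟨e, he⟩).1 hG
    have h2 := hom_aeval (k := k) (Polynomial.eval₂RingHom b (v z)) (fun r => by
      change (Polynomial.C (algebraMap k M r)).eval₂ b (v z) = _
      rw [Polynomial.eval₂_C, hbk]) g G
    rw [h1, map_zero] at h2
    have h3 := W602.GT.val_smul (k := k) he (b c)⁻¹ (fun j => (g j).eval₂ b (v z))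
    unfold W602.GT.val at h3
    have h4 : (fun j => f j z) = fun j => (b c)⁻¹ * (g j).eval₂ b (v z) :=
      funext fun j => hG' j (v z)
    rw [h4, h3]
    have h5 : aeval (fun j => (g j).eval₂ b (v z)) G = 0 := h2.symm
    rw [h5, mul_zero]
  · intro c' hc'
    -- the polynomial
    let P : Polynomial ℂ := (G' j1).comp (Polynomial.X + Polynomial.C (t0 - u j0 z0)) -
      Polynomial.C c'
    have hPe : ∀ z, P.eval (u j0 z) = f j1 z - c' := by
      intro z
      simp only [P, Polynomial.eval_sub, Polynomial.eval_comp, Polynomial.eval_add,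
        Polynomial.eval_X, Polynomial.eval_C]
      change (G' j1).eval (u j0 z + (t0 - u j0 z0)) - c' = (G' j1).eval (v z) - c'
      congr 2
      change u j0 z + (t0 - u j0 z0) = t0 + (u j0 z - u j0 z0)
      ring
    have hP0 : P ≠ 0 := by
      intro h1
      have h2 : (G' j1).natDegree = 0 := by
        have h3 : (G' j1).comp (Polynomial.X + Polynomial.C (t0 - u j0 z0)) = Polynomial.C c' :=
          sub_eq_zero.1 h1
        have h4 := congrArg Polynomial.natDegree h3
        rw [Polynomial.natDegree_comp, Polynomial.natDegree_X_add_C, mul_one,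
          Polynomial.natDegree_C] at h4
        exact h4
      have h3 : (G' j1).natDegree = (g j1).natDegree := by
        change (Polynomial.C (b c)⁻¹ * (g j1).map b).natDegree = _
        rw [Polynomial.natDegree_C_mul (inv_ne_zero hbc),
          Polynomial.natDegree_map_eq_of_injective b.injective]
      omega
    have h1 : (Polynomial.aeval (X (j0, 0) : MvPolynomial (ι × ℕ) ℂ) P) = 0 := by
      apply jets_indep hu
      filter_upwards [hc'] with z hz
      have h2 := Polynomial.aeval_algHom_apply (aeval (jet u z) : MvPolynomial (ι × ℕ) ℂ →ₐ[ℂ] ℂ)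
        (X (j0, 0)) P
      rw [aeval_X] at h2
      rw [← aeval_eq_eval]
      change aeval (jet u z) (Polynomial.aeval (X (j0, 0)) P) = 0
      rw [← h2, Polynomial.coe_aeval_eq_eval]
      have h3 : jet u z (j0, 0) = u j0 z := by
        unfold jet
        rw [iteratedDeriv_zero]
      rw [h3, hPe, hz, sub_self]
    exact transcendental_X ℂ (j0, 0) ⟨P, hP0, h1⟩
  · intro j
    have hv : AnalyticAt ℂ v z0 := analyticAt_const.add (hz0.sub analyticAt_const)
    change AnalyticAt ℂ (fun z => (G' j).eval (v z)) z0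
    have h1 := hv.aeval_polynomial (G' j)
    simp only [Polynomial.coe_aeval_eq_eval] at h1
    exact h1
  · intro j
    change (G' j).eval (v z0) = x j
    have h1 : v z0 = t0 := by
      change t0 + (u j0 z0 - u j0 z0) = t0
      rw [sub_self, add_zero]
    rw [h1, hGx]

/-- **A¹-uniruledness in terms of curves.** -/
theorem lines_tfae [Countable k] {y : Fin (N + 1) → K} (h0 : y 0 ≠ 0) (hgen : coords k y = ⊤) :
    List.TFAE [∃ d : ℕ, AffineFamily {0} (k := k) y d,
      ∃ f, CurveIn k (intS (fun _ : Unit => riemannZeta)) y f ∧ DenseOverk k y f,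
      ∃ f x, CurveIn k (intS (fun _ : Unit => riemannZeta)) y f ∧ GenericPoint k y x ∧ Through f x,
      ∀ x, GenericPoint k y x → ∃ f,
        CurveIn k (dring (fun _ : Unit => riemannZeta) : Set (ℂ → ℂ)) y f ∧ Through f x,
      ∃ (ι : Type) (u : ι → ℂ → ℂ) (f : Fin (N + 1) → ℂ → ℂ), JointlyUniversal u ∧
        CurveIn k (intS u) y f ∧ DenseOverk k y f,
      ∀ (ι : Type) (u : ι → ℂ → ℂ), Nonempty ι → JointlyUniversal u → ∀ x, GenericPoint k y x →
        ∃ f, CurveIn k (dring u : Set (ℂ → ℂ)) y f ∧ Through f x] := by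
  tfae_have 1 → 6 := by
    rintro ⟨d, hA⟩ ι u ⟨j0⟩ hu x hx
    exact curve_of_affine hu j0 h0 hgen hA hx
  tfae_have 6 → 4 := fun h x hx => h Unit _ ⟨()⟩ Pool.Agent.X316.ZG.zeta_universal x hx
  tfae_have 4 → 3 := by
    intro h
    obtain ⟨x, hx⟩ := exists_generic_point (k := k) h0 hgen
    obtain ⟨f, hf, hfx⟩ := h x hx
    exact ⟨f, x, ⟨hf.one, fun j => dring_mem (hf.mem j), hf.rel, hf.nonconst⟩, hx, hfx⟩
  tfae_have 3 → 2 := by
    rintro ⟨f, x, hf, hx, hfx⟩
    exact ⟨f, hf, dense_of_through hx hfx⟩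
  tfae_have 2 → 5 := by
    rintro ⟨f, hf, hd⟩
    exact ⟨Unit, _, f, Pool.Agent.X316.ZG.zeta_universal, hf, hd⟩
  tfae_have 5 → 1 := by
    rintro ⟨ι, u, f, hu, hf, hd⟩
    exact affine_of_curve hu hf hd
  tfae_finish

end Pool.Agent.X316.ZU
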