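import Pool.Agent.X316.ZG.Cur

/-!
The derivatives of a jointly universal family are algebraically independent over the constants.
-/

set_option autoImplicit false

open Filter Topology Set MvPolynomial

namespace Pool.Agent.X316.ZU

open Pool.Agent.X316.ZG

variable {ι : Type}

/-- the derivatives of the functions of the family -/
noncomputable def jet (u : ι → ℂ → ℂ) (z : ℂ) (v : ι × ℕ) : ℂ := iteratedDeriv v.2 (u v.1) z

/-- **Independence.** A polynomial which vanishes along the derivatives is zero. -/
theorem jets_indep {u : ι → ℂ → ℂ} (hu : JointlyUniversal u) {P : MvPolynomial (ι × ℕ) ℂ}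
    (h : ∀ᶠ z in codiscrete ℂ, eval (jet u z) P = 0) : P = 0 := by
  classical
  have key : ∀ (n : ℕ) (T : Finset (ι × ℕ)), T.card = n → ∀ Q : MvPolynomial T ℂ,
      (∀ᶠ z in codiscrete ℂ, eval (fun v : T => jet u z v) Q = 0) → Q = 0 := by
    intro n
    induction n with
    | zero =>
      intro T hT Q hQ
      rw [Finset.card_eq_zero] at hT
      subst hT
      obtain ⟨c, rfl⟩ := MvPolynomial.C_surjective (↥(∅ : Finset (ι × ℕ))) Q
      obtain ⟨z, hz⟩ := hQ.exists
      rw [eval_C] at hz
      rw [hz, C_0]
    | succ n ih =>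
      intro T hT Q hQ
      have hne : T.Nonempty := by
        rw [← Finset.card_pos]
        omega
      obtain ⟨v1, hv1⟩ := hne
      obtain ⟨v0, hv0, hmax⟩ := Finset.exists_max_image (T.filter fun v => v.1 = v1.1)
        (fun v => v.2) ⟨v1, Finset.mem_filter.2 ⟨hv1, rfl⟩⟩
      rw [Finset.mem_filter] at hv0
      obtain ⟨hv0T, hv01⟩ := hv0
      let T' := T.erase v0
      have hT' : ∀ v ∈ T', v.1 = v0.1 → v.2 < v0.2 := by
        intro v hv hv'
        rw [Finset.mem_erase] at hv
        have h1 := hmax v (Finset.mem_filter.2 ⟨hv.2, hv'.trans hv01⟩)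
        refine lt_of_le_of_ne h1 fun h2 => hv.1 ?_
        exact Prod.ext hv' h2
      -- the polynomial in the last derivative
      let φ : MvPolynomial T ℂ →ₐ[ℂ] Polynomial (MvPolynomial T' ℂ) :=
        aeval fun v : T => if hv : (v : ι × ℕ) = v0 then Polynomial.X else
          Polynomial.C (X ⟨v, Finset.mem_erase.2 ⟨hv, v.2⟩⟩)
      have hφ : ∀ z, evalAt (fun v : T' => iteratedDeriv v.1.2 (u v.1.1) z)
          (iteratedDeriv v0.2 (u v0.1) z) (φ Q) = eval (fun v : T => jet u z v) Q := by
        intro z
        have h1 : (evalAt (fun v : T' => iteratedDeriv v.1.2 (u v.1.1) z)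
            (iteratedDeriv v0.2 (u v0.1) z)).comp (φ : MvPolynomial T ℂ →+*
              Polynomial (MvPolynomial T' ℂ)) = eval (fun v : T => jet u z v) := by
          apply MvPolynomial.ringHom_ext
          · intro c
            simp [φ, evalAt, MvPolynomial.algebraMap_eq, IsScalarTower.algebraMap_apply ℂ
              (MvPolynomial T' ℂ) (Polynomial (MvPolynomial T' ℂ))]
          · intro v
            by_cases hv : (v : ι × ℕ) = v0
            · simp [φ, evalAt, hv, jet]
            · simp [φ, evalAt, hv, jet]
        exact DFunLike.congr_fun h1 Q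
      have h2 : φ Q = 0 := key_indep hu hT' (by
        filter_upwards [hQ] with z hz
        rw [hφ z, hz])
      -- back
      let ψ : Polynomial (MvPolynomial T' ℂ) →+* MvPolynomial T ℂ :=
        Polynomial.eval₂RingHom (rename (fun v : T' => (⟨v, (Finset.mem_erase.1 v.2).2⟩ : T)) :
          MvPolynomial T' ℂ →ₐ[ℂ] MvPolynomial T ℂ).toRingHom (X ⟨v0, hv0T⟩)
      have h3 : ψ.comp (φ : MvPolynomial T ℂ →+* Polynomial (MvPolynomial T' ℂ)) =
          RingHom.id _ := by
        apply MvPolynomial.ringHom_ext
        · intro c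
          simp [φ, ψ, MvPolynomial.algebraMap_eq, IsScalarTower.algebraMap_apply ℂ
              (MvPolynomial T' ℂ) (Polynomial (MvPolynomial T' ℂ))]
        · intro v
          by_cases hv : (v : ι × ℕ) = v0
          · have h4 : v = ⟨v0, hv0T⟩ := Subtype.ext hv
            simp [φ, ψ, hv]
            exact h4.symm
          · simp [φ, ψ, hv]
      have h4 := DFunLike.congr_fun h3 Q
      rw [RingHom.comp_apply] at h4
      have h5 : (φ : MvPolynomial T ℂ →+* Polynomial (MvPolynomial T' ℂ)) Q = 0 := h2
      rw [h5, map_zero] at h4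
      exact h4.symm
  obtain ⟨Q, hQ⟩ : ∃ Q : MvPolynomial P.vars ℂ, rename (Subtype.val) Q = P :=
    exists_rename_eq_of_vars_subset_range P (Subtype.val : P.vars → ι × ℕ)
      Subtype.val_injective (by
        intro v hv
        exact ⟨⟨v, Finset.mem_coe.1 hv⟩, rfl⟩)
  rw [← hQ]
  rw [key _ P.vars rfl Q (by
    filter_upwards [h] with z hz
    rw [← hQ, eval_rename] at hz
    exact hz), map_zero]

end Pool.Agent.X316.ZU
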