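import Pool.Agent.X316.ZU.Ind
import Pool.Agent.X316.ZG.Zeta
import Pool.Agent.X316.ZG.Str
import Pool.Agent.TH8.UNI.Uni
import Pool.Agent.TH600.LE.Sp

/-!
Zariski-dense entire curves whose homogeneous coordinates are differential polynomials of a jointly
universal family, and unirational varieties.
-/

set_option autoImplicit false

open Filter Topology Set MvPolynomial

namespace Pool.Agent.X316.ZU

open scoped LinearAlgebra.Projectivization
open Pool.Agent.X316.ZG
open Pool.Agent.TH143.EL (HolMap Rep InV codis_rep mero_eval)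
open Pool.Agent.TH143.GT (FunField)
open Pool.Agent.W602.GT (IsForm coords)
open Pool.Agent.Y377.IL (Dense rel_of_dense)
open Pool.Agent.TH8.UNI (exists_param)

variable {ι : Type} {N : ℕ}

/-- The curve `f` has homogeneous coordinates in the ring of the meromorphic functions which are
polynomials in the functions `u j` and their derivatives. -/
def DPolCurve (u : ι → ℂ → ℂ) (f : ℂ → ℙ ℂ (Fin (N + 1) → ℂ)) : Prop :=
  ∃ h : Fin (N + 1) → ℂ → ℂ, (∀ j, h j ∈ dring u) ∧ ∀ᶠ z in codiscrete ℂ, Rep (f z) fun j => h j z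

/-- There is a Zariski-dense entire curve in the projective variety with the ideal `p` with
homogeneous coordinates in the ring. -/
def HasDPolCurve (u : ι → ℂ → ℂ) (p : Ideal (MvPolynomial (Fin (N + 1)) ℂ)) : Prop :=
  ∃ f : ℂ → ℙ ℂ (Fin (N + 1) → ℂ), HolMap f ∧ DPolCurve u f ∧ (∀ z, InV p (f z)) ∧
    ∀ G : MvPolynomial (Fin (N + 1)) ℂ, IsForm G → (∀ z, eval (f z).rep G = 0) → G ∈ p

variable {p : Ideal (MvPolynomial (Fin (N + 1)) ℂ)} {K : Type} [Field K] [Algebra ℂ K]
  {w : ℕ} {y : Fin (N + 1) → K}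

/-- a polynomial parametrization gives an embedding of the function field -/
theorem embed_of_param {σ : Type} [Finite σ] (hy : FunField p 1 K w y)
    (W : Fin (N + 1) → MvPolynomial σ ℂ)
    (hW : ∀ G : MvPolynomial (Fin (N + 1)) ℂ, IsForm G →
      (W602.GT.val y G = 0 ↔ aeval W G = 0)) :
    ∃ m : ℕ, Nonempty (K →ₐ[ℂ] FractionRing (MvPolynomial (Fin m) ℂ)) := by
  classical
  obtain ⟨m, ⟨e⟩⟩ := Finite.exists_equiv_fin σ
  refine ⟨m, ?_⟩
  let FR := FractionRing (MvPolynomial (Fin m) ℂ)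
  let Y : Fin (N + 1) → FR := fun j => algebraMap _ FR (rename e (W j))
  obtain ⟨i0, h0⟩ : ∃ i, y i ≠ 0 := Function.ne_iff.1 hy.sub.ne
  have hrel : ∀ G : MvPolynomial (Fin (N + 1)) ℂ, IsForm G →
      (W602.GT.val y G = 0 ↔ W602.GT.val Y G = 0) := by
    intro G hG
    rw [hW G hG]
    have h1 : W602.GT.val Y G = algebraMap _ FR (rename e (aeval W G)) := by
      unfold W602.GT.val
      have h2 := MvPolynomial.comp_aeval_apply (f := W)
        ((IsScalarTower.toAlgHom ℂ (MvPolynomial (Fin m) ℂ) FR).comp (rename e)) G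
      exact h2.symm
    rw [h1, map_eq_zero_iff _ (IsFractionRing.injective (MvPolynomial (Fin m) ℂ) FR),
      map_eq_zero_iff _ (rename_injective e e.injective)]
  have hY0 : Y i0 ≠ 0 := by
    intro h1
    apply h0
    have h2 : W602.GT.val y (X i0 : MvPolynomial (Fin (N + 1)) ℂ) = 0 := by
      rw [hrel _ ⟨1, isHomogeneous_X _ _⟩]
      unfold W602.GT.val
      rw [aeval_X, h1]
    unfold W602.GT.val at h2
    rwa [aeval_X] at h2
  obtain ⟨φ, -⟩ := W602.GT.exists_embedding h0 hY0 hy.sub.gen hrel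
  exact ⟨φ⟩

/-- **From curves to parametrizations.** -/
theorem unirational_of_curve {u : ι → ℂ → ℂ} (hu : JointlyUniversal u) (hy : FunField p 1 K w y)
    (h : HasDPolCurve u p) :
    ∃ m : ℕ, Nonempty (K →ₐ[ℂ] FractionRing (MvPolynomial (Fin m) ℂ)) := by
  classical
  obtain ⟨f, hf, ⟨h, hh, hr⟩, hX, hd⟩ := h
  choose hm P hP using hh
  have hrel := rel_of_dense hy hf hr hX hd
  have hev : ∀ G : MvPolynomial (Fin (N + 1)) ℂ, ∀ᶠ z in codiscrete ℂ,
      eval (fun j => h j z) G = eval (jet u z) (aeval P G) := by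
    intro G
    filter_upwards [eventually_all.2 hP] with z hz
    have h1 : (fun j => h j z) = fun j => eval (jet u z) (P j) := funext hz
    rw [h1]
    have h2 := MvPolynomial.comp_aeval_apply (f := P)
      (aeval (jet u z) : MvPolynomial (ι × ℕ) ℂ →ₐ[ℂ] ℂ) G
    rw [← MvPolynomial.aeval_eq_eval, ← MvPolynomial.aeval_eq_eval]
    exact h2.symm
  have hrel' : ∀ G : MvPolynomial (Fin (N + 1)) ℂ, IsForm G →
      (W602.GT.val y G = 0 ↔ aeval P G = 0) := by
    intro G hG
    rw [hrel G hG]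
    constructor
    · intro h1
      refine jets_indep hu ?_
      filter_upwards [h1, hev G] with z h2 h3
      rw [← h3, h2]
    · intro h1
      filter_upwards [hev G] with z h3
      rw [h3, h1, map_zero]
  let T : Finset (ι × ℕ) := Finset.univ.biUnion fun j => (P j).vars
  have hQ : ∀ j, ∃ Q : MvPolynomial T ℂ, rename Subtype.val Q = P j := by
    intro j
    refine exists_rename_eq_of_vars_subset_range (P j) (Subtype.val : T → ι × ℕ)
      Subtype.val_injective ?_
    intro v hv
    exact ⟨⟨v, Finset.mem_biUnion.2 ⟨j, Finset.mem_univ j, Finset.mem_coe.1 hv⟩⟩, rfl⟩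
  choose Q hQ using hQ
  refine embed_of_param hy Q fun G hG => ?_
  rw [hrel' G hG]
  have h1 : aeval P G = rename (Subtype.val : T → ι × ℕ) (aeval Q G) := by
    have h2 := MvPolynomial.comp_aeval_apply (f := Q)
      (rename (Subtype.val : T → ι × ℕ) : MvPolynomial T ℂ →ₐ[ℂ] MvPolynomial (ι × ℕ) ℂ) G
    rw [h2]
    congr 2
    funext j
    exact (hQ j).symm
  rw [h1, map_eq_zero_iff _ (rename_injective _ Subtype.val_injective)]

/-- **From parametrizations to curves.** -/
theorem curve_of_unirational {u : ι → ℂ → ℂ} (hu : JointlyUniversal u) (j0 : ι)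
    (hy : FunField p 1 K w y)
    (h : ∃ m : ℕ, Nonempty (K →ₐ[ℂ] FractionRing (MvPolynomial (Fin m) ℂ))) :
    HasDPolCurve u p := by
  classical
  obtain ⟨m, ⟨φ⟩⟩ := h
  obtain ⟨W, hW⟩ := exists_param hy.sub.ne φ
  obtain ⟨i0, h0⟩ : ∃ i, y i ≠ 0 := Function.ne_iff.1 hy.sub.ne
  let r : Fin m → ι × ℕ := fun l => (j0, l)
  have hr : Function.Injective r := fun a b hab => Fin.ext (congrArg Prod.snd hab)
  have hrW : ∀ P : MvPolynomial (Fin m) ℂ, ∀ z, eval (jet u z) (rename r P) =
      eval (fun l : Fin m => iteratedDeriv l (u j0) z) P := by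
    intro P z
    rw [eval_rename]
    rfl
  let h : Fin (N + 1) → ℂ → ℂ := fun j z => eval (fun l : Fin m => iteratedDeriv l (u j0) z) (W j)
  have hm : ∀ j, Meromorphic (h j) := fun j =>
    mero_eval (fun l : Fin m => meromorphic_iteratedDeriv (hu.mero j0) l) (W j)
  have hzero : ∀ P : MvPolynomial (Fin m) ℂ,
      (∀ᶠ z in codiscrete ℂ, eval (fun l : Fin m => iteratedDeriv l (u j0) z) P = 0) → P = 0 := by
    intro P hP
    have h1 : rename r P = 0 := jets_indep hu (hP.mono fun z hz => by rw [hrW, hz])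
    rwa [map_eq_zero_iff _ (rename_injective r hr)] at h1
  have hev : ∀ (G : MvPolynomial (Fin (N + 1)) ℂ) (z : ℂ), eval (fun j => h j z) G =
      eval (fun l : Fin m => iteratedDeriv l (u j0) z) (aeval W G) := by
    intro G z
    have h2 := MvPolynomial.comp_aeval_apply (f := W)
      (aeval (fun l : Fin m => iteratedDeriv l (u j0) z) : MvPolynomial (Fin m) ℂ →ₐ[ℂ] ℂ) G
    rw [← MvPolynomial.aeval_eq_eval, ← MvPolynomial.aeval_eq_eval]
    exact h2.symm
  have hne : ∃ j, ¬ ∀ᶠ z in codiscrete ℂ, h j z = 0 := by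
    refine ⟨i0, fun h1 => h0 ?_⟩
    have h2 := hzero (W i0) h1
    have h3 : W602.GT.val y (X i0 : MvPolynomial (Fin (N + 1)) ℂ) = 0 := by
      rw [hW _ ⟨1, isHomogeneous_X _ _⟩, aeval_X, h2]
    unfold W602.GT.val at h3
    rwa [aeval_X] at h3
  obtain ⟨f, hf, hfr⟩ := codis_rep hm hne
  refine ⟨f, hf, ⟨h, fun j => ⟨hm j, rename r (W j), Eventually.of_forall fun z => ?_⟩, hfr⟩,
    fun z G hG hGf => ?_, fun G hG hGz => ?_⟩
  · exact (hrW (W j) z).symm
  · refine form_all hf hfr hGf (Eventually.of_forall fun z => ?_) z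
    rw [hev, (hW G hGf).1 (hy.sub.mem G hG), map_zero]
  · refine hy.mem G hG ((hW G hG).2 (hzero _ ?_))
    filter_upwards [hfr] with z hz
    rw [← hev]
    exact (Pool.Agent.TH600.LE.rep_form hz hG).1 (hGz z)

end Pool.Agent.X316.ZU
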