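import Pool.Agent.X316.ZG.Mfd
import Pool.Agent.TH143.EL.Ell

/-!
Periods of meromorphic functions which are algebraic over elliptic functions.
-/

set_option autoImplicit false

open Filter Topology Set Polynomial

namespace Pool.Agent.X316.ZU

open Pool.Agent.X316.ZG
open Pool.Agent.TH143.EL (Ell codis_shift codis_ev mero_comp_add nf_codis)

/-- translation of meromorphic functions -/
def trS (a : ℂ) : merS →ₐ[ℂ] merS where
  toFun f := ⟨fun z => (f : ℂ → ℂ) (z + a), mero_comp_add f.2 a⟩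
  map_one' := rfl
  map_mul' _ _ := rfl
  map_zero' := rfl
  map_add' _ _ := rfl
  commutes' _ := rfl

/-- translation of meromorphic functions -/
noncomputable def tr (a : ℂ) : Mf →ₐ[ℂ] Mf :=
  Ideal.Quotient.liftₐ nullI ((Ideal.Quotient.mkₐ ℂ nullI).comp (trS a)) (by
    intro f hf
    change Ideal.Quotient.mk nullI (trS a f) = 0
    rw [Ideal.Quotient.eq_zero_iff_mem, mem_nullI]
    exact codis_shift a (mem_nullI.1 hf))

theorem tr_cl (a : ℂ) {f : ℂ → ℂ} (hf : Meromorphic f) :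
    tr a (cl f hf) = cl (fun z => f (z + a)) (mero_comp_add hf a) := rfl

theorem tr_tr (a b : ℂ) (x : Mf) : tr a (tr b x) = tr (a + b) x := by
  obtain ⟨⟨f, hf⟩, rfl⟩ := Ideal.Quotient.mk_surjective x
  change cl (fun z => f (z + a + b)) _ = cl (fun z => f (z + (a + b))) _
  congr 1
  funext z
  rw [add_assoc]

theorem tr_zero (x : Mf) : tr 0 x = x := by
  obtain ⟨⟨f, hf⟩, rfl⟩ := Ideal.Quotient.mk_surjective x
  change cl (fun z => f (z + 0)) _ = cl f hf
  congr 1
  funext z
  rw [add_zero]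

theorem tr_nat {a : ℂ} {x : Mf} (h : tr a x = x) (n : ℕ) : tr (n * a) x = x := by
  induction n with
  | zero => rw [Nat.cast_zero, zero_mul, tr_zero]
  | succ n ih =>
    rw [Nat.cast_succ, add_mul, one_mul, ← tr_tr, h, ih]

/-- algebraic functions over periodic functions are periodic -/
theorem per_of_alg {ω : ℂ} {A : Subalgebra ℂ Mf} (hA : ∀ b ∈ A, tr ω b = b) {x : Mf}
    (hx : IsAlgebraic A x) : ∃ n : ℕ, 0 < n ∧ tr (n * ω) x = x := by
  classical
  obtain ⟨P, hP0, hP⟩ := hx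
  let P' : Mf[X] := P.map (algebraMap A Mf)
  have hP' : P' ≠ 0 := by
    intro h0
    apply hP0
    exact (Polynomial.map_eq_zero_iff (f := algebraMap A Mf) Subtype.val_injective).1 h0
  have hroot : ∀ n : ℕ, tr (n * ω) x ∈ P'.roots.toFinset := by
    intro n
    rw [Multiset.mem_toFinset, Polynomial.mem_roots hP', Polynomial.IsRoot.def, Polynomial.eval_map,
      Polynomial.eval₂_eq_sum_range]
    have h1 : Polynomial.eval₂ (algebraMap A Mf) x P = 0 := hP
    have h2 := congrArg (tr (n * ω)) h1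
    rw [map_zero, Polynomial.eval₂_eq_sum_range, map_sum] at h2
    rw [← h2]
    refine Finset.sum_congr rfl fun i _ => ?_
    have h3 : tr (n * ω) (algebraMap A Mf (P.coeff i)) = algebraMap A Mf (P.coeff i) :=
      tr_nat (hA _ (P.coeff i).2) n
    rw [map_mul, map_pow, h3]
  obtain ⟨a, b, hab, h⟩ := Finite.exists_ne_map_eq_of_infinite
    (fun n : ℕ => (⟨tr (n * ω) x, hroot n⟩ : P'.roots.toFinset))
  have h' : tr (a * ω) x = tr (b * ω) x := congrArg Subtype.val h
  have key : ∀ a b : ℕ, a < b → tr (a * ω) x = tr (b * ω) x →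
      ∃ n : ℕ, 0 < n ∧ tr (n * ω) x = x := by
    intro a b hlt h1
    refine ⟨b - a, by omega, ?_⟩
    apply (tr (a * ω)).toRingHom.injective
    change tr (a * ω) (tr (((b - a : ℕ) : ℂ) * ω) x) = tr (a * ω) x
    rw [tr_tr, h1]
    congr 2
    rw [Nat.cast_sub hlt.le]
    ring
  rcases lt_or_gt_of_ne hab with h1 | h1
  · exact key a b h1 h'
  · exact key b a h1 h'.symm

theorem nf_per' {G : ℂ → ℂ} (hG : Meromorphic G) {a : ℂ}
    (h : ∀ᶠ z in codiscrete ℂ, G (z + a) = G z) (z : ℂ) :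
    toMeromorphicNFOn G univ (z + a) = toMeromorphicNFOn G univ z := by
  have h1 : MeromorphicNFAt (fun z => toMeromorphicNFOn G univ (z + a)) z :=
    (meromorphicNFOn_toMeromorphicNFOn G univ (mem_univ (z + a))).comp_analyticAt
      (g := fun z => z + a) (analyticAt_id.add analyticAt_const)
  have h2 : (fun z => toMeromorphicNFOn G univ (z + a)) =ᶠ[𝓝[≠] z] toMeromorphicNFOn G univ := by
    filter_upwards [codis_ev (codis_shift a (nf_codis hG)) z, codis_ev (nf_codis hG) z,
      codis_ev h z] with y h3 h4 h5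
    rw [← h3, ← h4, h5]
  exact ((h1.eventuallyEq_nhdsNE_iff_eventuallyEq_nhds
    (meromorphicNFOn_toMeromorphicNFOn G univ (mem_univ z))).1 h2).self_of_nhds

theorem cl_eq_iff {f g : ℂ → ℂ} {hf : Meromorphic f} {hg : Meromorphic g} :
    cl f hf = cl g hg ↔ ∀ᶠ z in codiscrete ℂ, f z = g z := by
  have h1 : cl f hf = cl g hg ↔ cl f hf - cl g hg = 0 := sub_eq_zero.symm
  rw [h1]
  change Ideal.Quotient.mk nullI _ - Ideal.Quotient.mk nullI _ = 0 ↔ _
  rw [← map_sub, Ideal.Quotient.eq_zero_iff_mem, mem_nullI]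
  refine eventually_congr (Eventually.of_forall fun z => ?_)
  change f z - g z = 0 ↔ _
  rw [sub_eq_zero]

/-- periodic classes contain elliptic functions -/
theorem exists_ell {a b : ℂ} {x : Mf} (ha : tr a x = x) (hb : tr b x = x) :
    ∃ (g : ℂ → ℂ) (hg : g ∈ Ell a b), x = cl g hg.1 := by
  obtain ⟨⟨f, hf⟩, rfl⟩ := Ideal.Quotient.mk_surjective x
  have hf' : Meromorphic f := hf
  have h1 : ∀ᶠ z in codiscrete ℂ, f (z + a) = f z := cl_eq_iff.1 ha
  have h2 : ∀ᶠ z in codiscrete ℂ, f (z + b) = f z := cl_eq_iff.1 hb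
  have hm : Meromorphic (toMeromorphicNFOn f univ) := fun z =>
    (meromorphicNFOn_toMeromorphicNFOn f univ (mem_univ z)).meromorphicAt
  refine ⟨toMeromorphicNFOn f univ, ⟨hm, nf_per' hf' h1, nf_per' hf' h2⟩, ?_⟩
  change cl f hf' = cl _ hm
  exact cl_eq_iff.2 (nf_codis hf')

end Pool.Agent.X316.ZU
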