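import Pool.Agent.X316.ZU.FieldsE
import Pool.Agent.X316.ZU.Acv
import Pool.Agent.X316.ZU.Per
import Pool.Agent.X316.ZE.Crv

/-!
The Zariski closure of an entire curve which is algebraic over elliptic functions and a jointly
universal family.
-/

set_option autoImplicit false

open Filter Topology Set MvPolynomial

namespace Pool.Agent.X316.ZU

open scoped LinearAlgebra.Projectivization
open Pool.Agent.X316.ZG Pool.Agent.X316.ZE
open Pool.Agent.TH143.EL (HolMap Rep InV rep_rep rep_smul Ell NC)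
open Pool.Agent.TH143.GT (FunField)
open Pool.Agent.W602.GT (IsForm coords exists_embedding)
open Pool.Agent.Y377.IL (Dense AlgebraicOver AlgRatio rel_of_dense algI mem_algI db_of_trOne)
open Pool.Agent.X316.ZU.OK (RK)

variable {ι : Type} {N : ℕ}
variable {f : ℂ → ℙ ℂ (Fin (N + 1) → ℂ)}

/-- parametrizations by polynomials over a field -/
theorem exists_paramk {k : Type} [Field k] [Algebra ℂ k] {N m : ℕ} {K : Type} [Field K]
    [Algebra ℂ K] {y : Fin (N + 1) → K}
    (hy : y ≠ 0) (φ : K →ₐ[ℂ] RK k m) :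
    ∃ W : Fin (N + 1) → MvPolynomial (Fin m) k, ∀ G : MvPolynomial (Fin (N + 1)) ℂ, IsForm G →
      (W602.GT.val y G = 0 ↔ aeval W G = 0) := by
  classical
  obtain ⟨i0, h0⟩ : ∃ i, y i ≠ 0 := Function.ne_iff.1 hy
  let FR := FractionRing (MvPolynomial (Fin m) k)
  obtain ⟨b, hb⟩ := IsLocalization.exist_integer_multiples_of_finset
    (nonZeroDivisors (MvPolynomial (Fin m) k)) (Finset.univ.image fun j => φ (y j / y i0))
  have hb' : ∀ j, ∃ W : MvPolynomial (Fin m) k, algebraMap _ FR W =
      algebraMap _ FR (b : MvPolynomial (Fin m) k) * φ (y j / y i0) := by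
    intro j
    obtain ⟨W, hW⟩ := hb _ (Finset.mem_image_of_mem _ (Finset.mem_univ j))
    refine ⟨W, ?_⟩
    rw [hW, Algebra.smul_def]
  choose W hW using hb'
  have hinj : Function.Injective (algebraMap (MvPolynomial (Fin m) k) FR) :=
    IsFractionRing.injective _ _
  have hb0 : algebraMap _ FR (b : MvPolynomial (Fin m) k) ≠ 0 := by
    rw [Ne, map_eq_zero_iff _ hinj]
    exact nonZeroDivisors.ne_zero b.2
  refine ⟨W, fun G hG => ?_⟩
  obtain ⟨e, he⟩ := hG
  have h1 : algebraMap _ FR (aeval W G) = algebraMap _ FR (b : MvPolynomial (Fin m) k) ^ e *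
      φ (aeval (fun j => y j / y i0) G) := by
    have h2 := MvPolynomial.comp_aeval_apply (f := W)
      (IsScalarTower.toAlgHom ℂ (MvPolynomial (Fin m) k) FR) G
    have h3 := MvPolynomial.comp_aeval_apply (f := fun j => y j / y i0) φ G
    refine h2.trans ?_
    rw [h3]
    have h4 : (fun j => (IsScalarTower.toAlgHom ℂ (MvPolynomial (Fin m) k) FR) (W j)) =
        fun j => algebraMap _ FR (b : MvPolynomial (Fin m) k) * φ (y j / y i0) :=
      funext fun j => hW j
    rw [h4]
    rw [aeval_def, aeval_def, eval₂_eq', eval₂_eq', Finset.mul_sum]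
    refine Finset.sum_congr rfl fun α hα => ?_
    have h5 : ∑ i, α i = e := by
      have := he (MvPolynomial.mem_support_iff.1 hα)
      rw [Finsupp.weight_apply, Finsupp.sum_fintype _ _ (fun _ => by simp)] at this
      simpa using this
    rw [← h5, ← Finset.prod_pow_eq_pow_sum]
    simp only [mul_pow, Finset.prod_mul_distrib]
    ring
  rw [Pool.Agent.TH143.GT.val_scale h0 he]
  constructor
  · intro h2
    apply hinj
    rw [map_zero, h1]
    have h3 : aeval (fun j => y j / y i0) G = 0 :=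
      (mul_eq_zero.1 h2).resolve_left (pow_ne_zero _ h0)
    rw [h3, map_zero, mul_zero]
  · intro h2
    rw [h2, map_zero] at h1
    have h3 := (mul_eq_zero.1 h1.symm).resolve_left (pow_ne_zero _ hb0)
    rw [map_eq_zero] at h3
    rw [h3, mul_zero]

/-- **The Zariski closure.** -/
theorem closure_base {B₀ : Subalgebra ℂ (ℂ → ℂ)} (hT : Pool.Agent.X316.ZE.Base B₀) {q : ℂ → ℂ}
    (hqB : q ∈ B₀) (hnc : NC q) (hco : CoBdd q) (hq : Meromorphic q) {u : ι → ℂ → ℂ}
    (hu : JointlyUniversal u) (hf : HolMap f) (ha : AlgebraicOver (dringB B₀ u) f) :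
    ∃ (k : Type) (_ : Field k) (_ : Algebra ℂ k) (ψ₀ : k →ₐ[ℂ] Mf) (m : ℕ)
      (W : Fin (N + 1) → MvPolynomial (Fin m) k),
      (∀ x, IsAlgebraic (Algebra.adjoin ℂ {cl q hq} : Subalgebra ℂ Mf) (ψ₀ x)) ∧
      ∀ G : MvPolynomial (Fin (N + 1)) ℂ, IsForm G →
        ((∀ z, eval (f z).rep G = 0) ↔ aeval W G = 0) := by
  classical
  obtain ⟨l, hl0⟩ := Function.ne_iff.1 (f 0).rep_nonzero
  obtain ⟨hm, hne⟩ := Pool.Agent.Y125.IL.t_RT N f hf l ⟨0, hl0⟩
  let h : Fin (N + 1) → ℂ → ℂ := fun j z => (f z).rep j / (f z).rep l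
  have hm' : ∀ j, Meromorphic (h j) := hm
  have hh : ∀ z, (fun j => h j z) = fun j => ((f z).rep l)⁻¹ * (f z).rep j := by
    intro z
    funext j
    change (f z).rep j / (f z).rep l = _
    rw [div_eq_mul_inv, mul_comm]
  have hr : ∀ᶠ z in codiscrete ℂ, Rep (f z) fun j => h j z := by
    filter_upwards [hne] with z hz
    rw [hh z]
    exact (rep_smul (inv_ne_zero hz)).2 (rep_rep (f z))
  have hrat : ∀ i j, AlgRatio (dringB B₀ u) (h i) (h j) := by
    intro i j
    refine Pool.Agent.Y377.IL.algRatio_scale ?_ (ha i j)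
    filter_upwards [hne] with z hz
    exact ⟨((f z).rep l)⁻¹, congrFun (hh z) i, congrFun (hh z) j⟩
  let Y : Fin (N + 1) → Mf := fun j => cl (h j) (hm' j)
  have hYl : Y l = 1 := by
    have h1 : Y l = cl (fun _ => (1 : ℂ)) (Meromorphic.const 1) := by
      apply cl_eq
      filter_upwards [hne] with z hz
      exact div_self hz
    rw [h1]
    rfl
  have hYl0 : Y l ≠ 0 := by
    rw [hYl]
    exact one_ne_zero
  let E : IntermediateField ℂ Mf := IntermediateField.adjoin ℂ (Set.range Y)
  let y : Fin (N + 1) → E := fun j => ⟨Y j, IntermediateField.subset_adjoin _ _ ⟨j, rfl⟩⟩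
  have htop : IntermediateField.adjoin ℂ (Set.range y) = (⊤ : IntermediateField ℂ E) := by
    have h2 : (IntermediateField.adjoin ℂ (Set.range y)).map E.val =
        (⊤ : IntermediateField ℂ E).map E.val := by
      rw [IntermediateField.adjoin_map, ← AlgHom.fieldRange_eq_map,
        IntermediateField.fieldRange_val, ← Set.range_comp]
      rfl
    exact IntermediateField.map_injective E.val h2
  have halg : ∀ j, ∃ T : Finset (ι × ℕ),
      IsAlgebraic (Algebra.adjoin ℂ (insert (cl q hq) (xc hu.mero '' (T : Set (ι × ℕ)))) :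
        Subalgebra ℂ Mf) (E.val (y j)) := by
    intro j
    obtain ⟨T, hT1⟩ := alg_of_ratioB (db_of_trOne hT.tr) hu.mero (hm' j) (hm' l) hYl0 (hrat j l)
    refine ⟨T, ?_⟩
    have h1 : cl (h j) (hm' j) / cl (h l) (hm' l) = Y j := by
      change Y j / Y l = Y j
      rw [hYl, div_one]
    rw [h1] at hT1
    exact alg_SS hT.tr hqB hq hnc hu.mero T hT1
  choose Te hTe using halg
  let T : Finset (ι × ℕ) := Finset.univ.biUnion Te
  have hall : ∀ e : E,
      IsAlgebraic (Algebra.adjoin ℂ (insert (cl q hq) (xc hu.mero '' (T : Set (ι × ℕ)))) :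
        Subalgebra ℂ Mf) (E.val e) := by
    intro e
    have h4 : (⊤ : IntermediateField ℂ E) ≤ (algI (Algebra.adjoin ℂ (insert (cl q hq)
        (xc hu.mero '' (T : Set (ι × ℕ)))) : Subalgebra ℂ Mf)).comap E.val := by
      rw [← htop, IntermediateField.adjoin_le_iff]
      rintro _ ⟨j, rfl⟩
      change E.val (y j) ∈ algI _
      rw [mem_algI]
      have h5 : (Algebra.adjoin ℂ (insert (cl q hq) (xc hu.mero '' (Te j : Set (ι × ℕ)))) :
          Subalgebra ℂ Mf) ≤
          Algebra.adjoin ℂ (insert (cl q hq) (xc hu.mero '' (T : Set (ι × ℕ)))) := by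
        apply Algebra.adjoin_mono
        apply Set.insert_subset_insert
        apply Set.image_mono
        intro v hv
        exact Finset.mem_coe.2 (Finset.mem_biUnion.2 ⟨j, Finset.mem_univ j, hv⟩)
      exact Pool.Agent.Y377.EL.alg_mono h5 (hTe j)
    exact h4 (IntermediateField.mem_top (x := e))
  have hfg : (⊤ : IntermediateField ℂ E).FG := by
    rw [← htop]
    exact IntermediateField.fg_adjoin_of_finite (Set.finite_range y)
  obtain ⟨k, _, _, ψ₀, m, -, hk, ⟨φ⟩⟩ :=
    fieldsE hu hq hco (NC.ne hq hnc) T.card T rfl E E.val hfg hall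
  have hy0 : y ≠ 0 := by
    intro h0
    apply hYl0
    have h1 := congrArg Subtype.val (congrFun h0 l)
    exact h1
  obtain ⟨W, hW⟩ := exists_paramk hy0 φ
  refine ⟨k, inferInstance, inferInstance, ψ₀, m, W, hk, fun G hG => ?_⟩
  rw [← hW G hG]
  have e5 : ((W602.GT.val y G : E) : Mf) = aeval Y G :=
    MvPolynomial.comp_aeval_apply (f := y) E.val G
  have e6 : W602.GT.val y G = 0 ↔ aeval Y G = 0 := by
    rw [← e5]
    exact Subtype.ext_iff
  rw [e6]
  have e7 : aeval Y G = 0 ↔ ∀ᶠ z in codiscrete ℂ, eval (fun j => h j z) G = 0 :=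
    aeval_cl_zero h hm' G
  rw [e7]
  exact (Pool.Agent.Y377.IL.form_rep hf hr hG).symm

end Pool.Agent.X316.ZU
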