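import Pool.Agent.Y216.SV.Afl
import Pool.Agent.Y377.IL.AlgB

/-!
Affine varieties with a polynomial parametrization over the complex numbers are covered by affine
lines.
-/

set_option autoImplicit false

open MvPolynomial

namespace Pool.Agent.X316.ZU

open Pool.Agent.W602.GT (IsForm coords)
open Pool.Agent.Y216.SV (AffineFamily)

variable {k : Type} [Field k] [Algebra k ℂ] {N : ℕ} {K : Type} [Field K] [Algebra k K]

/-- evaluations and homomorphisms -/
theorem hom_aeval {k A B : Type} [CommRing k] [CommRing A] [CommRing B] [Algebra k A] [Algebra k B]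
    (θ : A →+* B) (hθ : ∀ c : k, θ (algebraMap k A c) = algebraMap k B c) {τ : Type} (x : τ → A)
    (G : MvPolynomial τ k) : θ (aeval x G) = aeval (fun j => θ (x j)) G := by
  let θ' : A →ₐ[k] B := { toRingHom := θ, commutes' := hθ }
  exact MvPolynomial.comp_aeval_apply (f := x) θ' G

/-- **Affine lines from parametrizations.** -/
theorem affine_of_param {y : Fin (N + 1) → K} {m : ℕ} {W : Fin (N + 1) → MvPolynomial (Fin m) ℂ}
    (hW0 : W 0 = 1) (hW : ∃ j, ∀ c, W j ≠ C c)
    (hrel : ∀ G : MvPolynomial (Fin (N + 1)) k, IsForm G →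
      (W602.GT.val y G = 0 ↔ aeval W G = 0)) : ∃ d : ℕ, AffineFamily {0} (k := k) y d := by
  classical
  obtain ⟨j1, hj1⟩ := hW
  obtain ⟨i, hi⟩ : ∃ i : Fin m, (W j1).degreeOf i ≠ 0 := by
    by_contra hcon
    push Not at hcon
    refine hj1 _ (vars_eq_empty_iff_eq_C.1 ?_)
    rw [Finset.eq_empty_iff_forall_notMem]
    intro i hi
    exact mem_vars_iff_degreeOf_ne_zero.1 hi (hcon i)
  obtain ⟨m', rfl⟩ : ∃ m', m = m' + 1 := ⟨m - 1, by have := i.2; omega⟩
  let e : Equiv.Perm (Fin (m' + 1)) := Equiv.swap 0 i
  have hei : e i = 0 := Equiv.swap_apply_right 0 i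
  let A' := MvPolynomial (Fin m') ℂ
  let L := FractionRing A'
  have hAL : Function.Injective (algebraMap A' L) := IsFractionRing.injective _ _
  let θ : MvPolynomial (Fin (m' + 1)) ℂ →+* Polynomial L :=
    (Polynomial.mapRingHom (algebraMap A' L)).comp
      ((finSuccEquiv ℂ m' : MvPolynomial (Fin (m' + 1)) ℂ →+* Polynomial A').comp
        (rename e : MvPolynomial (Fin (m' + 1)) ℂ →ₐ[ℂ] _).toRingHom)
  have hθ : ∀ P, θ P = (finSuccEquiv ℂ m' (rename e P)).map (algebraMap A' L) := fun P => rfl
  have hθi : Function.Injective θ := by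
    refine (Polynomial.map_injective _ hAL).comp ?_
    refine (finSuccEquiv ℂ m').injective.comp ?_
    exact rename_injective _ e.injective
  have hθk : ∀ c : k, θ (algebraMap k _ c) = algebraMap k (Polynomial L) c := by
    intro c
    have h1 : algebraMap k (MvPolynomial (Fin (m' + 1)) ℂ) c = C (algebraMap k ℂ c) := rfl
    rw [h1, hθ, rename_C]
    have h2 : finSuccEquiv ℂ m' (C (algebraMap k ℂ c)) = Polynomial.C (C (algebraMap k ℂ c)) :=
      (finSuccEquiv ℂ m').commutes (algebraMap k ℂ c)
    rw [h2, Polynomial.map_C]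
    have h3 : algebraMap k (Polynomial L) c = Polynomial.C (algebraMap k L c) := rfl
    rw [h3, IsScalarTower.algebraMap_apply k A' L]
    rfl
  let F : Fin (N + 1) → Polynomial L := fun j => θ (W j)
  have hF0 : F 0 = 1 := by
    change θ (W 0) = 1
    rw [hW0, map_one]
  have hF1 : 0 < (F j1).natDegree := by
    change 0 < (θ (W j1)).natDegree
    rw [hθ, Polynomial.natDegree_map_eq_of_injective hAL, natDegree_finSuccEquiv, ← hei,
      degreeOf_rename_of_injective e.injective]
    exact Nat.pos_of_ne_zero hi
  let S : Set L := ⋃ j : Fin (N + 1), ((F j).coeffs : Set L)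
  have hSf : S.Finite := Set.finite_iUnion fun j => (F j).coeffs.finite_toSet
  let M : IntermediateField k L := IntermediateField.adjoin k S
  have hSM : ∀ j n, (F j).coeff n ∈ M := by
    intro j n
    by_cases h0 : (F j).coeff n = 0
    · rw [h0]
      exact zero_mem M
    · apply IntermediateField.subset_adjoin
      exact Set.mem_iUnion.2 ⟨j, Finset.mem_coe.2 (Polynomial.coeff_mem_coeffs h0)⟩
  have hlift : ∀ j, ∃ g : Polynomial M, g.map (algebraMap M L) = F j := by
    intro j
    have h1 : F j ∈ Polynomial.lifts (algebraMap M L) := by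
      rw [Polynomial.lifts_iff_coeff_lifts]
      intro n
      exact ⟨⟨_, hSM j n⟩, rfl⟩
    exact (Polynomial.mem_lifts _).1 h1
  choose g hg using hlift
  have hML : Function.Injective (algebraMap M L) := (algebraMap M L).injective
  have hfgM : ∃ S' : Set M, S'.Finite ∧ IntermediateField.adjoin k S' = ⊤ := by
    refine ⟨Subtype.val ⁻¹' S, hSf.preimage Subtype.val_injective.injOn, ?_⟩
    apply IntermediateField.map_injective M.val
    rw [IntermediateField.adjoin_map, ← AlgHom.fieldRange_eq_map,
      IntermediateField.fieldRange_val]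
    have h1 : M.val '' (Subtype.val ⁻¹' S) = S := by
      apply Set.Subset.antisymm
      · rintro _ ⟨x, hx, rfl⟩
        exact hx
      · intro x hx
        exact ⟨⟨x, IntermediateField.subset_adjoin _ _ hx⟩, hx, rfl⟩
    rw [h1]
  have hess : Algebra.EssFiniteType k M := by
    obtain ⟨S', hS', hS't⟩ := hfgM
    have h1 : (⊤ : IntermediateField k M).FG := by
      rw [← hS't]
      exact IntermediateField.fg_adjoin_of_finite hS'
    exact IntermediateField.fg_top_iff.1 h1
  obtain ⟨d, hd⟩ := Cardinal.lt_aleph0.1 (trdeg_lt_aleph0 k M)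
  refine ⟨d, M, inferInstance, inferInstance, g, hfgM, hd, ?_, ⟨j1, ?_⟩, ?_, ?_⟩
  · rw [Ideal.eq_top_iff_one]
    refine Ideal.subset_span ⟨0, ?_⟩
    apply Polynomial.map_injective _ hML
    rw [hg, hF0, Polynomial.map_one]
  · rw [← Polynomial.natDegree_map_eq_of_injective hML, hg]
    exact hF1
  · rintro j rfl
    refine ⟨1, one_ne_zero, ?_⟩
    apply Polynomial.map_injective _ hML
    rw [hg, hF0, Polynomial.map_C, map_one, Polynomial.C_1]
  · intro G hG
    rw [hrel G hG]
    have h1 := hom_aeval (k := k) θ hθk W G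
    have h2 := hom_aeval (k := k) (Polynomial.mapRingHom (algebraMap M L)) (fun c => by
      change (Polynomial.C (algebraMap k M c)).map (algebraMap M L) =
        Polynomial.C (algebraMap k L c)
      rw [Polynomial.map_C, ← IsScalarTower.algebraMap_apply k M L]) g G
    have h3 : (fun j => Polynomial.mapRingHom (algebraMap M L) (g j)) = fun j => θ (W j) :=
      funext fun j => hg j
    rw [h3, ← h1] at h2
    constructor
    · intro h
      rw [h, map_zero] at h2
      exact Polynomial.map_injective _ hML (h2.trans (Polynomial.map_zero _).symm)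
    · intro h
      rw [h, map_zero] at h2
      exact hθi (h2.symm.trans (map_zero _).symm)

end Pool.Agent.X316.ZU
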