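import Pool.Agent.TH8.UNI.Gen
import Pool.Agent.X316.ZU.Lin1

/-!
An affine variety which is dominated by an affine space is dominated by the affine space of the same
dimension.
-/

set_option autoImplicit false

open MvPolynomial

namespace Pool.Agent.X316.ZU

open Pool.Agent.W602.GT (IsForm coords exists_embedding)
open Pool.Agent.TH8.UNI (dual_der jac_indep exists_pd spec_iff exists_coord_basis)
open Pool.Agent.Y216.SV (AffineFamily)

variable {k : Type} [Field k] [CharZero k] {N w : ℕ} {K : Type} [Field K] [Algebra k K]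

omit [CharZero k] in
theorem der_aeval' {L : Type} [Field L] [Algebra k L] {σ : Type} [Fintype σ]
    (D : Derivation k L L) (Y : σ → L) (P : MvPolynomial σ k) :
    D (aeval Y P) = ∑ l, D (Y l) * aeval Y (pderiv l P) := by
  classical
  induction P using MvPolynomial.induction_on with
  | C a =>
    rw [aeval_C, D.map_algebraMap]
    symm
    refine Finset.sum_eq_zero fun l _ => ?_
    rw [pderiv_C, map_zero, mul_zero]
  | add p q hp hq =>
    rw [map_add, map_add, hp, hq, ← Finset.sum_add_distrib]
    refine Finset.sum_congr rfl fun l _ => ?_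
    rw [map_add, map_add, mul_add]
  | mul_X p j hp =>
    rw [map_mul, aeval_X, D.leibniz, hp]
    have h1 : ∀ l, aeval Y (pderiv l (p * X j)) =
        aeval Y p * (if l = j then 1 else 0) + Y j * aeval Y (pderiv l p) := by
      intro l
      rw [Derivation.leibniz, pderiv_X, map_add, smul_eq_mul, smul_eq_mul, map_mul, map_mul,
        aeval_X, Pi.single_apply]
      by_cases h : l = j
      · rw [if_pos h, if_pos h.symm, map_one]
      · rw [if_neg h, if_neg (Ne.symm h), map_zero]
    simp only [h1, mul_add, Finset.sum_add_distrib, mul_ite, mul_one, mul_zero,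
      Finset.sum_ite_eq', Finset.mem_univ, if_true, smul_eq_mul]
    rw [Finset.mul_sum, mul_comm (aeval Y p)]
    congr 1
    exact Finset.sum_congr rfl fun l _ => by ring

/-- **Cutting down the dimension.** -/
theorem cut {y : Fin (N + 1) → K} (h0 : y 0 ≠ 0) (hgen : coords k y = ⊤)
    (hdim : Algebra.trdeg k K = w) {m : ℕ} {W : Fin (N + 1) → MvPolynomial (Fin m) k}
    (hW0 : W 0 = 1)
    (hrel : ∀ G : MvPolynomial (Fin (N + 1)) k, IsForm G →
      (W602.GT.val y G = 0 ↔ aeval W G = 0)) :
    ∃ V : Fin (N + 1) → MvPolynomial (Fin w) k, V 0 = 1 ∧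
      ∀ G : MvPolynomial (Fin (N + 1)) k, IsForm G →
        (W602.GT.val y G = 0 ↔ aeval V G = 0) := by
  classical
  obtain ⟨j, hj⟩ := exists_coord_basis hgen hdim h0
  let A := MvPolynomial (Fin m) k
  let FR := FractionRing A
  have hAi : Function.Injective (algebraMap A FR) := IsFractionRing.injective _ _
  let y' : Fin (N + 1) → FR := fun j => algebraMap A FR (W j)
  have hy'0 : y' 0 = 1 := by
    change algebraMap A FR (W 0) = 1
    rw [hW0, map_one]
  have hval : ∀ G : MvPolynomial (Fin (N + 1)) k,
      W602.GT.val y' G = algebraMap A FR (aeval W G) := fun G =>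
    (MvPolynomial.comp_aeval_apply (f := W) (IsScalarTower.toAlgHom k A FR) G).symm
  obtain ⟨φ, hφ⟩ := exists_embedding (k := k) (y := y) (y' := y') (i0 := 0) h0
    (by rw [hy'0]; exact one_ne_zero) hgen (fun G hG => by
      rw [hrel G hG, hval, map_eq_zero_iff _ hAi])
  have hind : AlgebraicIndependent k (fun l => y' (j l)) := by
    have h1 := hj.1.map' φ.injective
    have h2 : (φ ∘ fun l => y (j l) / y 0) = fun l => y' (j l) := by
      funext l
      change φ (y (j l) / y 0) = _
      rw [hφ, hy'0, div_one]
    rw [h2] at h1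
    exact h1
  obtain ⟨D, hD⟩ := dual_der hind
  -- denominators
  obtain ⟨b, hb⟩ := IsLocalization.exist_integer_multiples_of_finset
    (nonZeroDivisors A) (Finset.univ.image fun p : Fin w × Fin m =>
      D p.1 (algebraMap A FR (X p.2)))
  have hb' : ∀ i s, ∃ B : A, algebraMap A FR B =
      algebraMap A FR (b : A) * D i (algebraMap A FR (X s)) := by
    intro i s
    obtain ⟨B, hB⟩ := hb _ (Finset.mem_image_of_mem _ (Finset.mem_univ (i, s)))
    refine ⟨B, ?_⟩
    rw [hB, Algebra.smul_def]
  choose B hB using hb'
  have hbne : (b : A) ≠ 0 := nonZeroDivisors.ne_zero b.2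
  have hsum : ∀ i l, ∑ s, B i s * pderiv s (W (j l)) = if i = l then (b : A) else 0 := by
    intro i l
    apply hAi
    have h1 : y' (j l) = aeval (fun s => algebraMap A FR (X s)) (W (j l)) := by
      have h2 := MvPolynomial.comp_aeval_apply (f := (X : Fin m → A))
        (IsScalarTower.toAlgHom k A FR) (W (j l))
      rw [aeval_X_left_apply] at h2
      exact h2
    have h3 := hD i l
    rw [h1, der_aeval'] at h3
    have h4 : ∀ P : A, aeval (fun s => algebraMap A FR (X s)) P = algebraMap A FR P := by
      intro P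
      have h2 := MvPolynomial.comp_aeval_apply (f := (X : Fin m → A))
        (IsScalarTower.toAlgHom k A FR) P
      rw [aeval_X_left_apply] at h2
      exact h2.symm
    simp only [h4] at h3
    rw [map_sum]
    have h5 : ∑ s, algebraMap A FR (B i s * pderiv s (W (j l))) =
        algebraMap A FR (b : A) * ∑ s, D i (algebraMap A FR (X s)) *
          algebraMap A FR (pderiv s (W (j l))) := by
      rw [Finset.mul_sum]
      refine Finset.sum_congr rfl fun s _ => ?_
      rw [map_mul, hB, mul_assoc]
    rw [h5, h3]
    split_ifs with h6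
    · rw [mul_one]
    · rw [mul_zero, map_zero]
  obtain ⟨a, ha⟩ : ∃ a : Fin m → k, eval a (b : A) ≠ 0 := by
    by_contra hcon
    push Not at hcon
    exact hbne (MvPolynomial.funext fun a => by rw [hcon a, map_zero])
  -- the subspace
  let v : Fin m → MvPolynomial (Fin w) k := fun s => C (a s) + ∑ i, C (eval a (B i s)) * X i
  let V : Fin (N + 1) → MvPolynomial (Fin w) k := fun j => aeval v (W j)
  have hV0 : V 0 = 1 := by
    change aeval v (W 0) = 1
    rw [hW0, map_one]
  have hVz : ∀ G : MvPolynomial (Fin (N + 1)) k, IsForm G → W602.GT.val y G = 0 →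
      aeval V G = 0 := by
    intro G hG h
    have h1 := (hrel G hG).1 h
    have h2 := MvPolynomial.comp_aeval_apply (f := W)
      (aeval v : MvPolynomial (Fin m) k →ₐ[k] MvPolynomial (Fin w) k) G
    rw [h1, map_zero] at h2
    exact h2.symm
  let A2 := MvPolynomial (Fin w) k
  let FR2 := FractionRing A2
  have hAi2 : Function.Injective (algebraMap A2 FR2) := IsFractionRing.injective _ _
  let y2 : Fin (N + 1) → FR2 := fun j => algebraMap A2 FR2 (V j)
  have hy20 : y2 0 = 1 := by
    change algebraMap A2 FR2 (V 0) = 1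
    rw [hV0, map_one]
  have hval2 : ∀ G : MvPolynomial (Fin (N + 1)) k,
      W602.GT.val y2 G = algebraMap A2 FR2 (aeval V G) := fun G =>
    (MvPolynomial.comp_aeval_apply (f := V) (IsScalarTower.toAlgHom k A2 FR2) G).symm
  obtain ⟨D2, hD2⟩ := exists_pd (k := k) w
  have hpv : ∀ i s, pderiv i (v s) = C (eval a (B i s)) := by
    intro i s
    change pderiv i (C (a s) + ∑ i, C (eval a (B i s)) * X i) = _
    rw [map_add, pderiv_C, zero_add, map_sum, Finset.sum_eq_single i]
    · rw [pderiv_C_mul, pderiv_X_self, mul_one]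
    · intro i' _ hi'
      rw [pderiv_C_mul, pderiv_X_of_ne hi', mul_zero]
    · intro h
      exact absurd (Finset.mem_univ _) h
  have hchain : ∀ i (P : MvPolynomial (Fin m) k), pderiv i (aeval v P) =
      ∑ s, C (eval a (B i s)) * aeval v (pderiv s P) := by
    intro i P
    apply hAi2
    have h1 : ∀ Q : MvPolynomial (Fin m) k, algebraMap A2 FR2 (aeval v Q) =
        aeval (fun s => algebraMap A2 FR2 (v s)) Q := fun Q =>
      MvPolynomial.comp_aeval_apply (f := v) (IsScalarTower.toAlgHom k A2 FR2) Q
    rw [← hD2, h1, der_aeval', map_sum]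
    refine Finset.sum_congr rfl fun s _ => ?_
    rw [hD2, hpv, map_mul, h1]
  have hev : ∀ P : MvPolynomial (Fin m) k, eval (0 : Fin w → k) (aeval v P) = eval a P := by
    intro P
    have h1 := MvPolynomial.comp_aeval_apply (f := v)
      (aeval (0 : Fin w → k) : MvPolynomial (Fin w) k →ₐ[k] k) P
    rw [aeval_eq_eval, aeval_eq_eval] at h1
    refine h1.trans ?_
    have h2 : (fun i => eval (0 : Fin w → k) (v i)) = a := by
      funext s
      change eval 0 (C (a s) + ∑ i, C (eval a (B i s)) * X i) = a s
      rw [map_add, eval_C, map_sum, Finset.sum_eq_zero, add_zero]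
      intro i _
      rw [map_mul, eval_X, Pi.zero_apply, mul_zero]
    rw [h2]
  have hdet : AlgebraicIndependent k (fun l => y2 (j l) / y2 0) := by
    have h1 : (fun l => y2 (j l) / y2 0) = fun l => y2 (j l) := by
      funext l
      rw [hy20, div_one]
    rw [h1]
    apply jac_indep D2
    intro hdet0
    have h2 : (Matrix.of fun i l => pderiv i (V (j l)) : Matrix (Fin w) (Fin w) A2).det = 0 := by
      apply hAi2
      rw [map_zero, RingHom.map_det, ← hdet0]
      congr 1
      ext i l
      rw [RingHom.mapMatrix_apply, Matrix.map_apply, Matrix.of_apply, Matrix.of_apply]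
      change _ = D2 i (algebraMap A2 FR2 (V (j l)))
      rw [hD2]
    have h3 := congrArg (eval (0 : Fin w → k)) h2
    rw [map_zero, RingHom.map_det] at h3
    have h4 : (eval (0 : Fin w → k)).mapMatrix
        (Matrix.of fun i l => pderiv i (V (j l)) : Matrix (Fin w) (Fin w) A2) =
        (eval a (b : A)) • (1 : Matrix (Fin w) (Fin w) k) := by
      ext i l
      rw [RingHom.mapMatrix_apply, Matrix.map_apply, Matrix.of_apply, Matrix.smul_apply,
        Matrix.one_apply]
      change eval 0 (pderiv i (aeval v (W (j l)))) = _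
      rw [hchain, map_sum]
      have h5 : ∀ s, eval (0 : Fin w → k) (C (eval a (B i s)) * aeval v (pderiv s (W (j l)))) =
          eval a (B i s * pderiv s (W (j l))) := by
        intro s
        rw [map_mul, eval_C, hev, map_mul]
      simp only [h5]
      rw [← map_sum, hsum]
      split_ifs with h6
      · rw [smul_eq_mul, mul_one]
      · rw [map_zero, smul_zero]
    rw [h4, Matrix.det_smul, Matrix.det_one, mul_one] at h3
    exact pow_ne_zero _ ha h3
  refine ⟨V, hV0, fun G hG => ?_⟩
  rw [spec_iff (k := k) h0 (by rw [hy20]; exact one_ne_zero) (fun G hG h => by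
    rw [hval2, hVz G hG h, map_zero]) hj hdet G hG, hval2, map_eq_zero_iff _ hAi2]

omit [CharZero k] in
/-- **Affine lines from parametrizations over the base field.** -/
theorem affine_of_dom {y : Fin (N + 1) → K} {m' : ℕ}
    {W : Fin (N + 1) → MvPolynomial (Fin (m' + 1)) k}
    (hW0 : W 0 = 1) (hW : ∃ j, ∀ c, W j ≠ C c)
    (hrel : ∀ G : MvPolynomial (Fin (N + 1)) k, IsForm G →
      (W602.GT.val y G = 0 ↔ aeval W G = 0)) : AffineFamily {0} (k := k) y m' := by
  classical
  obtain ⟨j1, hj1⟩ := hW
  obtain ⟨i, hi⟩ : ∃ i : Fin (m' + 1), (W j1).degreeOf i ≠ 0 := by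
    by_contra hcon
    push Not at hcon
    refine hj1 _ (vars_eq_empty_iff_eq_C.1 ?_)
    rw [Finset.eq_empty_iff_forall_notMem]
    intro i hi
    exact mem_vars_iff_degreeOf_ne_zero.1 hi (hcon i)
  let e : Equiv.Perm (Fin (m' + 1)) := Equiv.swap 0 i
  have hei : e i = 0 := Equiv.swap_apply_right 0 i
  let A' := MvPolynomial (Fin m') k
  let L := FractionRing A'
  have hAL : Function.Injective (algebraMap A' L) := IsFractionRing.injective _ _
  let θ : MvPolynomial (Fin (m' + 1)) k →+* Polynomial L :=
    (Polynomial.mapRingHom (algebraMap A' L)).comp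
      ((finSuccEquiv k m' : MvPolynomial (Fin (m' + 1)) k →+* Polynomial A').comp
        (rename e : MvPolynomial (Fin (m' + 1)) k →ₐ[k] _).toRingHom)
  have hθ : ∀ P, θ P = (finSuccEquiv k m' (rename e P)).map (algebraMap A' L) := fun P => rfl
  have hθi : Function.Injective θ := by
    refine (Polynomial.map_injective _ hAL).comp ?_
    refine (finSuccEquiv k m').injective.comp ?_
    exact rename_injective _ e.injective
  have hθk : ∀ c : k, θ (algebraMap k _ c) = algebraMap k (Polynomial L) c := by
    intro c
    have h1 : algebraMap k (MvPolynomial (Fin (m' + 1)) k) c = C c := rfl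
    rw [h1, hθ, rename_C]
    have h2 : finSuccEquiv k m' (C c) = Polynomial.C (C c) := (finSuccEquiv k m').commutes c
    rw [h2, Polynomial.map_C]
    have h3 : algebraMap k (Polynomial L) c = Polynomial.C (algebraMap k L c) := rfl
    rw [h3, IsScalarTower.algebraMap_apply k A' L]
    rfl
  have htop : IntermediateField.adjoin k (Set.range fun s : Fin m' => algebraMap A' L (X s)) =
      ⊤ := by
    rw [eq_top_iff]
    intro x _
    obtain ⟨p, q, hq, rfl⟩ := IsFractionRing.div_surjective (A := A') x
    have h1 : ∀ P : A', algebraMap A' L P ∈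
        IntermediateField.adjoin k (Set.range fun s : Fin m' => algebraMap A' L (X s)) := by
      intro P
      induction P using MvPolynomial.induction_on with
      | C c =>
        have h2 : algebraMap A' L (C c) = algebraMap k L c :=
          (IsScalarTower.algebraMap_apply k A' L c).symm
        rw [h2]
        exact IntermediateField.algebraMap_mem _ _
      | add P Q hP hQ =>
        rw [map_add]
        exact add_mem hP hQ
      | mul_X P s hP =>
        rw [map_mul]
        exact mul_mem hP (IntermediateField.subset_adjoin _ _ ⟨s, rfl⟩)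
    exact div_mem (h1 p) (h1 q)
  have hdim : Algebra.trdeg k L = m' := by
    have h1 : IsTranscendenceBasis k (algebraMap A' L ∘ (X : Fin m' → A')) := by
      have halg : Algebra.IsAlgebraic A' L := IsLocalization.isAlgebraic _ (nonZeroDivisors A')
      exact (IsTranscendenceBasis.mvPolynomial (Fin m') k).algebraMap_comp
    have h2 := h1.lift_cardinalMk_eq_trdeg
    rw [Cardinal.mk_fin] at h2
    simpa using h2.symm
  refine ⟨L, inferInstance, inferInstance, fun j => θ (W j), ⟨_, Set.finite_range _, htop⟩, hdim,
    ?_, ⟨j1, ?_⟩, ?_, ?_⟩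
  · rw [Ideal.eq_top_iff_one]
    refine Ideal.subset_span ⟨0, ?_⟩
    change θ (W 0) = 1
    rw [hW0, map_one]
  · change 0 < (θ (W j1)).natDegree
    rw [hθ, Polynomial.natDegree_map_eq_of_injective hAL, natDegree_finSuccEquiv, ← hei,
      degreeOf_rename_of_injective e.injective]
    exact Nat.pos_of_ne_zero hi
  · rintro j rfl
    refine ⟨1, one_ne_zero, ?_⟩
    change θ (W 0) = Polynomial.C 1
    rw [hW0, map_one, Polynomial.C_1]
  · intro G hG
    rw [hrel G hG]
    have h1 := hom_aeval (k := k) θ hθk W G
    rw [← h1, map_eq_zero_iff θ hθi]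

/-- a nonconstant coordinate -/
theorem nonconst_of_dim {y : Fin (N + 1) → K} (h0 : y 0 ≠ 0) (hgen : coords k y = ⊤)
    (hdim : Algebra.trdeg k K = w) (hw : 0 < w) {σ : Type}
    {W : Fin (N + 1) → MvPolynomial σ k} (hW0 : W 0 = 1)
    (hrel : ∀ G : MvPolynomial (Fin (N + 1)) k, IsForm G →
      (W602.GT.val y G = 0 ↔ aeval W G = 0)) : ∃ j, ∀ c, W j ≠ C c := by
  classical
  by_contra hcon
  push Not at hcon
  choose c hc using hcon
  have h1 : ∀ j, y j = algebraMap k K (c j) * y 0 := by
    intro j
    have h2 : W602.GT.val y (X j - C (c j) * X 0 : MvPolynomial (Fin (N + 1)) k) = 0 := by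
      rw [hrel _ ⟨1, (isHomogeneous_X _ _).sub (by
        have := (isHomogeneous_C (Fin (N + 1)) (c j)).mul (isHomogeneous_X k (0 : Fin (N + 1)))
        simpa using this)⟩]
      rw [map_sub, map_mul, aeval_X, aeval_X, aeval_C, hc, hW0, mul_one]
      exact sub_self _
    unfold W602.GT.val at h2
    rw [map_sub, map_mul, aeval_X, aeval_X, aeval_C] at h2
    exact sub_eq_zero.1 h2
  have h2 : coords k y ≤ ⊥ := by
    unfold coords
    rw [IntermediateField.adjoin_le_iff]
    rintro _ ⟨i, j, hj, rfl⟩
    rw [h1 i, h1 j, mul_div_mul_right _ _ h0, ← map_div₀]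
    exact (⊥ : IntermediateField k K).algebraMap_mem _
  rw [hgen, top_le_iff] at h2
  have h3 : Algebra.IsAlgebraic k K := by
    refine ⟨fun x => ?_⟩
    have h4 : x ∈ (⊥ : IntermediateField k K) := by
      rw [h2]
      exact IntermediateField.mem_top
    obtain ⟨c', rfl⟩ := IntermediateField.mem_bot.1 h4
    exact isAlgebraic_algebraMap _
  rw [trdeg_eq_zero] at hdim
  have h5 : w = 0 := by exact_mod_cast hdim.symm
  omega

end Pool.Agent.X316.ZU
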