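import Pool.Agent.TH8.UNI.Uni
import Pool.Agent.TH466.QT.Den
import Pool.Agent.Y377.IL.Cov

/-!
Descent of unirationality: a projective variety over an algebraically closed subfield of `ℂ` which
is unirational over `ℂ` is unirational over the subfield.
-/

set_option autoImplicit false

open MvPolynomial

namespace Pool.Agent.X316.ZU

open Pool.Agent.W602.GT (IsForm coords)
open Pool.Agent.TH143.GT (FunField)
open Pool.Agent.Y377.IL (algI mem_algI)
open Pool.Agent.TH8.UNI (exists_param exists_coord_basis dual_der der_quot exists_pd jac_indep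
  spec_iff der_aeval)

/-- specialization of complex numbers -/
theorem exists_spec {k σ : Type} [Field k] [IsAlgClosed k] [Algebra k ℂ] [Finite σ] (c : σ → ℂ)
    (F : MvPolynomial σ k) (hF : aeval c F ≠ 0) :
    ∃ a : σ → k, (∀ G : MvPolynomial σ k, aeval c G = 0 → eval a G = 0) ∧ eval a F ≠ 0 := by
  let P : Ideal (MvPolynomial σ k) := RingHom.ker (aeval c : MvPolynomial σ k →ₐ[k] ℂ)
  have hP : P.IsPrime := RingHom.ker_isPrime _
  have h1 := MvPolynomial.IsPrime.vanishingIdeal_zeroLocus (K := k) P
  have h2 : F ∉ vanishingIdeal k (zeroLocus k P) := by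
    rw [h1]
    exact hF
  rw [mem_vanishingIdeal_iff] at h2
  push Not at h2
  obtain ⟨a, ha, hne⟩ := h2
  refine ⟨a, fun G hG => ?_, ?_⟩
  · have h3 := (mem_zeroLocus_iff.1 ha) G hG
    rwa [aeval_eq_eval] at h3
  · rwa [aeval_eq_eval] at hne

/-- the Jacobian matrix of a parametrization -/
noncomputable def jacM {R : Type} [CommRing R] {N w : ℕ} (W : Fin (N + 1) → MvPolynomial (Fin w) R)
    (i0 : Fin (N + 1)) (j : Fin w → Fin (N + 1)) :
    Matrix (Fin w) (Fin w) (MvPolynomial (Fin w) R) :=
  Matrix.of fun i l => pderiv i (W (j l)) * W i0 - W (j l) * pderiv i (W i0)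

theorem jacM_map {R S : Type} [CommRing R] [CommRing S] (f : R →+* S) {N w : ℕ}
    (W : Fin (N + 1) → MvPolynomial (Fin w) R) (i0 : Fin (N + 1)) (j : Fin w → Fin (N + 1)) :
    MvPolynomial.map f (jacM W i0 j).det = (jacM (fun i => MvPolynomial.map f (W i)) i0 j).det := by
  rw [RingHom.map_det]
  congr 1
  ext i l : 2
  rw [RingHom.mapMatrix_apply, Matrix.map_apply]
  unfold jacM
  rw [Matrix.of_apply, Matrix.of_apply, map_sub, map_mul, map_mul, pderiv_map, pderiv_map]

/-- the Jacobian criterion for a polynomial parametrization: independence from the determinant -/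
theorem indep_of_jacM {k : Type} [Field k] [CharZero k] {N w : ℕ}
    (W : Fin (N + 1) → MvPolynomial (Fin w) k) (i0 : Fin (N + 1)) (j : Fin w → Fin (N + 1))
    (h0 : W i0 ≠ 0) (hdet : (jacM W i0 j).det ≠ 0) :
    AlgebraicIndependent k (fun l => algebraMap _ (FractionRing (MvPolynomial (Fin w) k)) (W (j l)) /
      algebraMap _ (FractionRing (MvPolynomial (Fin w) k)) (W i0)) := by
  classical
  let FR := FractionRing (MvPolynomial (Fin w) k)
  have hinj : Function.Injective (algebraMap (MvPolynomial (Fin w) k) FR) :=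
    IsFractionRing.injective _ _
  have h0' : algebraMap _ FR (W i0) ≠ 0 := by
    rw [Ne, map_eq_zero_iff _ hinj]
    exact h0
  obtain ⟨D', hD'⟩ := exists_pd (k := k) w
  apply jac_indep D'
  intro hdet0
  apply hdet
  apply hinj
  rw [map_zero, RingHom.map_det]
  have h2 : (algebraMap (MvPolynomial (Fin w) k) FR).mapMatrix (jacM W i0 j) =
      (algebraMap _ FR (W i0) ^ 2) • Matrix.of fun i l =>
        D' i (algebraMap _ FR (W (j l)) / algebraMap _ FR (W i0)) := by
    ext i l
    unfold jacM
    rw [RingHom.mapMatrix_apply, Matrix.map_apply, Matrix.smul_apply, Matrix.of_apply,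
      Matrix.of_apply, smul_eq_mul, ← der_quot (D' i) h0', map_sub, map_mul, map_mul, hD', hD']
  rw [h2, Matrix.det_smul, hdet0, mul_zero]

/-- the Jacobian criterion for a polynomial parametrization: the determinant from independence -/
theorem jacM_of_indep {k : Type} [Field k] [CharZero k] {N w : ℕ}
    (W : Fin (N + 1) → MvPolynomial (Fin w) k) (i0 : Fin (N + 1)) (j : Fin w → Fin (N + 1))
    (h0 : W i0 ≠ 0)
    (hind : AlgebraicIndependent k (fun l =>
      algebraMap _ (FractionRing (MvPolynomial (Fin w) k)) (W (j l)) /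
      algebraMap _ (FractionRing (MvPolynomial (Fin w) k)) (W i0))) :
    (jacM W i0 j).det ≠ 0 := by
  classical
  let FR := FractionRing (MvPolynomial (Fin w) k)
  have hinj : Function.Injective (algebraMap (MvPolynomial (Fin w) k) FR) :=
    IsFractionRing.injective _ _
  have h0' : algebraMap _ FR (W i0) ≠ 0 := by
    rw [Ne, map_eq_zero_iff _ hinj]
    exact h0
  obtain ⟨D, hD⟩ := dual_der hind
  have hP : ∀ P : MvPolynomial (Fin w) k, algebraMap _ FR P =
      aeval (fun l => algebraMap (MvPolynomial (Fin w) k) FR (X l)) P := by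
    intro P
    have h1 := MvPolynomial.comp_aeval_apply (f := (X : Fin w → MvPolynomial (Fin w) k))
      (IsScalarTower.toAlgHom k (MvPolynomial (Fin w) k) FR) P
    rw [MvPolynomial.aeval_X_left_apply] at h1
    exact h1
  have hDP : ∀ i (P : MvPolynomial (Fin w) k), D i (algebraMap _ FR P) =
      ∑ l, D i (algebraMap (MvPolynomial (Fin w) k) FR (X l)) * algebraMap _ FR (pderiv l P) := by
    intro i P
    rw [hP, der_aeval]
    refine Finset.sum_congr rfl fun l _ => ?_
    rw [← hP]
  intro hdet
  have h3 : (Matrix.of fun i l => D i (algebraMap (MvPolynomial (Fin w) k) FR (X l))) *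
      (algebraMap (MvPolynomial (Fin w) k) FR).mapMatrix (jacM W i0 j) =
      (algebraMap _ FR (W i0) ^ 2) • (1 : Matrix (Fin w) (Fin w) FR) := by
    ext i l
    rw [Matrix.mul_apply, Matrix.smul_apply, Matrix.one_apply, smul_eq_mul]
    have h4 := der_quot (D i) (a := algebraMap _ FR (W (j l))) h0'
    rw [hD, hDP, hDP, Finset.sum_mul, Finset.mul_sum, ← Finset.sum_sub_distrib] at h4
    rw [← h4]
    refine Finset.sum_congr rfl fun m _ => ?_
    unfold jacM
    rw [RingHom.mapMatrix_apply, Matrix.map_apply, Matrix.of_apply, Matrix.of_apply, map_sub,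
      map_mul, map_mul]
    ring
  have h5 := congrArg Matrix.det h3
  rw [Matrix.det_mul, ← RingHom.map_det, hdet, map_zero, mul_zero, Matrix.det_smul,
    Matrix.det_one, mul_one] at h5
  exact pow_ne_zero _ (pow_ne_zero 2 h0') h5.symm

/-- **Descent of unirationality.** -/
theorem unirational_descent {k : Type} [Field k] [IsAlgClosed k] [CharZero k] [Algebra k ℂ]
    {N w : ℕ} {K : Type} [Field K] [Algebra k K] {x : Fin (N + 1) → K} (hx : x ≠ 0)
    (hgen : coords k x = ⊤) (hw : Algebra.trdeg k K = w)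
    {L : Type} [Field L] [Algebra ℂ L] {y : Fin (N + 1) → L} (hy0 : y ≠ 0)
    (hygen : coords ℂ y = ⊤) (hyw : Algebra.trdeg ℂ L = w)
    (hbc : ∀ G : MvPolynomial (Fin (N + 1)) k, IsForm G →
      (W602.GT.val x G = 0 ↔ W602.GT.val y (MvPolynomial.map (algebraMap k ℂ) G) = 0))
    (h : Nonempty (L →ₐ[ℂ] FractionRing (MvPolynomial (Fin w) ℂ))) :
    Nonempty (K →ₐ[k] FractionRing (MvPolynomial (Fin w) k)) := by
  classical
  obtain ⟨φ⟩ := h
  obtain ⟨W, hW⟩ := exists_param hy0 φ
  obtain ⟨i0, h0⟩ : ∃ i, x i ≠ 0 := Function.ne_iff.1 hx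
  obtain ⟨j, hj⟩ := exists_coord_basis hgen hw h0
  let _ : Algebra k L := ((algebraMap ℂ L).comp (algebraMap k ℂ)).toAlgebra
  have _ : IsScalarTower k ℂ L := IsScalarTower.of_algebraMap_eq fun _ => rfl
  have hval : ∀ G : MvPolynomial (Fin (N + 1)) k,
      W602.GT.val y (MvPolynomial.map (algebraMap k ℂ) G) = W602.GT.val y G := by
    intro G
    unfold W602.GT.val
    rw [aeval_map_algebraMap]
  have hy0' : y i0 ≠ 0 := by
    intro h1
    apply h0
    have h2 := (hbc (X i0) ⟨1, isHomogeneous_X _ _⟩).2 (by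
      rw [map_X]
      unfold W602.GT.val
      rw [aeval_X, h1])
    unfold W602.GT.val at h2
    rwa [aeval_X] at h2
  obtain ⟨ψ, hψ⟩ := W602.GT.exists_embedding h0 hy0' hgen fun G hG => by
    rw [hbc G hG, hval]
  -- the coordinates over `ℂ`
  let A := Algebra.adjoin ℂ (Set.range fun l => y (j l) / y i0)
  have hA0 : Algebra.adjoin k (Set.range fun l => x (j l) / x i0) ≤
      (A.restrictScalars k).comap ψ := by
    rw [Algebra.adjoin_le_iff]
    rintro _ ⟨l, rfl⟩
    change ψ (x (j l) / x i0) ∈ A
    rw [hψ]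
    exact Algebra.subset_adjoin ⟨l, rfl⟩
  let f : Algebra.adjoin k (Set.range fun l => x (j l) / x i0) →+* A :=
    RingHom.codRestrict ((ψ : K →+* L).comp (Subalgebra.val _ : _ →ₐ[k] K).toRingHom) A
      fun a => hA0 a.2
  have hfinj : Function.Injective f := by
    intro a b hab
    have h1 : ψ a = ψ b := congrArg Subtype.val hab
    exact Subtype.ext ((ψ : K →+* L).injective h1)
  have halg : ∀ i, IsAlgebraic A (y i / y i0) := by
    intro i
    rw [← hψ]
    exact (hj.isAlgebraic.isAlgebraic (x i / x i0)).ringHom_of_comp_eq f (ψ : K →+* L) hfinj rfl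
  have htop : coords ℂ y ≤ algI A := by
    unfold coords
    rw [IntermediateField.adjoin_le_iff]
    rintro _ ⟨i, l, hl, rfl⟩
    have h4 : y i / y l = (y i / y i0) / (y l / y i0) := by
      field_simp
    rw [h4]
    exact div_mem (mem_algI.2 (halg i)) (mem_algI.2 (halg l))
  have hAalg : Algebra.IsAlgebraic A L := by
    refine ⟨fun t => ?_⟩
    have h1 : t ∈ algI A := htop (by rw [hygen]; exact IntermediateField.mem_top)
    exact mem_algI.1 h1
  have hbas : IsTranscendenceBasis ℂ (fun l => y (j l) / y i0) :=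
    Algebra.IsAlgebraic.isTranscendenceBasis_of_le_trdeg_of_finite ℂ _ (by rw [hyw, Cardinal.mk_fin])
  -- the parametrization
  let FR := FractionRing (MvPolynomial (Fin w) ℂ)
  have hinjF : Function.Injective (algebraMap (MvPolynomial (Fin w) ℂ) FR) :=
    IsFractionRing.injective _ _
  let Y : Fin (N + 1) → FR := fun i => algebraMap _ FR (W i)
  have hYval : ∀ G : MvPolynomial (Fin (N + 1)) ℂ, W602.GT.val Y G = algebraMap _ FR (aeval W G) := by
    intro G
    unfold W602.GT.val
    have h2 := MvPolynomial.comp_aeval_apply (f := W)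
      (IsScalarTower.toAlgHom ℂ (MvPolynomial (Fin w) ℂ) FR) G
    exact h2.symm
  have hrelY : ∀ G : MvPolynomial (Fin (N + 1)) ℂ, IsForm G →
      (W602.GT.val y G = 0 ↔ W602.GT.val Y G = 0) := by
    intro G hG
    rw [hW G hG, hYval, map_eq_zero_iff _ hinjF]
  have hW0 : W i0 ≠ 0 := by
    intro h1
    apply hy0'
    have h2 := (hW (X i0) ⟨1, isHomogeneous_X _ _⟩).2 (by rw [aeval_X, h1])
    unfold W602.GT.val at h2
    rwa [aeval_X] at h2
  have hY0 : Y i0 ≠ 0 := by
    change algebraMap _ FR (W i0) ≠ 0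
    rw [Ne, map_eq_zero_iff _ hinjF]
    exact hW0
  obtain ⟨φ', hφ'⟩ := W602.GT.exists_embedding hy0' hY0 hygen hrelY
  have hind : AlgebraicIndependent ℂ (fun l => Y (j l) / Y i0) := by
    have h1 := hbas.1.map' (f := φ') (φ' : L →+* FR).injective
    have h2 : φ' ∘ (fun l => y (j l) / y i0) = fun l => Y (j l) / Y i0 := funext fun l => hφ' _
    rwa [h2] at h1
  have hdet := jacM_of_indep W i0 j hW0 hind
  -- universal coefficients
  let E : Finset (Fin w →₀ ℕ) := Finset.univ.biUnion fun i => (W i).support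
  let c : Fin (N + 1) × E → ℂ := fun v => (W v.1).coeff v.2
  let WW : Fin (N + 1) → MvPolynomial (Fin w) (MvPolynomial (Fin (N + 1) × E) k) := fun i =>
    ∑ e : E, monomial (e : Fin w →₀ ℕ) (X (i, e))
  have hWW : ∀ i, MvPolynomial.map (aeval c : MvPolynomial (Fin (N + 1) × E) k →ₐ[k] ℂ).toRingHom
      (WW i) = W i := by
    intro i
    simp only [WW, map_sum, map_monomial]
    have h1 : ∀ e : E, (aeval c : MvPolynomial (Fin (N + 1) × E) k →ₐ[k] ℂ).toRingHom (X (i, e)) =
        (W i).coeff e := fun e => aeval_X c (i, e)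
    simp only [h1]
    rw [Finset.sum_coe_sort E (fun e => monomial e ((W i).coeff e))]
    conv_rhs => rw [← support_sum_monomial_coeff (W i)]
    symm
    apply Finset.sum_subset
    · intro e he
      exact Finset.mem_biUnion.2 ⟨i, Finset.mem_univ i, he⟩
    · intro e _ he
      rw [notMem_support_iff.1 he, monomial_zero]
  obtain ⟨e, he⟩ : ∃ e, aeval c ((WW i0 * (jacM WW i0 j).det).coeff e) ≠ 0 := by
    by_contra hcon
    push Not at hcon
    have h1 : MvPolynomial.map (aeval c : MvPolynomial (Fin (N + 1) × E) k →ₐ[k] ℂ).toRingHom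
        (WW i0 * (jacM WW i0 j).det) = 0 := by
      ext e
      rw [coeff_map, coeff_zero]
      exact hcon e
    rw [map_mul, jacM_map] at h1
    simp only [hWW] at h1
    exact mul_ne_zero hW0 hdet h1
  obtain ⟨a, ha, hae⟩ := exists_spec c _ he
  let V : Fin (N + 1) → MvPolynomial (Fin w) k := fun i =>
    MvPolynomial.map (eval a : MvPolynomial (Fin (N + 1) × E) k →+* k) (WW i)
  have hne : V i0 * (jacM V i0 j).det ≠ 0 := by
    intro h1
    apply hae
    have h2 : MvPolynomial.map (eval a : MvPolynomial (Fin (N + 1) × E) k →+* k)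
        (WW i0 * (jacM WW i0 j).det) = 0 := by
      rw [map_mul, jacM_map]
      exact h1
    rw [← coeff_map, h2, coeff_zero]
  have hV0 := left_ne_zero_of_mul hne
  let FK := FractionRing (MvPolynomial (Fin w) k)
  have hinjK : Function.Injective (algebraMap (MvPolynomial (Fin w) k) FK) :=
    IsFractionRing.injective _ _
  let Z : Fin (N + 1) → FK := fun i => algebraMap _ FK (V i)
  have hZval : ∀ G : MvPolynomial (Fin (N + 1)) k, W602.GT.val Z G = algebraMap _ FK (aeval V G) := by
    intro G
    unfold W602.GT.val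
    have h2 := MvPolynomial.comp_aeval_apply (f := V)
      (IsScalarTower.toAlgHom k (MvPolynomial (Fin w) k) FK) G
    exact h2.symm
  have hZ0 : Z i0 ≠ 0 := by
    change algebraMap _ FK (V i0) ≠ 0
    rw [Ne, map_eq_zero_iff _ hinjK]
    exact hV0
  have hspec : ∀ G : MvPolynomial (Fin (N + 1)) k, IsForm G →
      W602.GT.val x G = 0 → W602.GT.val Z G = 0 := by
    intro G hG hv
    have h1 := (hbc G hG).1 hv
    rw [hW _ (by
      obtain ⟨d, hd⟩ := hG
      exact ⟨d, hd.map _⟩)] at h1
    have h2 : ∀ {R : Type} [CommRing R] [Algebra k R] (g : MvPolynomial (Fin (N + 1) × E) k →ₐ[k] R),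
        MvPolynomial.map g.toRingHom (aeval WW G) =
        aeval (fun i => MvPolynomial.map g.toRingHom (WW i)) G := by
      intro R _ _ g
      exact MvPolynomial.comp_aeval_apply (f := WW) (mapAlgHom g) G
    have h3 : MvPolynomial.map (aeval c : MvPolynomial (Fin (N + 1) × E) k →ₐ[k] ℂ).toRingHom
        (aeval WW G) = 0 := by
      rw [h2]
      simp only [hWW]
      rw [← h1, aeval_map_algebraMap]
    have h4 : aeval V G = 0 := by
      have h5 := h2 (aeval a : MvPolynomial (Fin (N + 1) × E) k →ₐ[k] k)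
      have h6 : (aeval a : MvPolynomial (Fin (N + 1) × E) k →ₐ[k] k).toRingHom =
          (eval a : MvPolynomial (Fin (N + 1) × E) k →+* k) := by
        ext <;> simp
      rw [h6] at h5
      have h7 : aeval V G = MvPolynomial.map (eval a : MvPolynomial (Fin (N + 1) × E) k →+* k)
        (aeval WW G) := h5.symm
      rw [h7]
      ext e
      rw [coeff_map, coeff_zero]
      apply ha
      have h8 := congrArg (coeff e) h3
      rw [coeff_map, coeff_zero] at h8
      exact h8
    rw [hZval, h4, map_zero]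
  obtain ⟨χ, -⟩ := W602.GT.exists_embedding h0 hZ0 hgen fun G hG =>
    spec_iff h0 hZ0 hspec hj (indep_of_jacM V i0 j hV0 (right_ne_zero_of_mul hne)) G hG
  exact ⟨χ⟩

end Pool.Agent.X316.ZU
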