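import Mathlib

/-!
Embeddings in the fields of rational functions in several variables.
-/

set_option autoImplicit false

open Polynomial

namespace Pool.Agent.X316.ZU

/-- the field of rational functions in `m` variables -/
abbrev RF (m : ℕ) : Type := FractionRing (MvPolynomial (Fin m) ℂ)

theorem fin_indep {m : ℕ} (R : (MvPolynomial (Fin m) ℂ)[X])
    (h : R.eval₂ (MvPolynomial.rename (R := ℂ) (Fin.succ : Fin m → Fin (m + 1))).toRingHom
      (MvPolynomial.X 0) = 0) : R = 0 := by
  have h1 : ((MvPolynomial.finSuccEquiv ℂ m : MvPolynomial (Fin (m + 1)) ℂ →+*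
      (MvPolynomial (Fin m) ℂ)[X])).comp (Polynomial.eval₂RingHom
        (MvPolynomial.rename (R := ℂ) (Fin.succ : Fin m → Fin (m + 1))).toRingHom
          (MvPolynomial.X 0)) = RingHom.id _ := by
    refine Polynomial.ringHom_ext' ?_ ?_
    · refine MvPolynomial.ringHom_ext (fun c => ?_) fun v => ?_
      · simp
        exact (MvPolynomial.finSuccEquiv ℂ m).commutes c
      · simp
        exact MvPolynomial.finSuccEquiv_X_succ
    · simp
      exact MvPolynomial.finSuccEquiv_X_zero
  have h2 := RingHom.congr_fun h1 R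
  rw [RingHom.comp_apply, Polynomial.coe_eval₂RingHom, h, map_zero] at h2
  exact h2.symm

/-- one more variable -/
theorem exists_lift (m : ℕ) : ∃ (j : RF m →ₐ[ℂ] RF (m + 1)) (t : RF (m + 1)),
    ∀ P : (RF m)[X], P ≠ 0 → P.eval₂ j.toRingHom t ≠ 0 := by
  classical
  let A := MvPolynomial (Fin m) ℂ
  let A' := MvPolynomial (Fin (m + 1)) ℂ
  let j0 : A →ₐ[ℂ] A' := MvPolynomial.rename Fin.succ
  have hj0 : Function.Injective j0 := MvPolynomial.rename_injective _ (Fin.succ_injective m)
  let g : A →ₐ[ℂ] RF (m + 1) := (IsScalarTower.toAlgHom ℂ A' (RF (m + 1))).comp j0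
  have hA' : Function.Injective (algebraMap A' (RF (m + 1))) := IsFractionRing.injective _ _
  have hg : Function.Injective g := hA'.comp hj0
  let j : RF m →ₐ[ℂ] RF (m + 1) := IsFractionRing.liftAlgHom (K := RF m) hg
  have hj : ∀ a : A, j (algebraMap A (RF m) a) = g a := fun a =>
    IsFractionRing.lift_algebraMap (K := RF m) hg a
  refine ⟨j, algebraMap A' (RF (m + 1)) (MvPolynomial.X 0), fun P hP h0 => hP ?_⟩
  obtain ⟨b, hbm, hb⟩ := IsLocalization.integerNormalization_spec (nonZeroDivisors A) P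
  set R := IsLocalization.integerNormalization (nonZeroDivisors A) P
  have h1 : R.eval₂ (g : A →+* RF (m + 1)) (algebraMap A' (RF (m + 1)) (MvPolynomial.X 0)) = 0 := by
    have h2 : (g : A →+* RF (m + 1)) = j.toRingHom.comp (algebraMap A (RF m)) :=
      RingHom.ext fun a => (hj a).symm
    rw [h2, ← Polynomial.eval₂_map, hb]
    rw [Algebra.smul_def]
    have h3 : algebraMap A (RF m)[X] b = C (algebraMap A (RF m) b) := rfl
    rw [h3, Polynomial.eval₂_mul, h0, mul_zero]
  have h2 : R = 0 := by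
    apply fin_indep
    apply hA'
    rw [map_zero, Polynomial.hom_eval₂]
    exact h1
  rw [h2, Polynomial.map_zero] at hb
  have hb0 : b ≠ 0 := nonZeroDivisors.ne_zero hbm
  exact (smul_eq_zero.1 hb.symm).resolve_left hb0

/-- **Purely transcendental extensions.** -/
theorem embed_succ {E : Type} [Field E] [Algebra ℂ E] {k₁ : IntermediateField ℂ E} {y : E}
    (hy : Transcendental k₁ y) (htop : IntermediateField.adjoin k₁ {y} = ⊤) {m : ℕ}
    (κ : k₁ →ₐ[ℂ] RF m) : Nonempty (E →ₐ[ℂ] RF (m + 1)) := by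
  classical
  obtain ⟨j, t, hjt⟩ := exists_lift m
  let α0 : (k₁)[X] →+* E := Polynomial.eval₂RingHom (algebraMap k₁ E) y
  have hα0 : Function.Injective α0 := by
    rw [injective_iff_map_eq_zero]
    intro P hP
    by_contra hne
    exact hy ⟨P, hne, hP⟩
  let β0 : (k₁)[X] →+* RF (m + 1) := Polynomial.eval₂RingHom (j.toRingHom.comp κ.toRingHom) t
  have hβ0 : Function.Injective β0 := by
    rw [injective_iff_map_eq_zero]
    intro P hP
    by_contra hne
    have h1 : P.map κ.toRingHom ≠ 0 := by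
      rw [Ne, Polynomial.map_eq_zero]
      exact hne
    apply hjt _ h1
    rw [Polynomial.eval₂_map]
    exact hP
  let α : RatFunc k₁ →+* E := IsFractionRing.lift hα0
  let β : RatFunc k₁ →+* RF (m + 1) := IsFractionRing.lift hβ0
  have hα : ∀ P, α (algebraMap (k₁)[X] (RatFunc k₁) P) = α0 P :=
    IsFractionRing.lift_algebraMap hα0
  have hβ : ∀ P, β (algebraMap (k₁)[X] (RatFunc k₁) P) = β0 P :=
    IsFractionRing.lift_algebraMap hβ0
  have hsur : Function.Surjective α := by
    intro e
    let S : IntermediateField k₁ E :=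
      { carrier := Set.range α
        mul_mem' := by
          rintro _ _ ⟨a, rfl⟩ ⟨b, rfl⟩
          exact ⟨a * b, map_mul _ _ _⟩
        add_mem' := by
          rintro _ _ ⟨a, rfl⟩ ⟨b, rfl⟩
          exact ⟨a + b, map_add _ _ _⟩
        algebraMap_mem' := fun c => ⟨algebraMap (k₁)[X] (RatFunc k₁) (C c), by
          rw [hα]
          exact Polynomial.eval₂_C _ _⟩
        inv_mem' := by
          rintro _ ⟨a, rfl⟩
          exact ⟨a⁻¹, map_inv₀ _ _⟩ }
    have h1 : IntermediateField.adjoin k₁ {y} ≤ S := by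
      rw [IntermediateField.adjoin_simple_le_iff]
      refine ⟨algebraMap (k₁)[X] (RatFunc k₁) X, ?_⟩
      rw [hα]
      exact Polynomial.eval₂_X _ _
    rw [htop] at h1
    exact h1 IntermediateField.mem_top
  let α' : RatFunc k₁ ≃+* E := RingEquiv.ofBijective α ⟨α.injective, hsur⟩
  refine ⟨{ toRingHom := β.comp α'.symm.toRingHom, commutes' := fun c => ?_ }⟩
  have h1 : α'.symm (algebraMap ℂ E c) =
      algebraMap (k₁)[X] (RatFunc k₁) (C (algebraMap ℂ k₁ c)) := by
    rw [RingEquiv.symm_apply_eq]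
    change _ = α _
    rw [hα]
    have h2 : α0 (C (algebraMap ℂ k₁ c)) = algebraMap k₁ E (algebraMap ℂ k₁ c) :=
      Polynomial.eval₂_C _ _
    rw [h2]
    rfl
  change β (α'.symm (algebraMap ℂ E c)) = _
  rw [h1, hβ]
  have h2 : β0 (C (algebraMap ℂ k₁ c)) = j (κ (algebraMap ℂ k₁ c)) := Polynomial.eval₂_C _ _
  rw [h2, AlgHom.commutes, AlgHom.commutes]

end Pool.Agent.X316.ZU
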