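import Pool.Agent.X316.ZU.Fld
import Pool.Agent.X316.ZG.Mfd
import Pool.Agent.Y333.IL.FGS
import Pool.Agent.Y377.IL.Gen

/-!
The fields of meromorphic functions which are algebraic over the derivatives of a jointly universal
family are fields of rational functions on unirational varieties.
-/

set_option autoImplicit false

open Filter Topology Set Polynomial

namespace Pool.Agent.X316.ZU

open Pool.Agent.X316.ZG
open Pool.Agent.TH143.EL (mero_id mero_ne codis_ev freq_of_ev)

variable {ι : Type}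

/-- **The main theorem on fields.** A finitely generated field of meromorphic functions which are
algebraic over the derivatives of a jointly universal family embeds in a field of rational functions
in several variables. -/
theorem fields2 {u : ι → ℂ → ℂ} (hu : JointlyUniversal u) :
    ∀ (n : ℕ) (T : Finset (ι × ℕ)), T.card = n → ∀ (E : Type) [Field E] [Algebra ℂ E]
      (ψ : E →ₐ[ℂ] Mf), (⊤ : IntermediateField ℂ E).FG →
    (∀ e, IsAlgebraic (Algebra.adjoin ℂ ((fun v : ι × ℕ => cl (iteratedDeriv v.2 (u v.1))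
      (meromorphic_iteratedDeriv (hu.mero v.1) v.2)) '' (T : Set (ι × ℕ))) : Subalgebra ℂ Mf)
      (ψ e)) → ∃ m, Nonempty (E →ₐ[ℂ] RF m) := by
  classical
  intro n
  induction n with
  | zero =>
    intro T hT E _ _ ψ hfg h
    have halg : ∀ e : E, IsAlgebraic ℂ e := by
      intro e
      rw [Finset.card_eq_zero] at hT
      subst hT
      have h1 := h e
      rw [Finset.coe_empty, image_empty, Algebra.adjoin_empty] at h1
      have h2 : IsAlgebraic ℂ (ψ e) := by
        obtain ⟨Q, hQ0, hQ⟩ := alg_lift (Algebra.ofId ℂ Mf) (S := ⊥) (by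
          intro x hx
          obtain ⟨c, rfl⟩ := Algebra.mem_bot.1 hx
          exact ⟨c, rfl⟩) h1
        exact ⟨Q, hQ0, hQ⟩
      exact (isAlgebraic_algHom_iff ψ ψ.injective).1 h2
    have h3 : Algebra.IsIntegral ℂ E := ⟨fun e => (halg e).isIntegral⟩
    have h4 := IsAlgClosed.algebraMap_bijective_of_isIntegral (k := ℂ) (K := E)
    let e0 : ℂ ≃ₐ[ℂ] E := AlgEquiv.ofBijective (Algebra.ofId ℂ E) h4
    exact ⟨0, ⟨(Algebra.ofId ℂ (RF 0)).comp e0.symm.toAlgHom⟩⟩
  | succ n ih =>
    intro T hT E _ _ ψ hfg h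
    have hne : T.Nonempty := by
      rw [← Finset.card_pos]
      omega
    obtain ⟨v1, hv1⟩ := hne
    -- the last derivative
    obtain ⟨v0, hv0, hmax⟩ := Finset.exists_max_image (T.filter fun v => v.1 = v1.1)
      (fun v => v.2) ⟨v1, Finset.mem_filter.2 ⟨hv1, rfl⟩⟩
    rw [Finset.mem_filter] at hv0
    obtain ⟨hv0T, hv01⟩ := hv0
    let T' := T.erase v0
    have hT'c : T'.card = n := by
      rw [Finset.card_erase_of_mem hv0T, hT]
      rfl
    have hT' : ∀ v ∈ T', v.1 = v0.1 → v.2 < v0.2 := by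
      intro v hv hv'
      rw [Finset.mem_erase] at hv
      have h1 := hmax v (Finset.mem_filter.2 ⟨hv.2, hv'.trans hv01⟩)
      refine lt_of_le_of_ne h1 fun h2 => hv.1 ?_
      exact Prod.ext hv' h2
    let x : ι × ℕ → ℂ → ℂ := fun v => iteratedDeriv v.2 (u v.1)
    have hx : ∀ v, Meromorphic (x v) := fun v =>
      meromorphic_iteratedDeriv (hu.mero v.1) v.2
    let θ := toMf (fun v : T' => x v) (fun v => hx v) (x v0) (hx v0)
    have hθC : ∀ v : T', θ (Polynomial.C (MvPolynomial.X v)) = cl (x v) (hx v) := by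
      intro v
      simp only [θ, toMf, AlgHom.comp_apply]
      rw [toMer_C, MvPolynomial.aeval_X]
      rfl
    have hθX : θ Polynomial.X = cl (x v0) (hx v0) := by
      simp only [θ, toMf, AlgHom.comp_apply]
      rw [toMer_X]
      rfl
    have hθi : Function.Injective θ := by
      rw [injective_iff_map_eq_zero]
      intro P hP
      exact key_indep hu hT' ((toMf_zero _ _ _ _).1 hP)
    have halg : ∀ e, ∃ Q : (MvPolynomial T' ℂ)[X][X], Q ≠ 0 ∧
        Q.eval₂ θ.toRingHom (ψ e) = 0 := by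
      intro e
      refine alg_lift θ ?_ (h e)
      rw [Algebra.adjoin_le_iff]
      rintro _ ⟨v, hv, rfl⟩
      by_cases hvv : v = v0
      · subst hvv
        exact ⟨Polynomial.X, hθX⟩
      · exact ⟨_, hθC ⟨v, Finset.mem_erase.2 ⟨hvv, hv⟩⟩⟩
    have hKP : ∀ (Φ : (MvPolynomial T' ℂ)[X][X]) (β : Mf), Φ.Monic →
        Φ.eval₂ θ.toRingHom β = 0 → ∃ N B : ℕ, 0 < N ∧
        ∀ r : MvPolynomial T' ℂ, r ≠ 0 → ∃ a : MvPolynomial T' ℂ →+* ℂ, a r ≠ 0 ∧
          ∃ G : ℂ[X], G.natDegree ≤ B ∧ sp Φ a N G = 0 := by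
      intro Φ β hΦ hβ
      obtain ⟨⟨w, hw⟩, rfl⟩ := Ideal.Quotient.mk_surjective β
      refine ⟨Φ.natDegree.factorial, Φ.natDegree.factorial * dg Φ, Nat.factorial_pos _,
        fun r hr => ?_⟩
      have hprod : r * ∏ v : T', (MvPolynomial.X v : MvPolynomial T' ℂ) ≠ 0 :=
        mul_ne_zero hr (Finset.prod_ne_zero_iff.2 fun v _ => MvPolynomial.X_ne_zero v)
      obtain ⟨a, ha⟩ : ∃ a : T' → ℂ,
          MvPolynomial.eval a (r * ∏ v : T', MvPolynomial.X v) ≠ 0 := by
        by_contra hcon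
        push Not at hcon
        exact hprod (MvPolynomial.funext fun a => by rw [hcon a, map_zero])
      rw [map_mul, map_prod] at ha
      simp only [MvPolynomial.eval_X] at ha
      have h3 := right_ne_zero_of_mul ha
      rw [Finset.prod_ne_zero_iff] at h3
      exact ⟨MvPolynomial.eval a, left_ne_zero_of_mul ha,
        key hu hT' hΦ hw (root_toMf _ _ _ _ hβ) a fun v _ => h3 v (Finset.mem_univ v)⟩
    obtain ⟨E₁, _, _, ψ₁, φ1, M, _, _, _, σ, hσ, hE₁, hk⟩ :=
      embed2 (R := MvPolynomial T' ℂ) θ hθi ψ hfg halg hKP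
    obtain ⟨y, c, d, hc, hd, hy, htop⟩ := exists_gen hσ
    have hfg1 : (⊤ : IntermediateField ℂ E₁).FG := IntermediateField.fg_top ℂ E₁
    have hfg2 : (⊤ : IntermediateField ℂ (kone σ)).FG :=
      Pool.Agent.Y377.IL.fg_top_of_fg (Pool.Agent.Y333.IL.t_FGS E₁ hfg1 (kone σ))
    obtain ⟨m, ⟨κ⟩⟩ := ih T' hT'c (kone σ) (ψ₁.comp (kone σ).val) hfg2 fun e => by
      refine alg_unlift (θ.comp (Polynomial.CAlgHom (R := ℂ) (A := MvPolynomial T' ℂ))) ?_ ?_
        (hk e e.2)
      · exact hθi.comp Polynomial.C_injective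
      · rintro _ ⟨P, rfl⟩
        change θ (Polynomial.C P) ∈ _
        induction P using MvPolynomial.induction_on with
        | C c =>
          have h2 : θ (Polynomial.C (MvPolynomial.C c)) = algebraMap ℂ Mf c := θ.commutes c
          rw [h2]
          exact Subalgebra.algebraMap_mem _ _
        | add P Q hP hQ =>
          rw [Polynomial.C_add, map_add]
          exact add_mem hP hQ
        | mul_X P v hP =>
          rw [Polynomial.C_mul, map_mul, hθC]
          exact mul_mem hP (Algebra.subset_adjoin ⟨v, v.2, rfl⟩)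
    obtain ⟨χ⟩ := embed_succ (transc hc hd hy) htop κ
    exact ⟨m + 1, ⟨χ.comp φ1⟩⟩

end Pool.Agent.X316.ZU
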