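import Pool.Agent.X316.ZU.Fields
import Pool.Agent.X316.ZU.Extk
import Pool.Agent.X316.ZE.Good

/-!
The fields of meromorphic functions which are algebraic over the derivatives of a jointly universal
family and a doubly periodic function.
-/

set_option autoImplicit false

open Filter Topology Metric Set Polynomial

namespace Pool.Agent.X316.ZU

open Pool.Agent.X316.ZG Pool.Agent.X316.ZE
open Pool.Agent.X316.ZU.OK (RK)

variable {ι : Type}

/-- **The main theorem on fields.** A finitely generated field of meromorphic functions which are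
algebraic over a doubly periodic function `e` and the derivatives of a jointly universal family
embeds in a field of rational functions in several variables over a field of meromorphic functions
which are algebraic over `ℂ[e]`. -/
theorem fieldsE {u : ι → ℂ → ℂ} (hu : JointlyUniversal u)
    {e : ℂ → ℂ} (he : Meromorphic e) (hper : CoBdd e)
    (hF : ∀ b, ∀ᶠ z in codiscrete ℂ, e z ≠ b) :
    ∀ (n : ℕ) (T : Finset (ι × ℕ)), T.card = n → ∀ (E : Type) [Field E] [Algebra ℂ E]
      (ψ : E →ₐ[ℂ] Mf), (⊤ : IntermediateField ℂ E).FG →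
    (∀ x, IsAlgebraic (Algebra.adjoin ℂ (insert (cl e he) (xc hu.mero '' (T : Set (ι × ℕ)))) :
      Subalgebra ℂ Mf) (ψ x)) →
    ∃ (k : Type) (_ : Field k) (_ : Algebra ℂ k) (ψ₀ : k →ₐ[ℂ] Mf) (m : ℕ),
      (⊤ : IntermediateField ℂ k).FG ∧
      (∀ x, IsAlgebraic (Algebra.adjoin ℂ {cl e he} : Subalgebra ℂ Mf) (ψ₀ x)) ∧
      Nonempty (E →ₐ[ℂ] RK k m) := by
  classical
  intro n
  induction n with
  | zero =>
    intro T hT E _ _ ψ hfg h
    refine ⟨E, inferInstance, inferInstance, ψ, 0, hfg, fun x => ?_,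
      ⟨IsScalarTower.toAlgHom ℂ E (RK E 0)⟩⟩
    rw [Finset.card_eq_zero] at hT
    subst hT
    have h1 := h x
    rw [Finset.coe_empty, image_empty, insert_empty_eq] at h1
    exact h1
  | succ n ih =>
    intro T hT E _ _ ψ hfg h
    have hne : T.Nonempty := by
      rw [← Finset.card_pos]
      omega
    obtain ⟨v1, hv1⟩ := hne
    -- the last derivative
    obtain ⟨v0, hv0, hmax⟩ := Finset.exists_max_image (T.filter fun v => v.1 = v1.1)
      (fun v => v.2) ⟨v1, Finset.mem_filter.2 ⟨hv1, rfl⟩⟩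
    rw [Finset.mem_filter] at hv0
    obtain ⟨hv0T, hv01⟩ := hv0
    let T' := T.erase v0
    have hT'c : T'.card = n := by
      rw [Finset.card_erase_of_mem hv0T, hT]
      rfl
    have hT' : ∀ v ∈ T', v.1 = v0.1 → v.2 < v0.2 := by
      intro v hv hv'
      rw [Finset.mem_erase] at hv
      have h1 := hmax v (Finset.mem_filter.2 ⟨hv.2, hv'.trans hv01⟩)
      refine lt_of_le_of_ne h1 fun h2 => hv.1 ?_
      exact Prod.ext hv' h2
    have hgood := good hu hT' he hper hF
    have hx : ∀ v, Meromorphic (fam e u T' v) := fun v => by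
      rcases v with _ | v
      · exact he
      · exact meromorphic_iteratedDeriv (hu.mero v.1.1) v.1.2
    have hx0 : Meromorphic (iteratedDeriv v0.2 (u v0.1)) :=
      meromorphic_iteratedDeriv (hu.mero v0.1) v0.2
    let θ := toMf (fam e u T') hx (iteratedDeriv v0.2 (u v0.1)) hx0
    have hθC : ∀ v, θ (Polynomial.C (MvPolynomial.X v)) = cl (fam e u T' v) (hx v) := by
      intro v
      simp only [θ, toMf, AlgHom.comp_apply]
      rw [toMer_C, MvPolynomial.aeval_X]
      rfl
    have hθX : θ Polynomial.X = cl _ hx0 := by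
      simp only [θ, toMf, AlgHom.comp_apply]
      rw [toMer_X]
      rfl
    have hθi : Function.Injective θ := by
      rw [injective_iff_map_eq_zero]
      intro P hP
      exact key_indep hgood ((toMf_zero _ _ _ _).1 hP)
    have halg : ∀ x, ∃ Q : (MvPolynomial (Option T') ℂ)[X][X], Q ≠ 0 ∧
        Q.eval₂ θ.toRingHom (ψ x) = 0 := by
      intro x
      refine alg_lift θ ?_ (h x)
      rw [Algebra.adjoin_le_iff]
      rintro y hy
      rcases mem_insert_iff.1 hy with rfl | ⟨v, hv, rfl⟩
      · exact ⟨_, hθC none⟩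
      · by_cases hvv : v = v0
        · subst hvv
          exact ⟨Polynomial.X, hθX⟩
        · exact ⟨_, hθC (some ⟨v, Finset.mem_erase.2 ⟨hvv, hv⟩⟩)⟩
    have hKP : ∀ (Φ : (MvPolynomial (Option T') ℂ)[X][X]) (β : Mf), Φ.Monic →
        Φ.eval₂ θ.toRingHom β = 0 → ∃ N B : ℕ, 0 < N ∧
        ∀ r : MvPolynomial (Option T') ℂ, r ≠ 0 → ∃ a : MvPolynomial (Option T') ℂ →+* ℂ, a r ≠ 0 ∧
          ∃ G : ℂ[X], G.natDegree ≤ B ∧ sp Φ a N G = 0 := by
      intro Φ β hΦ hβ
      obtain ⟨⟨w, hw⟩, rfl⟩ := Ideal.Quotient.mk_surjective β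
      refine ⟨Φ.natDegree.factorial, Φ.natDegree.factorial * dg Φ, Nat.factorial_pos _,
        fun r hr => ?_⟩
      obtain ⟨a, ha, hL⟩ := hgood r hr
      exact ⟨MvPolynomial.eval a, ha, key hL hΦ hw (root_toMf _ _ _ _ hβ)⟩
    obtain ⟨E₁, _, _, ψ₁, φ1, M, _, _, _, σ, hσ, hE₁, hk⟩ :=
      embed2 (R := MvPolynomial (Option T') ℂ) θ hθi ψ hfg halg hKP
    obtain ⟨y, c, d, hc, hd, hy, htop⟩ := exists_gen hσ
    have hfg1 : (⊤ : IntermediateField ℂ E₁).FG := IntermediateField.fg_top ℂ E₁
    have hfg2 : (⊤ : IntermediateField ℂ (kone σ)).FG :=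
      Pool.Agent.Y377.IL.fg_top_of_fg (Pool.Agent.Y333.IL.t_FGS E₁ hfg1 (kone σ))
    obtain ⟨k, _, _, ψ₀, m, hk1, hk2, ⟨κ⟩⟩ := ih T' hT'c (kone σ) (ψ₁.comp (kone σ).val) hfg2
      fun x => by
      refine alg_unlift (θ.comp (Polynomial.CAlgHom (R := ℂ) (A := MvPolynomial (Option T') ℂ)))
        ?_ ?_ (hk x x.2)
      · exact hθi.comp Polynomial.C_injective
      · rintro _ ⟨P, rfl⟩
        change θ (Polynomial.C P) ∈ _
        induction P using MvPolynomial.induction_on with
        | C c =>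
          have h2 : θ (Polynomial.C (MvPolynomial.C c)) = algebraMap ℂ Mf c := θ.commutes c
          rw [h2]
          exact Subalgebra.algebraMap_mem _ _
        | add P Q hP hQ =>
          rw [Polynomial.C_add, map_add]
          exact add_mem hP hQ
        | mul_X P v hP =>
          rw [Polynomial.C_mul, map_mul, hθC]
          refine mul_mem hP (Algebra.subset_adjoin ?_)
          rcases v with _ | v
          · exact mem_insert _ _
          · exact mem_insert_of_mem _ ⟨v, v.2, rfl⟩
    obtain ⟨χ⟩ := Pool.Agent.X316.ZU.OK.embed_succ (transc hc hd hy) htop κ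
    exact ⟨k, inferInstance, inferInstance, ψ₀, m + 1, hk1, hk2, ⟨χ.comp φ1⟩⟩

end Pool.Agent.X316.ZU
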