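import Pool.Agent.X316.ZU.Ren

/-!
A field of rational functions in one variable which contains a power of the variable is generated by
its constants and one monomial.
-/

set_option autoImplicit false

open Polynomial

namespace Pool.Agent.X316.ZU

variable {M : Type} [Field M]

theorem coeff_twist (τ' : M →+* M) (ζ : M) (P : M[X]) (i : ℕ) :
    ((P.map τ').comp (C ζ * X)).coeff i = τ' (P.coeff i) * ζ ^ i := by
  rw [comp_C_mul_X_coeff, coeff_map]

theorem coeff_eq (τ' : M →+* M) {ζ : M} {P Q : M[X]} (hQ : Q.Monic)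
    (hPQ : IsCoprime P Q)
    (h : (P.map τ').comp (C ζ * X) * Q = P * (Q.map τ').comp (C ζ * X)) (i : ℕ) :
    τ' (P.coeff i) * ζ ^ i = ζ ^ Q.natDegree * P.coeff i ∧
      τ' (Q.coeff i) * ζ ^ i = ζ ^ Q.natDegree * Q.coeff i := by
  set SQ := (Q.map τ').comp (C ζ * X) with hSQ
  set SP := (P.map τ').comp (C ζ * X) with hSP
  have h1 : Q ∣ SQ := by
    have h2 : Q ∣ P * SQ := ⟨SP, by rw [← h, mul_comm]⟩
    exact hPQ.symm.dvd_of_dvd_mul_left h2
  obtain ⟨R, hR⟩ := h1
  have hdeg : ∀ j, Q.natDegree < j → SQ.coeff j = 0 := by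
    intro j hj
    rw [hSQ, coeff_twist, coeff_eq_zero_of_natDegree_lt hj, map_zero, zero_mul]
  have hRd : R.natDegree = 0 := by
    by_contra hne
    have hR0 : R ≠ 0 := by
      rintro rfl
      exact hne natDegree_zero
    have h2 : SQ.natDegree = Q.natDegree + R.natDegree := by
      rw [hR, natDegree_mul hQ.ne_zero hR0]
    have h3 := hdeg SQ.natDegree (by omega)
    have h4 : SQ ≠ 0 := by
      rw [hR]
      exact mul_ne_zero hQ.ne_zero hR0
    exact leadingCoeff_ne_zero.2 h4 h3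
  obtain ⟨c, hc⟩ := natDegree_eq_zero.1 hRd
  have hcζ : c = ζ ^ Q.natDegree := by
    have h2 : SQ.coeff Q.natDegree = (Q * C c).coeff Q.natDegree := by rw [hc, ← hR]
    rw [hSQ, coeff_twist, coeff_mul_C, coeff_natDegree, hQ.leadingCoeff, map_one, one_mul,
      one_mul] at h2
    exact h2.symm
  have hSQ' : SQ = C (ζ ^ Q.natDegree) * Q := by
    rw [hR, ← hc, hcζ, mul_comm]
  have hSP' : SP = C (ζ ^ Q.natDegree) * P := by
    apply mul_right_cancel₀ hQ.ne_zero
    rw [h, hSQ']
    ring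
  constructor
  · rw [← coeff_twist, ← hSP, hSP', coeff_C_mul]
  · rw [← coeff_twist, ← hSQ, hSQ', coeff_C_mul]

variable [IsAlgClosed M] {E : Type} [Field E] {σ : E →+* RatFunc M}
variable {Ω : Type} [Field Ω] [Algebra E Ω] {jj : RatFunc M →+* Ω}

theorem exists_twist (h : MonoSub σ) (hj : ∀ e, jj (σ e) = algebraMap E Ω e)
    (τ : Ω ≃ₐ[E] Ω) : ∃ (τ' : M →+* M) (ζ : M), ζ ≠ 0 ∧
      (∀ a, τ (jj (RatFunc.C a)) = jj (RatFunc.C (τ' a))) ∧
      τ (jj RatFunc.X) = jj (RatFunc.C ζ) * jj RatFunc.X := by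
  let ι : M →+* Ω := jj.comp RatFunc.C
  have hι : Function.Injective ι := ι.injective
  have h1 : ∀ a : M, ∃ b : M, τ (ι a) = ι b := by
    intro a
    obtain ⟨Q, hQ0, hQ, hQa⟩ := h.alg a
    refine root_mem ι hQ0 ?_
    have h2 : Q.eval₂ ι (ι a) = 0 := by rw [Polynomial.eval₂_at_apply, hQa, map_zero]
    have h3 := congrArg τ h2
    rw [map_zero, eval₂_eq_sum_range, map_sum] at h3
    rw [eval₂_eq_sum_range, ← h3]
    refine Finset.sum_congr rfl fun i _ => ?_
    obtain ⟨e, he⟩ := hQ i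
    have h4 : ι (Q.coeff i) = algebraMap E Ω e := by rw [← hj, he]; rfl
    rw [map_mul, map_pow, h4, AlgEquiv.commutes]
  choose t ht using h1
  have hX : jj (RatFunc.X : RatFunc M) ≠ 0 := by
    rw [Ne, map_eq_zero]
    exact RatFunc.X_ne_zero
  obtain ⟨N, hN, e, he⟩ := h.pow
  have h2 : (τ (jj RatFunc.X) / jj RatFunc.X) ^ N = 1 := by
    have h3 : τ (jj RatFunc.X) ^ N = jj RatFunc.X ^ N := by
      rw [← map_pow, ← map_pow, ← he, hj, AlgEquiv.commutes]
    rw [div_pow, h3, div_self (pow_ne_zero _ hX)]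
  obtain ⟨ζ, hζ⟩ := root_mem ι (Q := X ^ N - 1) (X_pow_sub_C_ne_zero hN 1)
    (z := τ (jj RatFunc.X) / jj RatFunc.X) (by
      rw [eval₂_sub, eval₂_pow, eval₂_X, eval₂_one, h2, sub_self])
  refine ⟨{ toFun := t, map_one' := ?_, map_mul' := ?_, map_zero' := ?_, map_add' := ?_ }, ζ,
    ?_, ?_, ?_⟩
  · apply hι
    rw [← ht, map_one, map_one]
  · intro a b
    apply hι
    rw [map_mul, ← ht, ← ht, ← ht, map_mul, map_mul]
  · apply hι
    rw [← ht, map_zero, map_zero]
  · intro a b
    apply hι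
    rw [map_add, ← ht, ← ht, ← ht, map_add, map_add]
  · rintro rfl
    rw [map_zero, div_eq_zero_iff] at hζ
    rcases hζ with h3 | h3
    · rw [EmbeddingLike.map_eq_zero_iff] at h3
      exact hX h3
    · exact hX h3
  · intro a
    exact ht a
  · rw [div_eq_iff hX] at hζ
    exact hζ

/-- the monomials of the numerator and of the denominator are in the field -/
theorem mono_mem [IsGalois E Ω] (h : MonoSub σ) (hj : ∀ e, jj (σ e) = algebraMap E Ω e)
    {e : E} {P Q : M[X]} (hQ : Q.Monic) (hPQ : IsCoprime P Q)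
    (he : σ e * algebraMap M[X] (RatFunc M) Q = algebraMap M[X] (RatFunc M) P) (i : ℕ) :
    (∃ e' : E, σ e' * RatFunc.X ^ Q.natDegree = RatFunc.C (P.coeff i) * RatFunc.X ^ i) ∧
    (∃ e' : E, σ e' * RatFunc.X ^ Q.natDegree = RatFunc.C (Q.coeff i) * RatFunc.X ^ i) := by
  have hX : (RatFunc.X : RatFunc M) ≠ 0 := RatFunc.X_ne_zero
  have hX' : jj (RatFunc.X : RatFunc M) ≠ 0 := by
    rwa [Ne, map_eq_zero]
  -- descent of an element
  have key : ∀ c : M, (∀ (τ' : M →+* M) (ζ : M), ζ ≠ 0 →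
      (P.map τ').comp (C ζ * X) * Q = P * (Q.map τ').comp (C ζ * X) →
      τ' c * ζ ^ i = ζ ^ Q.natDegree * c) →
      ∃ e' : E, σ e' * RatFunc.X ^ Q.natDegree = RatFunc.C c * RatFunc.X ^ i := by
    intro c hc
    let z : RatFunc M := RatFunc.C c * RatFunc.X ^ i / RatFunc.X ^ Q.natDegree
    have h1 : jj z ∈ (⊥ : IntermediateField E Ω) := by
      rw [InfiniteGalois.mem_bot_iff_fixed]
      intro τ
      obtain ⟨τ', ζ, hζ, h2, h3⟩ := exists_twist h hj τ
      have hζ' : jj (RatFunc.C ζ) ≠ 0 := by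
        rw [Ne, map_eq_zero, map_eq_zero]
        exact hζ
      have hev : ∀ R : M[X], τ (jj (algebraMap M[X] (RatFunc M) R)) =
          jj (algebraMap M[X] (RatFunc M) ((R.map τ').comp (C ζ * X))) := by
        intro R
        induction R using Polynomial.induction_on' with
        | add R S hR hS =>
          rw [map_add, map_add, map_add, hR, hS, Polynomial.map_add, Polynomial.add_comp,
            map_add, map_add]
        | monomial n a =>
          rw [← C_mul_X_pow_eq_monomial, map_mul, map_pow, RatFunc.algebraMap_C,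
            RatFunc.algebraMap_X, map_mul, map_pow, map_mul, map_pow, h2, h3, Polynomial.map_mul,
            Polynomial.map_pow, Polynomial.map_X, Polynomial.map_C, mul_comp, pow_comp, X_comp,
            C_comp]
          simp only [map_mul, map_pow, RatFunc.algebraMap_C, RatFunc.algebraMap_X]
      have h4 : (P.map τ').comp (C ζ * X) * Q = P * (Q.map τ').comp (C ζ * X) := by
        apply RatFunc.algebraMap_injective M
        apply jj.injective
        rw [map_mul, map_mul, map_mul, map_mul, ← hev, ← hev]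
        have h5 := congrArg jj he
        rw [map_mul, hj] at h5
        have h6 := congrArg τ h5
        rw [map_mul, AlgEquiv.commutes] at h6
        rw [← h6, ← h5]
        ring
      have h5 := hc τ' ζ hζ h4
      simp only [z]
      rw [map_div₀, map_mul, map_pow, map_pow, map_div₀, map_mul, map_pow, map_pow, h2, h3,
        div_eq_div_iff (pow_ne_zero _ (mul_ne_zero hζ' hX')) (pow_ne_zero _ hX'), mul_pow,
        mul_pow]
      have h6 := congrArg (fun x => jj (RatFunc.C x)) h5
      simp only [map_mul, map_pow] at h6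
      calc jj (RatFunc.C (τ' c)) * (jj (RatFunc.C ζ) ^ i * jj RatFunc.X ^ i) *
            jj RatFunc.X ^ Q.natDegree
          = (jj (RatFunc.C (τ' c)) * jj (RatFunc.C ζ) ^ i) * jj RatFunc.X ^ i *
            jj RatFunc.X ^ Q.natDegree := by ring
        _ = _ := by rw [h6]; ring
    rw [IntermediateField.mem_bot] at h1
    obtain ⟨e', he'⟩ := h1
    refine ⟨e', ?_⟩
    have h2 : σ e' = z := by
      apply jj.injective
      rw [hj, he']
    rw [h2]
    exact div_mul_cancel₀ _ (pow_ne_zero _ hX)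
  exact ⟨key _ fun τ' ζ hζ h4 => (coeff_eq τ' hQ hPQ h4 i).1,
    key _ fun τ' ζ hζ h4 => (coeff_eq τ' hQ hPQ h4 i).2⟩

end Pool.Agent.X316.ZU
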