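import Pool.Agent.X316.ZU.Step
import Pool.Agent.X316.ZU.Fields

/-!
The fields of meromorphic functions which are algebraic over the derivatives of a jointly universal
family embed in fields of rational functions in such a way that given elements which are integral
over the ring generated by the derivatives go to polynomials.
-/

set_option autoImplicit false

open Filter Topology Set Polynomial

namespace Pool.Agent.X316.ZU

open Pool.Agent.X316.ZG
open Pool.Agent.TH143.EL (mero_id mero_ne codis_ev freq_of_ev)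
open Pool.Agent.X316.ZU.OK (RK)

variable {ι : Type}

theorem int_lift {A L : Type} [CommRing A] [Algebra ℂ A] [Field L] [Algebra ℂ L]
    (θ : A →ₐ[ℂ] L) {S : Subalgebra ℂ L} (hS : S ≤ θ.range) {y : L} (hy : IsIntegral S y) :
    θ.toRingHom.IsIntegralElem y := by
  obtain ⟨P, hPm, hP⟩ := hy
  have h1 : P.map (S.val.toRingHom) ∈ Polynomial.lifts θ.toRingHom := by
    rw [Polynomial.lifts_iff_coeff_lifts]
    intro n
    rw [Polynomial.coeff_map]
    exact hS (P.coeff n).2
  obtain ⟨Q, hQ, -, hQm⟩ := Polynomial.lifts_and_natDegree_eq_and_monic h1 (hPm.map _)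
  refine ⟨Q, hQm, ?_⟩
  rw [← Polynomial.eval_map, hQ, Polynomial.eval_map]
  exact hP

theorem int_unlift {A L : Type} [CommRing A] [Algebra ℂ A] [Field L] [Algebra ℂ L]
    (θ : A →ₐ[ℂ] L) {S : Subalgebra ℂ L} (hS : θ.range ≤ S) {y : L}
    (hy : θ.toRingHom.IsIntegralElem y) : IsIntegral S y := by
  obtain ⟨Q, hQm, hQ⟩ := hy
  let f : A →ₐ[ℂ] S := θ.codRestrict S fun a => hS ⟨a, rfl⟩
  refine ⟨Q.map f.toRingHom, hQm.map _, ?_⟩
  rw [Polynomial.eval₂_map]
  exact hQ

/-- **The main theorem on fields, with integral elements.** -/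
theorem fields_int {u : ι → ℂ → ℂ} (hu : JointlyUniversal u) :
    ∀ (n : ℕ) (T : Finset (ι × ℕ)), T.card = n → ∀ (E : Type) [Field E] [Algebra ℂ E]
      (ψ : E →ₐ[ℂ] Mf), (⊤ : IntermediateField ℂ E).FG →
    (∀ e, IsAlgebraic (Algebra.adjoin ℂ ((fun v : ι × ℕ => cl (iteratedDeriv v.2 (u v.1))
      (meromorphic_iteratedDeriv (hu.mero v.1) v.2)) '' (T : Set (ι × ℕ))) : Subalgebra ℂ Mf)
      (ψ e)) → ∀ G : Finset E,
    (∀ g ∈ G, IsIntegral (Algebra.adjoin ℂ ((fun v : ι × ℕ => cl (iteratedDeriv v.2 (u v.1))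
      (meromorphic_iteratedDeriv (hu.mero v.1) v.2)) '' (T : Set (ι × ℕ))) : Subalgebra ℂ Mf)
      (ψ g)) → ∃ (m : ℕ) (φ : E →ₐ[ℂ] RK ℂ m), ∀ g ∈ G, ∃ W : MvPolynomial (Fin m) ℂ,
        φ g = algebraMap _ (RK ℂ m) W := by
  classical
  intro n
  induction n with
  | zero =>
    intro T hT E _ _ ψ hfg h G hG
    have halg : ∀ e : E, IsAlgebraic ℂ e := by
      intro e
      rw [Finset.card_eq_zero] at hT
      subst hT
      have h1 := h e
      rw [Finset.coe_empty, image_empty, Algebra.adjoin_empty] at h1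
      have h2 : IsAlgebraic ℂ (ψ e) := by
        obtain ⟨Q, hQ0, hQ⟩ := alg_lift (Algebra.ofId ℂ Mf) (S := ⊥) (by
          intro x hx
          obtain ⟨c, rfl⟩ := Algebra.mem_bot.1 hx
          exact ⟨c, rfl⟩) h1
        exact ⟨Q, hQ0, hQ⟩
      exact (isAlgebraic_algHom_iff ψ ψ.injective).1 h2
    have h3 : Algebra.IsIntegral ℂ E := ⟨fun e => (halg e).isIntegral⟩
    have h4 := IsAlgClosed.algebraMap_bijective_of_isIntegral (k := ℂ) (K := E)
    let e0 : ℂ ≃ₐ[ℂ] E := AlgEquiv.ofBijective (Algebra.ofId ℂ E) h4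
    exact ⟨0, (Algebra.ofId ℂ (RK ℂ 0)).comp e0.symm.toAlgHom, fun g _ =>
      ⟨MvPolynomial.C (e0.symm g), IsScalarTower.algebraMap_apply ℂ (MvPolynomial (Fin 0) ℂ)
        (RK ℂ 0) (e0.symm g)⟩⟩
  | succ n ih =>
    intro T hT E _ _ ψ hfg h G hG
    have hne : T.Nonempty := by
      rw [← Finset.card_pos]
      omega
    obtain ⟨v1, hv1⟩ := hne
    -- the last derivative
    obtain ⟨v0, hv0, hmax⟩ := Finset.exists_max_image (T.filter fun v => v.1 = v1.1)
      (fun v => v.2) ⟨v1, Finset.mem_filter.2 ⟨hv1, rfl⟩⟩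
    rw [Finset.mem_filter] at hv0
    obtain ⟨hv0T, hv01⟩ := hv0
    let T' := T.erase v0
    have hT'c : T'.card = n := by
      rw [Finset.card_erase_of_mem hv0T, hT]
      rfl
    have hT' : ∀ v ∈ T', v.1 = v0.1 → v.2 < v0.2 := by
      intro v hv hv'
      rw [Finset.mem_erase] at hv
      have h1 := hmax v (Finset.mem_filter.2 ⟨hv.2, hv'.trans hv01⟩)
      refine lt_of_le_of_ne h1 fun h2 => hv.1 ?_
      exact Prod.ext hv' h2
    let x : ι × ℕ → ℂ → ℂ := fun v => iteratedDeriv v.2 (u v.1)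
    have hx : ∀ v, Meromorphic (x v) := fun v =>
      meromorphic_iteratedDeriv (hu.mero v.1) v.2
    let θ := toMf (fun v : T' => x v) (fun v => hx v) (x v0) (hx v0)
    have hθC : ∀ v : T', θ (Polynomial.C (MvPolynomial.X v)) = cl (x v) (hx v) := by
      intro v
      simp only [θ, toMf, AlgHom.comp_apply]
      rw [toMer_C, MvPolynomial.aeval_X]
      rfl
    have hθX : θ Polynomial.X = cl (x v0) (hx v0) := by
      simp only [θ, toMf, AlgHom.comp_apply]
      rw [toMer_X]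
      rfl
    have hθi : Function.Injective θ := by
      rw [injective_iff_map_eq_zero]
      intro P hP
      exact key_indep hu hT' ((toMf_zero _ _ _ _).1 hP)
    have hle : (Algebra.adjoin ℂ ((fun v : ι × ℕ => cl (iteratedDeriv v.2 (u v.1))
        (meromorphic_iteratedDeriv (hu.mero v.1) v.2)) '' (T : Set (ι × ℕ))) : Subalgebra ℂ Mf) ≤
        θ.range := by
      rw [Algebra.adjoin_le_iff]
      rintro _ ⟨v, hv, rfl⟩
      by_cases hvv : v = v0
      · subst hvv
        exact ⟨Polynomial.X, hθX⟩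
      · exact ⟨_, hθC ⟨v, Finset.mem_erase.2 ⟨hvv, hv⟩⟩⟩
    have halg : ∀ e, ∃ Q : (MvPolynomial T' ℂ)[X][X], Q ≠ 0 ∧
        Q.eval₂ θ.toRingHom (ψ e) = 0 := fun e => alg_lift θ hle (h e)
    have hKP : ∀ (Φ : (MvPolynomial T' ℂ)[X][X]) (β : Mf), Φ.Monic →
        Φ.eval₂ θ.toRingHom β = 0 → ∃ N B : ℕ, 0 < N ∧
        ∀ r : MvPolynomial T' ℂ, r ≠ 0 → ∃ a : MvPolynomial T' ℂ →+* ℂ, a r ≠ 0 ∧
          ∃ G : ℂ[X], G.natDegree ≤ B ∧ sp Φ a N G = 0 := by
      intro Φ β hΦ hβ
      obtain ⟨⟨w, hw⟩, rfl⟩ := Ideal.Quotient.mk_surjective β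
      refine ⟨Φ.natDegree.factorial, Φ.natDegree.factorial * dg Φ, Nat.factorial_pos _,
        fun r hr => ?_⟩
      have hprod : r * ∏ v : T', (MvPolynomial.X v : MvPolynomial T' ℂ) ≠ 0 :=
        mul_ne_zero hr (Finset.prod_ne_zero_iff.2 fun v _ => MvPolynomial.X_ne_zero v)
      obtain ⟨a, ha⟩ : ∃ a : T' → ℂ,
          MvPolynomial.eval a (r * ∏ v : T', MvPolynomial.X v) ≠ 0 := by
        by_contra hcon
        push Not at hcon
        exact hprod (MvPolynomial.funext fun a => by rw [hcon a, map_zero])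
      rw [map_mul, map_prod] at ha
      simp only [MvPolynomial.eval_X] at ha
      have h3 := right_ne_zero_of_mul ha
      rw [Finset.prod_ne_zero_iff] at h3
      exact ⟨MvPolynomial.eval a, left_ne_zero_of_mul ha,
        key hu hT' hΦ hw (root_toMf _ _ _ _ hβ) a fun v _ => h3 v (Finset.mem_univ v)⟩
    obtain ⟨E₁, _, _, ψ₁, φ1, M, _, _, _, σ, ρ, α, hψφ, hα, hρ, hρσ, hMalg, hσ, hE₁, hint, hk⟩ :=
      embed3 (R := MvPolynomial T' ℂ) θ hθi ψ hfg halg hKP
    obtain ⟨G', hG', hstep⟩ := step hσ hα hρσ hMalg (G.image φ1) (by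
      intro g hg
      obtain ⟨g', hg', rfl⟩ := Finset.mem_image.1 hg
      apply hint
      rw [hψφ]
      exact int_lift θ hle (hG g' hg'))
    have hfg1 : (⊤ : IntermediateField ℂ E₁).FG := IntermediateField.fg_top ℂ E₁
    have hfg2 : (⊤ : IntermediateField ℂ (kone σ)).FG :=
      Pool.Agent.Y377.IL.fg_top_of_fg (Pool.Agent.Y333.IL.t_FGS E₁ hfg1 (kone σ))
    have hle' : (θ.comp (Polynomial.CAlgHom (R := ℂ) (A := MvPolynomial T' ℂ))).range ≤
        (Algebra.adjoin ℂ ((fun v : ι × ℕ => cl (iteratedDeriv v.2 (u v.1))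
        (meromorphic_iteratedDeriv (hu.mero v.1) v.2)) '' (T' : Set (ι × ℕ))) :
          Subalgebra ℂ Mf) := by
      rintro _ ⟨P, rfl⟩
      change θ (Polynomial.C P) ∈ _
      induction P using MvPolynomial.induction_on with
      | C c =>
        have h2 : θ (Polynomial.C (MvPolynomial.C c)) = algebraMap ℂ Mf c := θ.commutes c
        rw [h2]
        exact Subalgebra.algebraMap_mem _ _
      | add P Q hP hQ =>
        rw [Polynomial.C_add, map_add]
        exact add_mem hP hQ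
      | mul_X P v hP =>
        rw [Polynomial.C_mul, map_mul, hθC]
        exact mul_mem hP (Algebra.subset_adjoin ⟨v, v.2, rfl⟩)
    obtain ⟨m, κ, hκ⟩ := ih T' hT'c (kone σ) (ψ₁.comp (kone σ).val) hfg2
      (fun e => alg_unlift (θ.comp (Polynomial.CAlgHom (R := ℂ) (A := MvPolynomial T' ℂ)))
        (hθi.comp Polynomial.C_injective) hle' (hk e e.2)) G' (by
      intro x hx
      obtain ⟨a, hxa, Q, hQm, hQ⟩ := hG' x hx
      refine int_unlift (θ.comp (Polynomial.CAlgHom (R := ℂ) (A := MvPolynomial T' ℂ))) hle'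
        ⟨Q, hQm, ?_⟩
      have h1 : Q.eval₂ ρ (x : E₁) = 0 := by
        apply σ.toRingHom.injective
        rw [map_zero, Polynomial.hom_eval₂]
        have h2 : σ.toRingHom.comp ρ = (RatFunc.C : M →+* RatFunc M).comp α :=
          RingHom.ext fun r => hρσ r
        have h3 : σ.toRingHom (x : E₁) = RatFunc.C a := hxa
        rw [h2, h3, ← Polynomial.hom_eval₂, hQ, map_zero]
      have h4 := congrArg ψ₁.toRingHom h1
      rw [map_zero, Polynomial.hom_eval₂] at h4
      have h5 : ψ₁.toRingHom.comp ρ =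
          (θ.comp (Polynomial.CAlgHom (R := ℂ) (A := MvPolynomial T' ℂ))).toRingHom :=
        RingHom.ext fun r => hρ r
      rw [h5] at h4
      exact h4)
    obtain ⟨χ, hχ⟩ := hstep m κ hκ
    exact ⟨m + 1, χ.comp φ1, fun g hg => hχ _ (Finset.mem_image_of_mem φ1 hg)⟩

end Pool.Agent.X316.ZU
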