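import Pool.Agent.X316.ZU.Lin2
import Pool.Agent.X316.ZU.Cut

/-!
Affine varieties dominated by affine spaces, and curves which are integral over the derivatives of a
universal function.
-/

set_option autoImplicit false

open Filter Topology Set MvPolynomial

namespace Pool.Agent.X316.ZU

open Pool.Agent.X316.ZG
open Pool.Agent.TH143.EL (mero_an codis_ev mero_eval)
open Pool.Agent.W602.GT (IsForm coords)
open Pool.Agent.Y216.SV (AffineFamily)

variable {ι : Type} {N : ℕ}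

/-- There is a dominant morphism from the affine space of dimension `m` to the affine variety with
the generic point `y`. -/
def DomBy (k : Type) [Field k] {K : Type} [Field K] [Algebra k K] (y : Fin (N + 1) → K) (m : ℕ) :
    Prop :=
  ∃ W : Fin (N + 1) → MvPolynomial (Fin m) k, W 0 = 1 ∧
    ∀ G : MvPolynomial (Fin (N + 1)) k, IsForm G → (W602.GT.val y G = 0 ↔ aeval W G = 0)

variable {K : Type} [Field K] [Algebra ℂ K] {w : ℕ}

theorem dom_of_curve {u : ι → ℂ → ℂ} (hu : JointlyUniversal u) {y : Fin (N + 1) → K}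
    {f : Fin (N + 1) → ℂ → ℂ} (hf : CurveIn ℂ (intS u) y f) (hd : DenseOverk ℂ y f) :
    ∃ m, DomBy ℂ y m := by
  obtain ⟨m, W, hW⟩ := closure_int hu f (fun j => (hf.mem j).1) (fun j => (hf.mem j).2)
  refine ⟨m, W, ?_, ?_⟩
  · have h1 := (hW (X 0 - 1)).1 (Eventually.of_forall fun z => by
      rw [map_sub, eval_X, map_one, hf.one, sub_self])
    rw [map_sub, aeval_X, map_one] at h1
    exact sub_eq_zero.1 h1
  · intro G hG
    rw [← hW G]
    exact ⟨fun h => hf.rel G hG h, fun h => hd G hG h⟩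

theorem curve_of_dom {u : ι → ℂ → ℂ} (hu : JointlyUniversal u) (j0 : ι) {y : Fin (N + 1) → K}
    (h0 : y 0 ≠ 0) (hgen : coords ℂ y = ⊤) (hdim : Algebra.trdeg ℂ K = w) (hw : 0 < w)
    {m : ℕ} (hD : DomBy ℂ y m) :
    ∃ f, CurveIn ℂ (dring u : Set (ℂ → ℂ)) y f ∧ DenseOverk ℂ y f := by
  classical
  obtain ⟨W, hW0, hW⟩ := hD
  let r : Fin m → ι × ℕ := fun l => (j0, l)
  have hr : Function.Injective r := fun a b hab => Fin.ext (congrArg Prod.snd hab)
  have hrW : ∀ P : MvPolynomial (Fin m) ℂ, ∀ z, eval (jet u z) (rename r P) =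
      eval (fun l : Fin m => iteratedDeriv l (u j0) z) P := by
    intro P z
    rw [eval_rename]
    rfl
  let h : Fin (N + 1) → ℂ → ℂ := fun j z => eval (fun l : Fin m => iteratedDeriv l (u j0) z) (W j)
  have hm : ∀ j, Meromorphic (h j) := fun j =>
    mero_eval (fun l : Fin m => meromorphic_iteratedDeriv (hu.mero j0) l) (W j)
  have hzero : ∀ P : MvPolynomial (Fin m) ℂ,
      (∀ᶠ z in codiscrete ℂ, eval (fun l : Fin m => iteratedDeriv l (u j0) z) P = 0) → P = 0 := by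
    intro P hP
    have h1 : rename r P = 0 := jets_indep hu (hP.mono fun z hz => by rw [hrW, hz])
    rwa [map_eq_zero_iff _ (rename_injective r hr)] at h1
  have hev : ∀ (G : MvPolynomial (Fin (N + 1)) ℂ) (z : ℂ), aeval (fun j => h j z) G =
      eval (fun l : Fin m => iteratedDeriv l (u j0) z) (aeval W G) := by
    intro G z
    have h2 := MvPolynomial.comp_aeval_apply (f := W)
      (aeval (fun l : Fin m => iteratedDeriv l (u j0) z) : MvPolynomial (Fin m) ℂ →ₐ[ℂ] ℂ) G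
    rw [← MvPolynomial.aeval_eq_eval]
    exact h2.symm
  obtain ⟨j1, hj1⟩ := nonconst_of_dim h0 hgen hdim hw hW0 hW
  refine ⟨h, ⟨fun z => ?_, fun j => ⟨hm j, rename r (W j), Eventually.of_forall fun z => ?_⟩,
    fun G hG hG0 => Eventually.of_forall fun z => ?_, j1, fun c hc => ?_⟩, fun G hG hG0 => ?_⟩
  · change eval _ (W 0) = 1
    rw [hW0, map_one]
  · exact (hrW (W j) z).symm
  · rw [hev, (hW G hG).1 hG0, map_zero]
  · refine hj1 c (sub_eq_zero.1 (hzero _ ?_))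
    filter_upwards [hc] with z hz
    rw [map_sub, eval_C]
    exact sub_eq_zero.2 hz
  · refine (hW G hG).2 (hzero _ ?_)
    filter_upwards [hG0] with z hz
    rw [← hev, hz]

/-- **Domination by affine spaces in terms of curves.** -/
theorem dom_tfae {y : Fin (N + 1) → K} (h0 : y 0 ≠ 0) (hgen : coords ℂ y = ⊤)
    (hdim : Algebra.trdeg ℂ K = w) (hw : 0 < w) :
    List.TFAE [∃ m, DomBy ℂ y m,
      DomBy ℂ y w,
      ∃ f, CurveIn ℂ (dring (fun _ : Unit => riemannZeta) : Set (ℂ → ℂ)) y f ∧ DenseOverk ℂ y f,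
      ∃ f, CurveIn ℂ (intS (fun _ : Unit => riemannZeta)) y f ∧ DenseOverk ℂ y f,
      ∃ (ι : Type) (u : ι → ℂ → ℂ) (f : Fin (N + 1) → ℂ → ℂ), JointlyUniversal u ∧
        CurveIn ℂ (intS u) y f ∧ DenseOverk ℂ y f,
      ∀ (ι : Type) (u : ι → ℂ → ℂ), Nonempty ι → JointlyUniversal u →
        ∃ f, CurveIn ℂ (dring u : Set (ℂ → ℂ)) y f ∧ DenseOverk ℂ y f] := by
  tfae_have 1 → 2 := by
    rintro ⟨m, W, hW0, hW⟩
    exact cut h0 hgen hdim hW0 hW
  tfae_have 2 → 6 := by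
    rintro h ι u ⟨j0⟩ hu
    exact curve_of_dom hu j0 h0 hgen hdim hw h
  tfae_have 6 → 3 := fun h => h Unit _ ⟨()⟩ Pool.Agent.X316.ZG.zeta_universal
  tfae_have 3 → 4 := by
    rintro ⟨f, hf, hd⟩
    exact ⟨f, ⟨hf.one, fun j => dring_mem (hf.mem j), hf.rel, hf.nonconst⟩, hd⟩
  tfae_have 4 → 5 := by
    rintro ⟨f, hf, hd⟩
    exact ⟨Unit, _, f, Pool.Agent.X316.ZG.zeta_universal, hf, hd⟩
  tfae_have 5 → 1 := by
    rintro ⟨ι, u, f, hu, hf, hd⟩
    exact dom_of_curve hu hf hd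
  tfae_finish

/-- **Affine lines.** -/
theorem lines_of_dom {y : Fin (N + 1) → K} (h0 : y 0 ≠ 0) (hgen : coords ℂ y = ⊤)
    (hdim : Algebra.trdeg ℂ K = w) (hw : 0 < w) (hD : DomBy ℂ y w) :
    AffineFamily {0} (k := ℂ) y (w - 1) := by
  obtain ⟨w', rfl⟩ : ∃ w', w = w' + 1 := ⟨w - 1, by omega⟩
  obtain ⟨W, hW0, hW⟩ := hD
  exact affine_of_dom hW0 (nonconst_of_dim h0 hgen hdim hw hW0 hW) hW

end Pool.Agent.X316.ZU
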