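import Pool.Agent.X316.ZU.Mon

/-!
The field is generated over its constants by one monomial: more precise statements.
-/

set_option autoImplicit false

open Polynomial

namespace Pool.Agent.X316.ZU

variable {M : Type} [Field M] [Algebra ℂ M] {E : Type} [Field E] [Algebra ℂ E]

theorem exists_mono [IsAlgClosed M] {σ : E →ₐ[ℂ] RatFunc M} (h : MonoSub σ.toRingHom) {e : E}
    {P : M[X]} (he : σ e = algebraMap M[X] (RatFunc M) P) (i : ℕ) :
    ∃ e' : E, σ e' = RatFunc.C (P.coeff i) * RatFunc.X ^ i := by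
  have hch : CharZero E := charZero_of_injective_algebraMap (algebraMap ℂ E).injective
  let Ω := AlgebraicClosure (RatFunc M)
  let jj : RatFunc M →+* Ω := algebraMap (RatFunc M) Ω
  let _ : Algebra E (RatFunc M) := σ.toRingHom.toAlgebra
  have hst : IsScalarTower E (RatFunc M) Ω := inferInstance
  have hal : Algebra.IsAlgebraic E (RatFunc M) := ⟨fun z => by
    obtain ⟨Q, hQ0, hQ⟩ := alg_ratFunc h z
    exact ⟨Q, hQ0, hQ⟩⟩
  have hal2 : Algebra.IsAlgebraic E Ω := Algebra.IsAlgebraic.trans E (RatFunc M) Ω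
  have hcl : IsAlgClosure E Ω := ⟨inferInstance, hal2⟩
  have hG : IsGalois E Ω := IsAlgClosure.isGalois E Ω
  have hj : ∀ e, jj (σ.toRingHom e) = algebraMap E Ω e := fun e =>
    (IsScalarTower.algebraMap_apply E (RatFunc M) Ω e).symm
  obtain ⟨e', he'⟩ := (mono_mem h hj (e := e) (P := P) (Q := 1) monic_one isCoprime_one_right (by
    rw [map_one, mul_one]
    exact he) i).1
  refine ⟨e', ?_⟩
  rw [natDegree_one, pow_zero, mul_one] at he'
  exact he'

theorem exists_gen1 [IsAlgClosed M] {σ : E →ₐ[ℂ] RatFunc M} (h : MonoSub σ.toRingHom) :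
    ∃ (y : E) (c : M) (d : ℤ), c ≠ 0 ∧ d ≠ 0 ∧ σ y = RatFunc.C c * RatFunc.X ^ d ∧
      IntermediateField.adjoin (kone σ) {y} = ⊤ ∧ ∀ (e : E) (a : M) (n : ℤ), a ≠ 0 →
        σ e = RatFunc.C a * RatFunc.X ^ n → ∃ k : ℤ, n = k * d := by
  classical
  have hX : (RatFunc.X : RatFunc M) ≠ 0 := RatFunc.X_ne_zero
  have hch : CharZero E := charZero_of_injective_algebraMap (algebraMap ℂ E).injective
  let Ω := AlgebraicClosure (RatFunc M)
  let jj : RatFunc M →+* Ω := algebraMap (RatFunc M) Ω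
  let _ : Algebra E (RatFunc M) := σ.toRingHom.toAlgebra
  have hst : IsScalarTower E (RatFunc M) Ω := inferInstance
  have hal : Algebra.IsAlgebraic E (RatFunc M) := ⟨fun z => by
    obtain ⟨Q, hQ0, hQ⟩ := alg_ratFunc h z
    exact ⟨Q, hQ0, hQ⟩⟩
  have hal2 : Algebra.IsAlgebraic E Ω := Algebra.IsAlgebraic.trans E (RatFunc M) Ω
  have hcl : IsAlgClosure E Ω := ⟨inferInstance, hal2⟩
  have hG : IsGalois E Ω := IsAlgClosure.isGalois E Ω
  have hj : ∀ e, jj (σ.toRingHom e) = algebraMap E Ω e := fun e =>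
    (IsScalarTower.algebraMap_apply E (RatFunc M) Ω e).symm
  -- the degrees of the monomials
  let D : AddSubgroup ℤ :=
    { carrier := {n | ∃ (e : E) (c : M), c ≠ 0 ∧ σ e = RatFunc.C c * RatFunc.X ^ n}
      zero_mem' := ⟨1, 1, one_ne_zero, by rw [map_one, map_one, zpow_zero, mul_one]⟩
      add_mem' := by
        rintro a b ⟨e, c, hc, he⟩ ⟨e', c', hc', he'⟩
        refine ⟨e * e', c * c', mul_ne_zero hc hc', ?_⟩
        rw [map_mul, he, he', map_mul, zpow_add₀ hX]
        ring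
      neg_mem' := by
        rintro a ⟨e, c, hc, he⟩
        refine ⟨e⁻¹, c⁻¹, inv_ne_zero hc, ?_⟩
        rw [map_inv₀, he, map_inv₀, zpow_neg, mul_inv] }
  obtain ⟨d, hd⟩ := Int.subgroup_cyclic D
  have hmemD : ∀ n : ℤ, n ∈ D ↔ ∃ k : ℤ, n = k * d := by
    intro n
    rw [hd, AddSubgroup.mem_closure_singleton]
    constructor
    · rintro ⟨k, hk⟩
      exact ⟨k, by rw [← hk, smul_eq_mul]⟩
    · rintro ⟨k, hk⟩
      exact ⟨k, by rw [hk, smul_eq_mul]⟩
  have hd0 : d ≠ 0 := by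
    obtain ⟨N, hN, e, he⟩ := h.pow
    have h1 : (N : ℤ) ∈ D := ⟨e, 1, one_ne_zero, by
      rw [map_one, one_mul, zpow_natCast]
      exact he⟩
    rintro rfl
    obtain ⟨k, hk⟩ := (hmemD _).1 h1
    rw [mul_zero] at hk
    omega
  obtain ⟨y, c, hc, hy⟩ := (hmemD d).2 ⟨1, (one_mul d).symm⟩
  refine ⟨y, c, d, hc, hd0, hy, ?_, fun e a n ha he => (hmemD n).1 ⟨e, a, ha, he⟩⟩
  rw [eq_top_iff]
  set L := IntermediateField.adjoin (kone σ) {y} with hL
  have hyL : y ∈ L := IntermediateField.mem_adjoin_simple_self _ y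
  have hkL : ∀ e ∈ kone σ, e ∈ L := fun e he => L.algebraMap_mem ⟨e, he⟩
  have hσ0 : ∀ e : E, σ e = 0 → e = 0 := fun e he => (map_eq_zero σ).1 he
  have hy0 : y ≠ 0 := by
    rintro rfl
    rw [map_zero] at hy
    have h1 : (RatFunc.C c : RatFunc M) ≠ 0 := by
      rw [Ne, map_eq_zero]
      exact hc
    exact mul_ne_zero h1 (zpow_ne_zero d hX) hy.symm
  -- monomials
  have hmono : ∀ (e : E) (a : M) (n : ℤ), σ e = RatFunc.C a * RatFunc.X ^ n → e ∈ L := by
    intro e a n he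
    by_cases ha : a = 0
    · subst ha
      rw [map_zero, zero_mul] at he
      rw [hσ0 e he]
      exact zero_mem L
    · obtain ⟨k, hk⟩ := (hmemD n).1 ⟨e, a, ha, he⟩
      have h1 : e * (y ^ k)⁻¹ ∈ kone σ := by
        refine ⟨a * (c ^ k)⁻¹, ?_⟩
        have hck : (RatFunc.C c : RatFunc M) ≠ 0 := by
          rw [Ne, map_eq_zero]
          exact hc
        rw [map_mul, map_inv₀, map_zpow₀, he, hy, hk, mul_zpow, ← zpow_mul, mul_comm d k,
          map_mul, map_inv₀, map_zpow₀]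
        have h2 : (RatFunc.X : RatFunc M) ^ (k * d) ≠ 0 := zpow_ne_zero _ hX
        have h3 : (RatFunc.C c : RatFunc M) ^ k ≠ 0 := zpow_ne_zero _ hck
        field_simp
      have h2 : e = e * (y ^ k)⁻¹ * y ^ k := by
        rw [mul_assoc, inv_mul_cancel₀ (zpow_ne_zero k hy0), mul_one]
      rw [h2]
      exact mul_mem (hkL _ h1) (zpow_mem hyL k)
  intro e _
  set P := (σ e).num with hP
  set Q := (σ e).denom with hQdef
  have hQm : Q.Monic := RatFunc.monic_denom _
  have hQ0 : algebraMap M[X] (RatFunc M) Q ≠ 0 := by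
    rw [Ne, map_eq_zero_iff _ (RatFunc.algebraMap_injective M)]
    exact hQm.ne_zero
  have he : σ.toRingHom e * algebraMap M[X] (RatFunc M) Q = algebraMap M[X] (RatFunc M) P := by
    have h1 := RatFunc.num_div_denom (σ e)
    rw [div_eq_iff hQ0] at h1
    exact h1.symm
  have hmm := mono_mem h hj hQm (RatFunc.isCoprime_num_denom _) he
  choose a ha using fun i => (hmm i).1
  choose b hb using fun i => (hmm i).2
  have hsum : ∀ (R : M[X]) (r : ℕ → E), (∀ i, σ.toRingHom (r i) * RatFunc.X ^ Q.natDegree =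
      RatFunc.C (R.coeff i) * RatFunc.X ^ i) →
      σ (∑ i ∈ Finset.range (R.natDegree + 1), r i) * RatFunc.X ^ Q.natDegree =
        algebraMap M[X] (RatFunc M) R ∧ (∑ i ∈ Finset.range (R.natDegree + 1), r i) ∈ L := by
    intro R r hr
    constructor
    · rw [map_sum, Finset.sum_mul]
      have h1 : algebraMap M[X] (RatFunc M) R = algebraMap M[X] (RatFunc M)
          (∑ i ∈ Finset.range (R.natDegree + 1), C (R.coeff i) * X ^ i) := by
        rw [← R.as_sum_range_C_mul_X_pow]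
      rw [h1, map_sum]
      refine Finset.sum_congr rfl fun i _ => ?_
      rw [map_mul, map_pow, RatFunc.algebraMap_C, RatFunc.algebraMap_X]
      exact hr i
    · refine sum_mem fun i _ => hmono (r i) (R.coeff i) ((i : ℤ) - Q.natDegree) ?_
      rw [zpow_sub₀ hX, zpow_natCast, zpow_natCast, ← mul_div_assoc,
        eq_div_iff (pow_ne_zero _ hX)]
      exact hr i
  obtain ⟨h1, h2⟩ := hsum P a ha
  obtain ⟨h3, h4⟩ := hsum Q b hb
  set A := ∑ i ∈ Finset.range (P.natDegree + 1), a i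
  set B := ∑ i ∈ Finset.range (Q.natDegree + 1), b i
  have hB0 : B ≠ 0 := by
    intro h0
    rw [h0, map_zero, zero_mul] at h3
    exact hQ0 h3.symm
  have h5 : e * B = A := by
    apply σ.toRingHom.injective
    have h6 : σ.toRingHom (e * B) * RatFunc.X ^ Q.natDegree =
        σ.toRingHom A * RatFunc.X ^ Q.natDegree := by
      rw [map_mul, mul_assoc]
      have h7 : σ.toRingHom B * RatFunc.X ^ Q.natDegree = algebraMap M[X] (RatFunc M) Q := h3
      have h8 : σ.toRingHom A * RatFunc.X ^ Q.natDegree = algebraMap M[X] (RatFunc M) P := h1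
      rw [h7, h8, he]
    exact mul_right_cancel₀ (pow_ne_zero _ hX) h6
  rw [← eq_div_iff hB0] at h5
  rw [h5]
  exact div_mem h2 h4

theorem exists_gen2 [IsAlgClosed M] {σ : E →ₐ[ℂ] RatFunc M} (h : MonoSub σ.toRingHom) :
    ∃ (y : E) (c : M) (d : ℕ), c ≠ 0 ∧ 0 < d ∧ σ y = RatFunc.C c * RatFunc.X ^ d ∧
      IntermediateField.adjoin (kone σ) {y} = ⊤ ∧ ∀ (e : E) (a : M) (n : ℕ), a ≠ 0 →
        σ e = RatFunc.C a * RatFunc.X ^ n → ∃ k : ℕ, n = k * d := by
  obtain ⟨y, c, d, hc, hd, hy, htop, hdiv⟩ := exists_gen1 h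
  have hX : (RatFunc.X : RatFunc M) ≠ 0 := RatFunc.X_ne_zero
  have key : ∀ (n : ℕ) (k : ℤ) (d' : ℕ), 0 < d' → (n : ℤ) = k * d' → ∃ k : ℕ, n = k * d' := by
    intro n k d' hd' hk
    have h1 : 0 ≤ k := by
      by_contra h2
      have h3 : k * d' < 0 := mul_neg_of_neg_of_pos (not_le.1 h2) (by exact_mod_cast hd')
      omega
    obtain ⟨k', rfl⟩ := Int.eq_ofNat_of_zero_le h1
    exact ⟨k', by exact_mod_cast hk⟩
  rcases lt_or_gt_of_ne hd with h1 | h1
  · obtain ⟨d', hd'⟩ : ∃ d' : ℕ, d = -(d' : ℤ) := ⟨d.natAbs, by omega⟩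
    refine ⟨y⁻¹, c⁻¹, d', inv_ne_zero hc, by omega, ?_, ?_, ?_⟩
    · rw [map_inv₀, hy, hd', zpow_neg, mul_inv, inv_inv, map_inv₀, zpow_natCast]
    · rw [eq_top_iff, ← htop, IntermediateField.adjoin_simple_le_iff]
      have h2 := IntermediateField.mem_adjoin_simple_self (kone σ) y⁻¹
      have h3 := inv_mem h2
      rwa [inv_inv] at h3
    · intro e a n ha he
      obtain ⟨k, hk⟩ := hdiv e a n ha (by rw [zpow_natCast]; exact he)
      exact key n (-k) d' (by omega) (by rw [hk, hd']; ring)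
  · obtain ⟨d', hd'⟩ : ∃ d' : ℕ, d = (d' : ℤ) := ⟨d.natAbs, by omega⟩
    refine ⟨y, c, d', hc, by omega, ?_, htop, ?_⟩
    · rw [hy, hd', zpow_natCast]
    · intro e a n ha he
      obtain ⟨k, hk⟩ := hdiv e a n ha (by rw [zpow_natCast]; exact he)
      exact key n k d' (by omega) (by rw [hk, hd'])

end Pool.Agent.X316.ZU
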