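import Mathlib

/-!
Subfields of a field of rational functions in one variable which contain a power of the variable.
-/

set_option autoImplicit false

open Polynomial

namespace Pool.Agent.X316.ZU

variable {M : Type} [Field M] {E : Type} [Field E]

/-- The subfield `σ E` of `M(X)` contains a power of the variable, and `M` is algebraic over its
constants in `σ E`. -/
structure MonoSub (σ : E →+* RatFunc M) : Prop where
  pow : ∃ N : ℕ, 0 < N ∧ ∃ e : E, σ e = RatFunc.X ^ N
  alg : ∀ a : M, ∃ Q : M[X], Q ≠ 0 ∧ (∀ i, ∃ e : E, σ e = RatFunc.C (Q.coeff i)) ∧ Q.eval a = 0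

theorem root_mem {Ω : Type} [Field Ω] [IsAlgClosed M] (φ : M →+* Ω) {Q : M[X]} (hQ : Q ≠ 0) {z : Ω}
    (hz : Q.eval₂ φ z = 0) : ∃ a : M, z = φ a := by
  have h1 := (IsAlgClosed.splits Q).eq_prod_roots
  rw [h1, Polynomial.eval₂_mul, Polynomial.eval₂_C] at hz
  have h2 : φ Q.leadingCoeff ≠ 0 := by
    rw [Ne, map_eq_zero]
    exact leadingCoeff_ne_zero.2 hQ
  have h3 := (mul_eq_zero.1 hz).resolve_left h2
  rw [Polynomial.eval₂_multiset_prod, Multiset.map_map, Multiset.prod_eq_zero_iff,
    Multiset.mem_map] at h3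
  obtain ⟨a, -, ha⟩ := h3
  refine ⟨a, ?_⟩
  simp only [Function.comp_apply, Polynomial.eval₂_sub, Polynomial.eval₂_X,
    Polynomial.eval₂_C] at ha
  exact sub_eq_zero.1 ha

theorem alg_ratFunc {σ : E →+* RatFunc M} (h : MonoSub σ) (z : RatFunc M) :
    ∃ Q : E[X], Q ≠ 0 ∧ Q.eval₂ σ z = 0 := by
  let _ : Algebra E (RatFunc M) := σ.toAlgebra
  let A := algebraicClosure E (RatFunc M)
  have hX : (RatFunc.X : RatFunc M) ∈ A := by
    rw [mem_algebraicClosure_iff]
    obtain ⟨N, hN, e, he⟩ := h.pow
    refine ⟨X ^ N - C e, ?_, ?_⟩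
    · exact X_pow_sub_C_ne_zero hN e
    · rw [map_sub, map_pow, aeval_X, aeval_C, ← he]
      exact sub_self _
  have hC : ∀ a : M, (RatFunc.C a : RatFunc M) ∈ A := by
    intro a
    rw [mem_algebraicClosure_iff]
    obtain ⟨Q, hQ0, hQ, hQa⟩ := h.alg a
    choose e he using hQ
    refine ⟨∑ i ∈ Finset.range (Q.natDegree + 1), C (e i) * X ^ i, ?_, ?_⟩
    · intro h0
      apply hQ0
      ext i
      by_cases hi : i ≤ Q.natDegree
      · have h1 := congrArg (fun P => P.coeff i) h0
        simp only [finsetSum_coeff, coeff_C_mul, coeff_X_pow, coeff_zero] at h1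
        rw [Finset.sum_eq_single_of_mem i (Finset.mem_range.2 (by omega)) (by
          intro j _ hj
          rw [if_neg (Ne.symm hj), mul_zero]), if_pos rfl, mul_one] at h1
        have h2 := he i
        rw [h1, map_zero] at h2
        rw [coeff_zero]
        have h3 : (RatFunc.C (Q.coeff i) : RatFunc M) = RatFunc.C 0 := by
          rw [map_zero]
          exact h2.symm
        exact RatFunc.C_injective h3
      · rw [coeff_eq_zero_of_natDegree_lt (by omega), coeff_zero]
    · rw [map_sum]
      have h1 : ∀ i, aeval (RatFunc.C a : RatFunc M) (C (e i) * X ^ i : E[X]) =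
          RatFunc.C (Q.coeff i * a ^ i) := by
        intro i
        rw [map_mul, aeval_C, map_pow, aeval_X, map_mul, map_pow, ← he]
        rfl
      simp only [h1]
      rw [← map_sum, ← eval_eq_sum_range, hQa, map_zero]
  have hP : ∀ P : M[X], algebraMap M[X] (RatFunc M) P ∈ A := by
    intro P
    induction P using Polynomial.induction_on' with
    | add P Q hP hQ =>
      rw [map_add]
      exact add_mem hP hQ
    | monomial n a =>
      rw [← C_mul_X_pow_eq_monomial, map_mul, map_pow, RatFunc.algebraMap_C, RatFunc.algebraMap_X]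
      exact mul_mem (hC a) (pow_mem hX n)
  have hz : z ∈ A := by
    rw [← RatFunc.num_div_denom z]
    exact div_mem (hP _) (hP _)
  rw [mem_algebraicClosure_iff] at hz
  obtain ⟨Q, hQ0, hQ⟩ := hz
  exact ⟨Q, hQ0, hQ⟩

end Pool.Agent.X316.ZU
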