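import Pool.Agent.X316.ZU.Fld3

/-!
The inductive step for integral elements.
-/

set_option autoImplicit false

open Polynomial

namespace Pool.Agent.X316.ZU

open Pool.Agent.X316.ZU.OK (RK)

variable {R : Type} [CommRing R] [IsDomain R] {M : Type} [Field M] [Algebra ℂ M]
  {E : Type} [Field E] [Algebra ℂ E] {σ : E →ₐ[ℂ] RatFunc M} {ρ : R →+* E} {α : R →+* M}

/-- denominators -/
theorem exists_den (hα : Function.Injective α)
    (halg : ∀ a : M, ∃ Q : R[X], Q ≠ 0 ∧ Q.eval₂ α a = 0) (b : M) :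
    ∃ r : R, r ≠ 0 ∧ α.IsIntegralElem (α r * b) := by
  let _ : Algebra R M := α.toAlgebra
  have h1 : IsAlgebraic R b := halg b
  obtain ⟨r, hr0, hr⟩ := h1.exists_integral_multiple
  refine ⟨r, hr0, ?_⟩
  rw [Algebra.smul_def] at hr
  exact hr

theorem int_mul {a b : M} (ha : α.IsIntegralElem a) (hb : α.IsIntegralElem b) :
    α.IsIntegralElem (a * b) := by
  let _ : Algebra R M := α.toAlgebra
  have h1 : IsIntegral R a := ha
  have h2 : IsIntegral R b := hb
  exact h1.mul h2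

theorem int_map (r : R) : α.IsIntegralElem (α r) := by
  let _ : Algebra R M := α.toAlgebra
  exact (isIntegral_algebraMap : IsIntegral R (algebraMap R M r))

theorem int_pow {a : M} (ha : α.IsIntegralElem a) (n : ℕ) : α.IsIntegralElem (a ^ n) := by
  let _ : Algebra R M := α.toAlgebra
  have h1 : IsIntegral R a := ha
  exact h1.pow n

variable [IsAlgClosed M]

theorem step (hσ : MonoSub σ.toRingHom) (hα : Function.Injective α)
    (hρ : ∀ r, σ (ρ r) = RatFunc.C (α r))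
    (halg : ∀ a : M, ∃ Q : R[X], Q ≠ 0 ∧ Q.eval₂ α a = 0) (G : Finset E)
    (hG : ∀ g ∈ G, ∃ P : M[X], σ g = algebraMap M[X] (RatFunc M) P ∧
      ∀ i, α.IsIntegralElem (P.coeff i)) :
    ∃ G' : Finset (kone σ),
      (∀ x ∈ G', ∃ a : M, σ x = RatFunc.C a ∧ α.IsIntegralElem a) ∧
      ∀ (m : ℕ) (κ : kone σ →ₐ[ℂ] RK ℂ m),
        (∀ x ∈ G', ∃ W : MvPolynomial (Fin m) ℂ, κ x = algebraMap _ (RK ℂ m) W) →
        ∃ χ : E →ₐ[ℂ] RK ℂ (m + 1), ∀ g ∈ G, ∃ W : MvPolynomial (Fin (m + 1)) ℂ,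
          χ g = algebraMap _ (RK ℂ (m + 1)) W := by
  classical
  obtain ⟨y, c, d, hc, hd, hy, htop, hdiv⟩ := exists_gen2 hσ
  have hX : (RatFunc.X : RatFunc M) ≠ 0 := RatFunc.X_ne_zero
  have hy0 : y ≠ 0 := by
    rintro rfl
    rw [map_zero] at hy
    have h1 : (RatFunc.C c : RatFunc M) ≠ 0 := by
      rw [Ne, map_eq_zero]
      exact hc
    exact mul_ne_zero h1 (pow_ne_zero d hX) hy.symm
  -- monomials
  have hmono : ∀ (e : E) (a : M) (i : ℕ), σ e = RatFunc.C a * RatFunc.X ^ i →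
      α.IsIntegralElem a → ∃ (x : kone σ) (k : ℕ) (r : R), r ≠ 0 ∧ e = x * y ^ k ∧
        ∀ r', r ∣ r' → ∃ a' : M, σ (ρ r' ^ k * x) = RatFunc.C a' ∧ α.IsIntegralElem a' := by
    intro e a i he ha
    by_cases ha0 : a = 0
    · subst ha0
      rw [map_zero, zero_mul, map_eq_zero] at he
      refine ⟨0, 0, 1, one_ne_zero, ?_, fun r' _ => ⟨0, ?_, ?_⟩⟩
      · rw [he, ZeroMemClass.coe_zero, zero_mul]
      · rw [ZeroMemClass.coe_zero, mul_zero, map_zero, map_zero]
      · have := int_map (α := α) (0 : R)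
        rwa [map_zero] at this
    · obtain ⟨k, hk⟩ := hdiv e a i ha0 he
      have hck : (RatFunc.C c : RatFunc M) ≠ 0 := by
        rw [Ne, map_eq_zero]
        exact hc
      have hx : σ (e * (y ^ k)⁻¹) = RatFunc.C (a * (c ^ k)⁻¹) := by
        rw [map_mul, map_inv₀, map_pow, he, hy, hk, mul_pow, ← pow_mul, mul_comm d k,
          map_mul, map_inv₀, map_pow]
        have h2 : (RatFunc.X : RatFunc M) ^ (k * d) ≠ 0 := pow_ne_zero _ hX
        have h3 : (RatFunc.C c : RatFunc M) ^ k ≠ 0 := pow_ne_zero _ hck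
        field_simp
      have hex : e = e * (y ^ k)⁻¹ * y ^ k := by
        rw [mul_assoc, inv_mul_cancel₀ (pow_ne_zero k hy0), mul_one]
      by_cases hk0 : k = 0
      · subst hk0
        refine ⟨⟨e * (y ^ 0)⁻¹, _, hx⟩, 0, 1, one_ne_zero, hex, fun r' _ => ⟨a * (c ^ 0)⁻¹, ?_, ?_⟩⟩
        · rw [pow_zero, one_mul]
          exact hx
        · rw [pow_zero, inv_one, mul_one]
          exact ha
      · obtain ⟨r, hr0, hr⟩ := exists_den hα halg (a * (c ^ k)⁻¹)
        refine ⟨⟨e * (y ^ k)⁻¹, _, hx⟩, k, r, hr0, hex, ?_⟩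
        rintro _ ⟨s, rfl⟩
        refine ⟨α (r * s) ^ k * (a * (c ^ k)⁻¹), ?_, ?_⟩
        · rw [map_mul, map_pow, hρ, hx, ← map_pow, ← map_mul]
        · obtain ⟨k', rfl⟩ := Nat.exists_eq_succ_of_ne_zero hk0
          have h1 : α (r * s) ^ (k' + 1) * (a * (c ^ (k' + 1))⁻¹) =
              α (r * s) ^ k' * (α s * (α r * (a * (c ^ (k' + 1))⁻¹))) := by
            rw [pow_succ, map_mul]
            ring
          have h2 := int_mul (int_pow (int_map (α := α) (r * s)) k')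
            (int_mul (int_map (α := α) s) hr)
          rw [← h1] at h2
          exact h2
  -- the data
  choose! P hP hPi using hG
  have hmono' : ∀ g ∈ G, ∀ i : ℕ, ∃ (e : E) (x : kone σ) (k : ℕ) (r : R),
      σ e = RatFunc.C ((P g).coeff i) * RatFunc.X ^ i ∧ r ≠ 0 ∧ e = x * y ^ k ∧
        ∀ r', r ∣ r' → ∃ a' : M, σ (ρ r' ^ k * x) = RatFunc.C a' ∧ α.IsIntegralElem a' := by
    intro g hg i
    obtain ⟨e, he⟩ := exists_mono hσ (hP g hg) i
    obtain ⟨x, k, r, h1, h2, h3⟩ := hmono e _ i he (hPi g hg i)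
    exact ⟨e, x, k, r, he, h1, h2, h3⟩
  choose! e x k r he hr0 hex hr using hmono'
  let D : R := ∏ g ∈ G, ∏ i ∈ Finset.range ((P g).natDegree + 1), r g i
  have hD0 : D ≠ 0 := Finset.prod_ne_zero_iff.2 fun g hg =>
    Finset.prod_ne_zero_iff.2 fun i _ => hr0 g hg i
  have hrD : ∀ g ∈ G, ∀ i ∈ Finset.range ((P g).natDegree + 1), r g i ∣ D := by
    intro g hg i hi
    exact (Finset.dvd_prod_of_mem _ hi).trans
      (Finset.dvd_prod_of_mem (fun g => ∏ i ∈ Finset.range ((P g).natDegree + 1), r g i) hg)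
  let Dk : kone σ := ⟨ρ D, _, hρ D⟩
  have hDk0 : Dk ≠ 0 := by
    intro h0
    have h1 : ρ D = 0 := congrArg Subtype.val h0
    have h2 := hρ D
    rw [h1, map_zero] at h2
    have h3 : α D = 0 := RatFunc.C_injective (by rw [map_zero]; exact h2.symm)
    exact hD0 (hα (by rw [h3, map_zero]))
  let G' : Finset (kone σ) := G.biUnion fun g =>
    (Finset.range ((P g).natDegree + 1)).image fun i => Dk ^ k g i * x g i
  refine ⟨G', ?_, ?_⟩
  · intro z hz
    obtain ⟨g, hg, hz⟩ := Finset.mem_biUnion.1 hz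
    obtain ⟨i, hi, rfl⟩ := Finset.mem_image.1 hz
    obtain ⟨a', h1, h2⟩ := hr g hg i D (hrD g hg i hi)
    exact ⟨a', h1, h2⟩
  · intro m κ hκ
    obtain ⟨j', t, hjW, ⟨Wt, hWt⟩, hjt⟩ := Pool.Agent.X316.ZU.OK.exists_lift2 ℂ m
    have hκD : κ Dk ≠ 0 := by
      rw [Ne, map_eq_zero]
      exact hDk0
    obtain ⟨χ, hχ1, hχ2⟩ := Pool.Agent.X316.ZU.OK.embed_succ2
      (transc (d := (d : ℤ)) hc (by omega) (by rw [zpow_natCast]; exact hy)) htop κ j'
      (Pool.Agent.X316.ZU.OK.scale_transc j'.toRingHom hjt hκD)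
    refine ⟨χ, fun g hg => ?_⟩
    have hsum : g = ∑ i ∈ Finset.range ((P g).natDegree + 1), e g i := by
      apply σ.toRingHom.injective
      change σ g = σ _
      rw [hP g hg, map_sum]
      conv_lhs => rw [(P g).as_sum_range_C_mul_X_pow]
      rw [map_sum]
      refine Finset.sum_congr rfl fun i _ => ?_
      rw [map_mul, map_pow, RatFunc.algebraMap_C, RatFunc.algebraMap_X]
      exact (he g hg i).symm
    have hei : ∀ i ∈ Finset.range ((P g).natDegree + 1), ∃ W : MvPolynomial (Fin (m + 1)) ℂ,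
        χ (e g i) = algebraMap _ (RK ℂ (m + 1)) W := by
      intro i hi
      obtain ⟨W, hW⟩ := hκ (Dk ^ k g i * x g i) (Finset.mem_biUnion.2 ⟨g, hg,
        Finset.mem_image.2 ⟨i, hi, rfl⟩⟩)
      obtain ⟨W', hW'⟩ := hjW W
      refine ⟨W' * Wt ^ k g i, ?_⟩
      rw [hex g hg i, map_mul, map_pow, hχ1, hχ2, map_mul, map_pow, ← hW', ← hW, ← hWt]
      change j' (κ (x g i)) * (j' (κ Dk) * t) ^ k g i = j' (κ (Dk ^ k g i * x g i)) * t ^ k g i
      rw [map_mul, map_pow, map_mul, map_pow]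
      ring
    choose! V hV using hei
    refine ⟨∑ i ∈ Finset.range ((P g).natDegree + 1), V i, ?_⟩
    conv_lhs => rw [hsum]
    rw [map_sum, map_sum]
    exact Finset.sum_congr rfl fun i hi => hV i hi

end Pool.Agent.X316.ZU
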